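import Mathlib

/-! Project CS: the algebraic lemma behind the transversality of the coincidences of critical
points and critical values of a rational map. -/

set_option autoImplicit false

open Polynomial

namespace Pool.Agent.H207.CS

/-- variation of the Wronskian of `P`, `Q` in the direction `A`, `B` -/
noncomputable def dW (P Q A B : ℂ[X]) : ℂ[X] :=
  derivative A * Q + derivative P * B - A * derivative Q - P * derivative B

theorem solve {d : ℕ} {P Q N : ℂ[X]} (hP : P.Monic) (hPd : P.natDegree = d)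
    (hQ : Q.degree < (d : WithBot ℕ)) (hcop : IsCoprime P Q)
    (hN : N.degree < ((2 * d : ℕ) : WithBot ℕ)) :
    ∃ A B : ℂ[X], A.degree < (d : WithBot ℕ) ∧ B.degree < (d : WithBot ℕ) ∧
      A * Q - P * B = N := by
  obtain ⟨a, b, hab⟩ := hcop
  set q := (N * b) /ₘ P with hq
  set A := (N * b) %ₘ P with hA
  have h1 : A + P * q = N * b := modByMonic_add_div (N * b) P
  have hPdeg : P.degree = (d : WithBot ℕ) := by
    rw [degree_eq_natDegree hP.ne_zero, hPd]
  have hAd : A.degree < (d : WithBot ℕ) := by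
    rw [← hPdeg]
    exact degree_modByMonic_lt _ hP
  refine ⟨A, -(N * a + q * Q), hAd, ?_, ?_⟩
  · set B := -(N * a + q * Q) with hB
    have h2 : P * B = A * Q - N := by
      rw [hB]
      linear_combination (-N) * hab - Q * h1
    by_contra hcon
    rw [not_lt] at hcon
    have hB0 : B ≠ 0 := by
      intro h
      rw [h, degree_zero] at hcon
      exact absurd hcon (by simp)
    have hBn : d ≤ B.natDegree := by
      rw [degree_eq_natDegree hB0] at hcon
      exact_mod_cast hcon
    have h3 : (P * B).natDegree = d + B.natDegree := by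
      rw [hP.natDegree_mul' hB0, hPd]
    have h4 : (P * B).degree < ((2 * d : ℕ) : WithBot ℕ) := by
      rw [h2]
      refine lt_of_le_of_lt (degree_sub_le _ _) (max_lt ?_ hN)
      by_cases hA0 : A = 0
      · rw [hA0, zero_mul, degree_zero]
        exact WithBot.bot_lt_coe _
      by_cases hQ0 : Q = 0
      · rw [hQ0, mul_zero, degree_zero]
        exact WithBot.bot_lt_coe _
      rw [degree_mul]
      rw [degree_eq_natDegree hA0] at hAd ⊢
      rw [degree_eq_natDegree hQ0] at hQ ⊢
      have e1 : A.natDegree < d := by exact_mod_cast hAd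
      have e2 : Q.natDegree < d := by exact_mod_cast hQ
      have e3 : A.natDegree + Q.natDegree < 2 * d := by omega
      exact_mod_cast e3
    have hPB : P * B ≠ 0 := mul_ne_zero hP.ne_zero hB0
    rw [degree_eq_natDegree hPB, h3] at h4
    have h5 : d + B.natDegree < 2 * d := by exact_mod_cast h4
    omega
  · linear_combination N * hab + Q * h1

theorem dW_Q (P Q A B : ℂ[X]) : Q * dW P Q A B =
    Q * derivative (A * Q - P * B) - 2 * derivative Q * (A * Q - P * B) +
      2 * (derivative P * Q - P * derivative Q) * B := by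
  unfold dW
  rw [derivative_sub, derivative_mul, derivative_mul]
  ring

theorem dW_P (P Q A B : ℂ[X]) : P * dW P Q A B =
    P * derivative (A * Q - P * B) - 2 * derivative P * (A * Q - P * B) +
      2 * (derivative P * Q - P * derivative Q) * A := by
  unfold dW
  rw [derivative_sub, derivative_mul, derivative_mul]
  ring

/-- the largest ideal in the kernel of a functional -/
def idl (L : ℂ[X] →ₗ[ℂ] ℂ) : Ideal ℂ[X] where
  carrier := {f | ∀ g, L (g * f) = 0}
  add_mem' := by
    intro a b ha hb g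
    rw [mul_add, map_add, ha, hb, add_zero]
  zero_mem' := by
    intro g
    rw [mul_zero, map_zero]
  smul_mem' := by
    intro a b hb g
    rw [smul_eq_mul, ← mul_assoc]
    exact hb _

theorem mem_idl {L : ℂ[X] →ₗ[ℂ] ℂ} {f : ℂ[X]} : f ∈ idl L ↔ ∀ g, L (g * f) = 0 := Iff.rfl

/-- enlarging the ideal by a linear factor -/
theorem mem_idl_of {L : ℂ[X] →ₗ[ℂ] ℂ} {f : ℂ[X]} {a : ℂ} (h1 : (X - C a) * f ∈ idl L)
    (h2 : L f = 0) : f ∈ idl L := by
  intro g
  obtain ⟨g₁, hg₁⟩ : X - C a ∣ g - C (g.eval a) := X_sub_C_dvd_sub_C_eval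
  have e1 : g * f = g₁ * ((X - C a) * f) + g.eval a • f := by
    rw [smul_eq_C_mul]
    linear_combination f * hg₁
  rw [e1, map_add, map_smul, h1, h2, smul_zero, add_zero]

theorem alg {ι : Type} [Fintype ι] [DecidableEq ι] {d : ℕ} (hd : 2 ≤ d) {P Q : ℂ[X]}
    (hP : P.Monic) (hPd : P.natDegree = d) (hQ : Q.degree < (d : WithBot ℕ))
    (hcop : IsCoprime P Q) (c : ι → ℂ) (hι : Fintype.card ι = 2 * d - 2) {w : ℂ}
    (hW : derivative P * Q - P * derivative Q = C w * ∏ i, (X - C (c i)))
    (L : ℂ[X] →ₗ[ℂ] ℂ) (h0 : ∀ f, L (f * ∏ i, (X - C (c i))) = 0)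
    (h1 : ∀ i, L (∏ i' ∈ Finset.univ.erase i, (X - C (c i'))) = 0)
    (h2 : ∀ A B : ℂ[X], A.degree < (d : WithBot ℕ) → B.degree < (d : WithBot ℕ) →
      (∀ i, (A * Q - P * B).eval (c i) = 0) → L (dW P Q A B) = 0) :
    ∀ f, L f = 0 := by
  set Wp : ℂ[X] := ∏ i, (X - C (c i)) with hWp
  have hWm : Wp.Monic := monic_prod_of_monic _ _ fun i _ => monic_X_sub_C _
  have hWd : Wp.natDegree = 2 * d - 2 := by
    rw [hWp, natDegree_prod_of_monic _ _ fun i _ => monic_X_sub_C _]
    simp [hι]
  set G := Submodule.IsPrincipal.generator (idl L) with hG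
  have hmem : ∀ f, f ∈ idl L ↔ G ∣ f := fun f =>
    Submodule.IsPrincipal.mem_iff_generator_dvd (idl L)
  have hGW0 : G ∣ Wp := (hmem _).1 h0
  have hGi : ∀ i, G ∣ ∏ i' ∈ Finset.univ.erase i, (X - C (c i')) := by
    intro i
    refine (hmem _).1 (mem_idl_of (a := c i) ?_ (h1 i))
    rw [Finset.mul_prod_erase Finset.univ (fun i' => X - C (c i')) (Finset.mem_univ i)]
    exact h0
  have hGW0' : G ∣ derivative Wp := by
    rw [hWp, derivative_prod_finset]
    refine Finset.dvd_sum fun i _ => ?_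
    exact Dvd.dvd.mul_right (hGi i) _
  have hG0 : G ≠ 0 := by
    intro h
    rw [h, zero_dvd_iff] at hGW0
    exact hWm.ne_zero hGW0
  have hunit : IsUnit G := by
    by_contra hnu
    have hdeg : G.degree ≠ 0 := by
      intro h
      exact hnu (isUnit_iff_degree_eq_zero.2 h)
    obtain ⟨c₀, hc₀⟩ := IsAlgClosed.exists_root G hdeg
    obtain ⟨G₁, hG₁, hG₁c⟩ := exists_eq_pow_rootMultiplicity_mul_and_not_dvd G hG0 c₀
    obtain ⟨Ψ, hΨ, hΨc⟩ := exists_eq_pow_rootMultiplicity_mul_and_not_dvd Wp hWm.ne_zero c₀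
    set m := rootMultiplicity c₀ G with hm
    set κ := rootMultiplicity c₀ Wp with hκ
    have hm1 : 1 ≤ m := (rootMultiplicity_pos hG0).2 hc₀
    have hmκ : m ≤ κ := rootMultiplicity_le_rootMultiplicity_of_dvd hWm.ne_zero hGW0 c₀
    have hcp : ∀ k : ℕ, IsCoprime G₁ ((X - C c₀) ^ k) := by
      intro k
      apply IsCoprime.pow_right
      exact ((irreducible_X_sub_C c₀).coprime_iff_not_dvd.2 hG₁c).symm
    have hG₁G : G₁ ∣ G := ⟨(X - C c₀) ^ m, by rw [mul_comm]; exact hG₁⟩
    have hG₁Ψ : G₁ ∣ Ψ := by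
      have e1 : G₁ ∣ (X - C c₀) ^ κ * Ψ := by
        rw [← hΨ]
        exact hG₁G.trans hGW0
      exact (hcp κ).dvd_of_dvd_mul_left e1
    have hG₁Ψ' : G₁ ∣ derivative Ψ := by
      have e1 : derivative Wp = derivative ((X - C c₀) ^ κ) * Ψ +
          (X - C c₀) ^ κ * derivative Ψ := by
        conv_lhs => rw [hΨ]
        rw [derivative_mul]
      have e2 : G₁ ∣ (X - C c₀) ^ κ * derivative Ψ := by
        have e3 : (X - C c₀) ^ κ * derivative Ψ =
            derivative Wp - derivative ((X - C c₀) ^ κ) * Ψ := by rw [e1]; ring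
        rw [e3]
        exact dvd_sub (hG₁G.trans hGW0') (Dvd.dvd.mul_left hG₁Ψ _)
      exact (hcp κ).dvd_of_dvd_mul_left e2
    -- the direction
    set N : ℂ[X] := (X - C c₀) ^ m * Ψ with hN
    have hΨ0 : Ψ ≠ 0 := by
      intro h
      rw [h, mul_zero] at hΨ
      exact hWm.ne_zero hΨ
    have hpow0 : ∀ k : ℕ, (X - C c₀) ^ k ≠ 0 := fun k => pow_ne_zero _ (X_sub_C_ne_zero c₀)
    have hΨd : κ + Ψ.natDegree = 2 * d - 2 := by
      have e1 := congrArg natDegree hΨ
      rw [hWd, natDegree_mul (hpow0 κ) hΨ0, natDegree_pow, natDegree_X_sub_C, mul_one] at e1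
      exact e1.symm
    have hNd : N.degree < ((2 * d : ℕ) : WithBot ℕ) := by
      rw [degree_eq_natDegree (mul_ne_zero (hpow0 m) hΨ0), natDegree_mul (hpow0 m) hΨ0,
        natDegree_pow, natDegree_X_sub_C, mul_one]
      have e1 : m + Ψ.natDegree < 2 * d := by omega
      exact_mod_cast e1
    obtain ⟨A, B, hA, hB, hAB⟩ := solve hP hPd hQ hcop hNd
    have hNi : ∀ i, N.eval (c i) = 0 := by
      intro i
      by_cases hi : c i = c₀
      · rw [hN, eval_mul, eval_pow, hi]
        simp only [eval_sub, eval_X, eval_C, sub_self]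
        rw [zero_pow (by omega), zero_mul]
      · have e1 : Wp.eval (c i) = 0 := by
          rw [hWp, eval_prod]
          exact Finset.prod_eq_zero (Finset.mem_univ i) (by simp)
        rw [hΨ, eval_mul, eval_pow] at e1
        simp only [eval_sub, eval_X, eval_C] at e1
        rw [hN, eval_mul, (mul_eq_zero.1 e1).resolve_left
          (pow_ne_zero _ (sub_ne_zero.2 hi)), mul_zero]
    have hLW := h2 A B hA hB (by intro i; rw [hAB]; exact hNi i)
    set T : ℂ[X] := dW P Q A B - C (m : ℂ) * ((X - C c₀) ^ (m - 1) * Ψ) with hT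
    have hN' : derivative N = C (m : ℂ) * ((X - C c₀) ^ (m - 1) * Ψ) +
        (X - C c₀) ^ m * derivative Ψ := by
      rw [hN, derivative_mul, derivative_X_sub_C_pow]
      simp only [map_natCast]
      ring
    have hGN : G ∣ N := by
      rw [hG₁, hN]
      exact mul_dvd_mul_left _ hG₁Ψ
    have hGN' : G ∣ (X - C c₀) ^ m * derivative Ψ := by
      rw [hG₁]
      exact mul_dvd_mul_left _ hG₁Ψ'
    have hGW : G ∣ derivative P * Q - P * derivative Q := by
      rw [hW]
      exact Dvd.dvd.mul_left hGW0 _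
    have hQT : G ∣ Q * T := by
      have e1 : Q * T = Q * ((X - C c₀) ^ m * derivative Ψ) - 2 * derivative Q * N +
          2 * (derivative P * Q - P * derivative Q) * B := by
        rw [hT, mul_sub, dW_Q, hAB, hN']
        ring
      rw [e1]
      refine dvd_add (dvd_sub (Dvd.dvd.mul_left hGN' _) (Dvd.dvd.mul_left hGN _)) ?_
      exact Dvd.dvd.mul_right (Dvd.dvd.mul_left hGW _) _
    have hPT : G ∣ P * T := by
      have e1 : P * T = P * ((X - C c₀) ^ m * derivative Ψ) - 2 * derivative P * N +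
          2 * (derivative P * Q - P * derivative Q) * A := by
        rw [hT, mul_sub, dW_P, hAB, hN']
        ring
      rw [e1]
      refine dvd_add (dvd_sub (Dvd.dvd.mul_left hGN' _) (Dvd.dvd.mul_left hGN _)) ?_
      exact Dvd.dvd.mul_right (Dvd.dvd.mul_left hGW _) _
    have hTI : T ∈ idl L := by
      rw [hmem]
      obtain ⟨a, b, hab⟩ := hcop
      have e1 : T = a * (P * T) + b * (Q * T) := by linear_combination (-T) * hab
      rw [e1]
      exact dvd_add (Dvd.dvd.mul_left hPT _) (Dvd.dvd.mul_left hQT _)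
    have hLT : L T = 0 := by
      have := hTI 1
      rwa [one_mul] at this
    have hm0 : (m : ℂ) ≠ 0 := by
      have : m ≠ 0 := by omega
      exact_mod_cast this
    have hLN : L ((X - C c₀) ^ (m - 1) * Ψ) = 0 := by
      rw [hT, map_sub, hLW, zero_sub, neg_eq_zero, ← smul_eq_C_mul, map_smul, smul_eq_mul] at hLT
      exact (mul_eq_zero.1 hLT).resolve_left hm0
    have hfin : (X - C c₀) ^ (m - 1) * Ψ ∈ idl L := by
      refine mem_idl_of (a := c₀) ?_ hLN
      rw [hmem, ← mul_assoc, ← pow_succ', Nat.sub_add_cancel hm1]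
      exact hGN
    rw [hmem, hG₁] at hfin
    have e1 : (X - C c₀) ^ (m - 1) * (X - C c₀) ∣ (X - C c₀) ^ (m - 1) * Ψ := by
      rw [← pow_succ, Nat.sub_add_cancel hm1]
      exact (Dvd.intro _ rfl).trans hfin
    exact hΨc ((mul_dvd_mul_iff_left (hpow0 (m - 1))).1 e1)
  intro f
  have h3 : f ∈ idl L := (hmem f).2 (hunit.dvd)
  have := h3 1
  rwa [one_mul] at this

end Pool.Agent.H207.CS
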