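import Mathlib
import Pool.Graph.R_seed8.W757.RD.St4
import Pool.Graph.R_seed8.H790R3.RB.Basic

/-! Project CS (helper207, MP_8f2e1c_an): the area-distance theorem inside the strata of rational
maps with prescribed coincidences between critical points and between critical values.
Definitions. The project is built on the project `Pool.Agent.W757.RD` of the library. -/

set_option autoImplicit false

open Topology Filter Metric Set MeasureTheory
open Pool.Agent.H790R3.RB (CV hF cr ND wr rt Ix yx yc cr_self cr_comm cr_iter hF_contDiff)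
open Pool.Agent.W757.RD

namespace Pool.Agent.H207.CS

/-- A pattern of coincidences of `m` labelled critical points: `p1 i` is the representative of the
class of the labels of the same critical point, `p2 i` the one of the class of the labels of
critical points with the same critical value. -/
structure Pat (m : ℕ) where
  p1 : Fin m → Fin m
  p2 : Fin m → Fin m
  h11 : ∀ i, p1 (p1 i) = p1 i
  h22 : ∀ i, p2 (p2 i) = p2 i
  h21 : ∀ i, p2 (p1 i) = p2 i
  h12 : ∀ i, p1 (p2 i) = p2 i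

/-- the labels which are not representatives -/
abbrev Nr {m : ℕ} (π : Pat m) : Type := {i : Fin m // π.p2 i ≠ i}

/-- representatives of the marked points -/
def rep {d : ℕ} (π : Pat (2 * d - 2)) (i : Pt d) : Pt d :=
  match i with
  | Sum.inl i => Sum.inl (π.p2 i)
  | Sum.inr j => Sum.inr j

theorem rep_rep {d : ℕ} (π : Pat (2 * d - 2)) (i : Pt d) : rep π (rep π i) = rep π i := by
  rcases i with i | j
  · simp only [rep, π.h22]
  · rfl

variable {d n s : ℕ}

/-- the equations of the coincidences -/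
noncomputable def Ex (S : Sys d n s) (π : Pat (2 * d - 2)) (i : Nr π) (y : Ix d n s → ℂ) : ℂ :=
  open Classical in
  if π.p1 i ≠ i then yc y i - yc y (π.p1 i)
  else cr (S.F (yx y) (yc y i, 1)) (S.F (yx y) (yc y (π.p2 i), 1))

/-- all structural equations -/
noncomputable def Es (S : Sys d n s) (π : Pat (2 * d - 2)) (a : Fin (2 * d - 2) ⊕ Nr π)
    (y : Ix d n s → ℂ) : ℂ :=
  match a with
  | Sum.inl j => S.Er j y
  | Sum.inr i => Ex S π i y

/-- sets of marked points which are unions of classes, with addresses which are constant on the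
classes -/
structure Sat (π : Pat (2 * d - 2)) (A : Finset (Pt d)) (ks : Pt d → Fin s) (ls : Pt d → ℕ) :
    Prop where
  mem : ∀ i, rep π i ∈ A ↔ i ∈ A
  k : ∀ i, ks (rep π i) = ks i
  l : ∀ i, ls (rep π i) = ls i

open Classical in
/-- the representatives in `A` -/
noncomputable def Bs (π : Pat (2 * d - 2)) (A : Finset (Pt d)) : Finset (Pt d) :=
  A.filter fun i => rep π i = i

theorem Bs_sub (π : Pat (2 * d - 2)) (A : Finset (Pt d)) : Bs π A ⊆ A := by
  classical
  exact Finset.filter_subset _ _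

theorem mem_Bs {π : Pat (2 * d - 2)} {A : Finset (Pt d)} {i : Pt d} :
    i ∈ Bs π A ↔ i ∈ A ∧ rep π i = i := by
  classical
  unfold Bs
  rw [Finset.mem_filter]

theorem rep_mem_Bs {π : Pat (2 * d - 2)} {A : Finset (Pt d)} {ks : Pt d → Fin s}
    {ls : Pt d → ℕ} (h : Sat π A ks ls) {i : Pt d} (hi : i ∈ A) : rep π i ∈ Bs π A :=
  mem_Bs.2 ⟨(h.mem i).2 hi, rep_rep π i⟩

/-- the matrix of partial derivatives, all structural rows and `R` other rows -/
noncomputable def MxP (S : Sys d n s) (π : Pat (2 * d - 2))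
    (KK : Fin s → (Fin n → ℂ) × (ℂ × ℂ) → ℂ) {l : ℕ}
    (e : Fin l → (Fin n → ℂ) → ℂ) (B : Finset (Pt d)) (ks : Pt d → Fin s) (ls : Pt d → ℕ) {R : ℕ}
    (sel : Fin R → Sys.Rw l d s B) (col : (Fin (2 * d - 2) ⊕ Nr π) ⊕ Fin R → Ix d n s)
    (y : Ix d n s → ℂ) :
    Matrix ((Fin (2 * d - 2) ⊕ Nr π) ⊕ Fin R) ((Fin (2 * d - 2) ⊕ Nr π) ⊕ Fin R) ℂ :=
  Matrix.of fun a c =>
    match a with
    | Sum.inl j => fderiv ℂ (Es S π j) y (Pi.single (col c) 1)
    | Sum.inr i => fderiv ℂ (S.Gr KK e B ks ls (sel i)) y (Pi.single (col c) 1)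

/-- good configurations in a stratum -/
def GoodP {l : ℕ} (S : Sys d n s) (π : Pat (2 * d - 2))
    (KK : Fin s → (Fin n → ℂ) × (ℂ × ℂ) → ℂ)
    (e : Fin l → (Fin n → ℂ) → ℂ) (A : Finset (Pt d))
    (ks : Pt d → Fin s) (ls : Pt d → ℕ) (R : ℕ)
    (y : Ix d n s → ℂ) : Prop :=
  S.Adm A ks ls y ∧ (∀ i, Ex S π i y = 0) ∧ Sat π A ks ls ∧
    ∃ (sel : Fin R → Sys.Rw l d s (Bs π A))
      (col : (Fin (2 * d - 2) ⊕ Nr π) ⊕ Fin R → Ix d n s),
      (MxP S π KK e (Bs π A) ks ls sel col y).det ≠ 0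

section OK

variable {S : Sys d n s} {π : Pat (2 * d - 2)} {y : Ix d n s → ℂ}

theorem ok_p1 (h : ∀ i, Ex S π i y = 0) (i : Fin (2 * d - 2)) : yc y i = yc y (π.p1 i) := by
  classical
  by_cases h1 : π.p1 i = i
  · rw [h1]
  · have h2 : π.p2 i ≠ i := by
      intro h2
      apply h1
      have := π.h12 i
      rw [h2] at this
      exact this
    have h3 := h ⟨i, h2⟩
    unfold Ex at h3
    rw [if_pos h1] at h3
    exact sub_eq_zero.1 h3

theorem ok_p2 (h : ∀ i, Ex S π i y = 0) (i : Fin (2 * d - 2)) :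
    cr (S.F (yx y) (yc y i, 1)) (S.F (yx y) (yc y (π.p2 i), 1)) = 0 := by
  classical
  rw [ok_p1 h i]
  by_cases h2 : π.p2 (π.p1 i) = π.p1 i
  · have h3 : π.p2 i = π.p1 i := by rw [← π.h21 i]; exact h2
    rw [h3, cr_self]
  · have h3 := h ⟨π.p1 i, h2⟩
    unfold Ex at h3
    rw [if_neg (by simp [π.h11])] at h3
    simp only [π.h21] at h3
    exact h3

theorem F_ne (hU : yx y ∈ S.U) {p : ℂ × ℂ} (hp : p ≠ 0) : S.F (yx y) p ≠ 0 := by
  intro h
  exact hp (S.nd _ hU p h)

theorem iter_ne (hU : yx y ∈ S.U) {p : ℂ × ℂ} (hp : p ≠ 0) (N : ℕ) :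
    (S.F (yx y))^[N] p ≠ 0 :=
  (S.nd _ hU).iter_ne N hp

theorem vec_ne (ζ : ℂ) : ((ζ, 1) : ℂ × ℂ) ≠ 0 := by
  intro h
  have := congrArg Prod.snd h
  simp at this

/-- points of the same class have the same images -/
theorem ok_iter (hU : yx y ∈ S.U) (h : ∀ i, Ex S π i y = 0) (i : Pt d) {N : ℕ} (hN : 1 ≤ N) :
    cr ((S.F (yx y))^[N] (pc y i, 1)) ((S.F (yx y))^[N] (pc y (rep π i), 1)) = 0 := by
  obtain ⟨M, rfl⟩ : ∃ M, N = M + 1 := ⟨N - 1, by omega⟩
  rw [Function.iterate_succ_apply, Function.iterate_succ_apply]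
  rcases i with i | j
  · exact cr_iter _ _ (F_ne hU (vec_ne _)) (F_ne hU (vec_ne _)) (ok_p2 h i)
  · exact cr_self _

end OK

theorem yx_diff' : Differentiable ℂ (fun y : Ix d n s → ℂ => yx y) := by
  unfold yx
  fun_prop

theorem yc_diff' (i : Fin (2 * d - 2)) : Differentiable ℂ (fun y : Ix d n s → ℂ => yc y i) := by
  unfold yc
  fun_prop

theorem F_diff (S : Sys d n s) {g : (Ix d n s → ℂ) → ℂ} (hg : Differentiable ℂ g) :
    DifferentiableOn ℂ (fun y : Ix d n s → ℂ => S.F (yx y) (g y, 1)) {y | yx y ∈ S.U} := by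
  have h1 : DifferentiableOn ℂ (fun y : Ix d n s → ℂ => S.co (yx y)) {y | yx y ∈ S.U} :=
    S.hco.comp yx_diff'.differentiableOn (fun y hy => hy)
  have h2 : DifferentiableOn ℂ (fun y : Ix d n s → ℂ =>
      ((S.co (yx y), ((g y, 1) : ℂ × ℂ)) : CV d × (ℂ × ℂ))) {y | yx y ∈ S.U} :=
    h1.prodMk (hg.differentiableOn.prodMk (differentiableOn_const _))
  have h3 : Differentiable ℂ (fun q : CV d × (ℂ × ℂ) => hF q.1 q.2) :=
    (hF_contDiff d 1).differentiable (by norm_num)
  exact h3.comp_differentiableOn h2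

theorem ex_diff (S : Sys d n s) (π : Pat (2 * d - 2)) (i : Nr π) :
    DifferentiableOn ℂ (Ex S π i) {y | yx y ∈ S.U} := by
  classical
  by_cases h : π.p1 i ≠ i
  · have h1 : Ex S π i = fun y => yc y i - yc y (π.p1 i) := by
      funext y
      unfold Ex
      rw [if_pos h]
    rw [h1]
    exact ((yc_diff' _).sub (yc_diff' _)).differentiableOn
  · have h1 : Ex S π i =
        fun y => cr (S.F (yx y) (yc y i, 1)) (S.F (yx y) (yc y (π.p2 i), 1)) := by
      funext y
      unfold Ex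
      rw [if_neg h]
    rw [h1]
    have h2 := F_diff S (n := n) (yc_diff' (d := d) (s := s) (i : Fin (2 * d - 2)))
    have h3 := F_diff S (n := n) (yc_diff' (d := d) (s := s) (π.p2 i))
    unfold cr
    exact (h2.fst.mul h3.snd).sub (h2.snd.mul h3.fst)

end Pool.Agent.H207.CS
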