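import Mathlib
import Pool.Agent.H207.CS.Defs
import Pool.Graph.R_seed8.W440.RE.Jt

/-! Project CS: a holomorphic function on the leaf with the zeros of the minor (adapted from
`Pool.Agent.W440.RE.JT`). -/

set_option autoImplicit false

open Topology Filter Metric Set MeasureTheory
open Pool.Agent.H790R3.RB (CV hF cr ND wr rt Ix yx yc)
open Pool.Agent.W757.RD
open Pool.Agent.W440.RE.JT (KP ent fac diff_yx diff_yk quot prod_diff det_diff)

namespace Pool.Agent.H207.CS

theorem jt (hLAM : StLAM) (hADO : StADO) {d n s l : ℕ} (S : Sys d n s)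
    (KK : Fin s → (Fin n → ℂ) × (ℂ × ℂ) → ℂ)
    (e : Fin l → (Fin n → ℂ) → ℂ) (A : Finset (Pt d))
    (ks : Pt d → Fin s) (ls : Pt d → ℕ) {R : ℕ}
    {J : Type} [Fintype J] [DecidableEq J] (E : J → (Ix d n s → ℂ) → ℂ)
    (hE : ∀ j, DifferentiableOn ℂ (E j) {y | yx y ∈ S.U})
    (sel : Fin R → Sys.Rw l d s A) (col : J ⊕ Fin R → Ix d n s) (hK : S.Koe KK)
    (he : ∀ i, DifferentiableOn ℂ (e i) S.U) :
    ∃ Jt : (Ix d n s → ℂ) → ℂ,
      DifferentiableOn ℂ Jt {y | yx y ∈ S.U ∧ (∀ k, S.lam k (yx y) ≠ 0) ∧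
        ∀ i ∈ A, (yx y, (S.F (yx y))^[ls i] (pc y i, 1)) ∈ S.Dom (ks i)} ∧
      ∀ y : Ix d n s → ℂ, yx y ∈ S.U → (∀ k, S.lam k (yx y) ≠ 0) →
        (∀ i ∈ A, (yx y, (S.F (yx y))^[ls i] (pc y i, 1)) ∈ S.Dom (ks i)) → (∀ k, ys y k ≠ 0) →
        (Jt y = 0 ↔ (Matrix.of fun (a c : J ⊕ Fin R) =>
          match a with
          | Sum.inl j => fderiv ℂ (E j) y (Pi.single (col c) 1)
          | Sum.inr i => fderiv ℂ (S.Gr KK e A ks ls (sel i)) y (Pi.single (col c) 1)).det = 0) := by
  obtain ⟨O, hO, hOe, hEr, hKP, -⟩ := hADO d n s l S KK e A ks ls hK he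
  obtain ⟨hlam, -⟩ := hLAM d n s S
  have hOU : ∀ y ∈ O, yx y ∈ S.U := by
    intro y hy
    rw [hOe] at hy
    exact hy.1
  have hcomp : ∀ f : (Fin n → ℂ) → ℂ, DifferentiableOn ℂ f S.U →
      DifferentiableOn ℂ (fun y : Ix d n s → ℂ => f (yx y)) O := fun f hf =>
    hf.comp diff_yx.differentiableOn hOU
  have hent : ∀ (a : Sys.Rw l d s A) (v : Ix d n s → ℂ),
      DifferentiableOn ℂ (fun y => ent S KK e A ks ls a y v) O := by
    intro a v
    rcases a with i | k | i
    · exact Pool.Agent.Helper540.differentiableOn_fderiv_apply hO (hcomp _ (he i)) v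
    · exact Pool.Agent.Helper540.differentiableOn_fderiv_apply hO (hcomp _ (hlam k)) v
    · have h1 : DifferentiableOn ℂ (KP S KK ks ls i) O := hKP i i.2
      have h2 : DifferentiableOn ℂ (fun y : Ix d n s → ℂ => ys y (ks i)) O :=
        (diff_yk (ks i)).differentiableOn
      exact (h2.mul (Pool.Agent.Helper540.differentiableOn_fderiv_apply hO h1 v)).sub
        (h1.mul (Pool.Agent.Helper540.differentiableOn_fderiv_apply hO h2 v))
  refine ⟨fun y => (Matrix.of fun (a c : J ⊕ Fin R) =>
    match a with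
    | Sum.inl j => fderiv ℂ (E j) y (Pi.single (col c) 1)
    | Sum.inr i => ent S KK e A ks ls (sel i) y (Pi.single (col c) 1)).det, ?_, ?_⟩
  · rw [← hOe]
    apply det_diff
    intro a c
    rcases a with j | i
    · exact Pool.Agent.Helper540.differentiableOn_fderiv_apply hO ((hE j).mono hOU) _
    · exact hent (sel i) _
  · intro y h1 h2 h3 h4
    have hyO : y ∈ O := by
      rw [hOe]
      exact ⟨h1, h2, h3⟩
    have hmat : (Matrix.of fun (a c : J ⊕ Fin R) =>
        match a with
        | Sum.inl j => fderiv ℂ (E j) y (Pi.single (col c) 1)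
        | Sum.inr i => ent S KK e A ks ls (sel i) y (Pi.single (col c) 1)) =
        Matrix.of fun (a c : J ⊕ Fin R) =>
          (Sum.elim (fun _ => 1) (fun i => fac A ks (sel i) y) a : ℂ) *
            (Matrix.of fun (a c : J ⊕ Fin R) =>
              match a with
              | Sum.inl j => fderiv ℂ (E j) y (Pi.single (col c) 1)
              | Sum.inr i => fderiv ℂ (S.Gr KK e A ks ls (sel i)) y (Pi.single (col c) 1)) a c := by
      ext a c
      rcases a with j | i
      · change fderiv ℂ (E j) y (Pi.single (col c) 1) =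
          1 * fderiv ℂ (E j) y (Pi.single (col c) 1)
        rw [one_mul]
      · change ent S KK e A ks ls (sel i) y (Pi.single (col c) 1) =
          fac A ks (sel i) y * fderiv ℂ (S.Gr KK e A ks ls (sel i)) y (Pi.single (col c) 1)
        rcases sel i with i' | k | i'
        · exact (one_mul _).symm
        · exact (one_mul _).symm
        · exact quot ((hKP i' i'.2).differentiableAt (hO.mem_nhds hyO))
            (diff_yk (ks i')).differentiableAt (h4 (ks i')) _
    dsimp only
    rw [hmat, Matrix.det_mul_column]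
    have hne : (∏ a : J ⊕ Fin R,
        (Sum.elim (fun _ => 1) (fun i => fac A ks (sel i) y) a : ℂ)) ≠ 0 := by
      rw [Finset.prod_ne_zero_iff]
      intro a _
      rcases a with j | i
      · exact one_ne_zero
      · change fac A ks (sel i) y ≠ 0
        rcases sel i with i' | k | i'
        · exact one_ne_zero
        · exact one_ne_zero
        · exact pow_ne_zero 2 (h4 (ks i'))
    rw [mul_eq_zero]
    exact ⟨fun h => h.resolve_left hne, fun h => Or.inr h⟩

end Pool.Agent.H207.CS
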