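import Mathlib
import Pool.Agent.H207.CS.Defs
import Pool.Graph.R_seed8.W757.RD.TTRF
import Pool.Graph.R_seed8.H790R3.RB.TLA

/-! Project CS: maximal configurations in a stratum. -/

set_option autoImplicit false

open Topology Filter Metric Set MeasureTheory
open Pool.Agent.H790R3.RB (CV hF cr ND wr rt Ix yx yc cr_self cr_comm cr_iter cr_trans
  cr_eq_zero_iff hF_iter_smul StLA)
open Pool.Agent.W757.RD

namespace Pool.Agent.H207.CS

variable {d n s : ℕ}

/-- the same coordinates for the points of a class -/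
theorem kk_rep (hLAM : StLAM) {S : Sys d n s} {KK : Fin s → (Fin n → ℂ) × (ℂ × ℂ) → ℂ}
    (hK : S.Koe KK) {π : Pat (2 * d - 2)} {y : Ix d n s → ℂ} (hok : ∀ i, Ex S π i y = 0)
    {k : Fin s} {L : ℕ} {i : Pt d}
    (h1 : (yx y, (S.F (yx y))^[L] (pc y i, 1)) ∈ S.Dom k)
    (h2 : (yx y, (S.F (yx y))^[L] (pc y (rep π i), 1)) ∈ S.Dom k) :
    KK k (yx y, (S.F (yx y))^[L] (pc y i, 1)) =
      KK k (yx y, (S.F (yx y))^[L] (pc y (rep π i), 1)) := by
  have hU : yx y ∈ S.U := h1.1
  have hl : S.lam k (yx y) ≠ 0 := h1.2.1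
  have e1 := hK.fe k (yx y) _ h1
  have e2 := hK.fe k (yx y) _ h2
  have hp : 1 ≤ S.per k := S.hper k
  have h3 := ok_iter hU hok i (N := S.per k + L) (by omega)
  rw [Function.iterate_add_apply, Function.iterate_add_apply] at h3
  obtain ⟨a, ha, h4⟩ := (cr_eq_zero_iff (iter_ne hU (iter_ne hU (vec_ne _) _) _)
    (iter_ne hU (iter_ne hU (vec_ne _) _) _)).1 h3
  have h5 := TRF.Dom_iter S hLAM h2 1
  rw [mul_one] at h5
  rw [h4, hK.hom k _ _ h5 a ha, e2] at e1
  exact mul_left_cancel₀ hl e1.symm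

theorem inC_smul {S : Sys d n s} {k : Fin s} {x : Fin n → ℂ} {p : ℂ × ℂ} (h : S.InC k x p)
    {a : ℂ} (ha : a ≠ 0) : S.InC k x (a • p) := by
  obtain ⟨b, z, hb, hz, rfl⟩ := h
  exact ⟨a * b, z, mul_ne_zero ha hb, hz, by rw [smul_smul]⟩

theorem inC_per (hLAM : StLAM) {S : Sys d n s} {k : Fin s} {x : Fin n → ℂ} (hx : x ∈ S.U)
    {p : ℂ × ℂ} (h : S.InC k x p) : S.InC k x ((S.F x)^[S.per k] p) := by
  obtain ⟨b, z, hb, hz, rfl⟩ := h
  obtain ⟨-, h2, a, ha, he⟩ := TRF.iter_contr S hLAM hx k 1 hz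
  rw [mul_one] at he
  refine ⟨b ^ (d ^ S.per k) * a, _, mul_ne_zero (pow_ne_zero _ hb) ha, h2, ?_⟩
  change (hF (S.co x))^[S.per k] _ = _
  rw [hF_iter_smul]
  change _ • (S.F x)^[S.per k] _ = _
  rw [he, smul_smul]

/-- if a point of a class is attracted then so are all of them -/
theorem inC_class (hLAM : StLAM) {S : Sys d n s} {π : Pat (2 * d - 2)} {y : Ix d n s → ℂ}
    (hU : yx y ∈ S.U) (hok : ∀ i, Ex S π i y = 0) {k : Fin s} {m : ℕ} {i j : Pt d}
    (hij : rep π j = rep π i) (h : S.InC k (yx y) ((S.F (yx y))^[m] (pc y i, 1))) :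
    S.InC k (yx y) ((S.F (yx y))^[S.per k + m] (pc y j, 1)) := by
  have hp : 1 ≤ S.per k := S.hper k
  have h1 := inC_per hLAM hU h
  rw [← Function.iterate_add_apply] at h1
  have h2 := ok_iter hU hok i (N := S.per k + m) (by omega)
  have h3 := ok_iter hU hok j (N := S.per k + m) (by omega)
  rw [hij] at h3
  rw [cr_comm] at h2
  have h4 := cr_trans (iter_ne hU (vec_ne _) _) h3 (neg_eq_zero.1 h2)
  obtain ⟨a, ha, h5⟩ := (cr_eq_zero_iff (iter_ne hU (vec_ne _) _)
    (iter_ne hU (vec_ne _) _)).1 h4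
  rw [h5]
  exact inC_smul h1 ha

theorem card_lt_of_new {π : Pat (2 * d - 2)} {A A' : Finset (Pt d)} {ks : Pt d → Fin s}
    {ls : Pt d → ℕ} (hS : Sat π A ks ls) (h : A ⊆ A') {i : Pt d} (hi : i ∉ A)
    (hi' : rep π i ∈ A') : (Bs π A).card < (Bs π A').card := by
  apply Finset.card_lt_card
  rw [Finset.ssubset_iff_of_subset]
  · refine ⟨rep π i, mem_Bs.2 ⟨hi', rep_rep π i⟩, fun h2 => hi ?_⟩
    exact (hS.mem i).1 (mem_Bs.1 h2).1
  · intro j hj
    rw [mem_Bs] at hj ⊢
    exact ⟨h hj.1, hj.2⟩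

/-- At a good configuration in a stratum with maximal number of attracted critical values the
other critical points are not attracted. -/
theorem nomore (hLAM : StLAM) (hLA : StLA) {l : ℕ} (S : Sys d n s) (π : Pat (2 * d - 2))
    (KK : Fin s → (Fin n → ℂ) × (ℂ × ℂ) → ℂ) (e : Fin l → (Fin n → ℂ) → ℂ)
    (A : Finset (Pt d)) (ks : Pt d → Fin s) (ls : Pt d → ℕ) (R : ℕ) (y : Ix d n s → ℂ)
    (hgood : GoodP S π KK e A ks ls R y)
    (hmax : ∀ (A' : Finset (Pt d)) (ks' : Pt d → Fin s) (ls' : Pt d → ℕ), A ⊆ A' →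
      (Bs π A).card < (Bs π A').card → ¬ GoodP S π KK e A' ks' ls' 0 y) :
    ∀ i : Fin (2 * d - 2), Sum.inl i ∉ A →
      ∀ k, ∀ m : ℕ, ¬ S.InC k (yx y) ((S.F (yx y))^[m] (yc y i, 1)) := by
  classical
  intro i₀ hi₀ k m hInC
  obtain ⟨hadm, hok, hsat, sel, col, hdet⟩ := hgood
  set i : Pt d := Sum.inl i₀ with hidef
  have hi : i ∉ A := hi₀
  set A' : Finset (Pt d) := A ∪ Finset.univ.filter (fun j => rep π j = rep π i) with hA'
  have hmem : ∀ j, j ∈ A' ↔ j ∈ A ∨ rep π j = rep π i := by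
    intro j
    rw [hA', Finset.mem_union, Finset.mem_filter]
    simp
  have hsub : A ⊆ A' := Finset.subset_union_left
  set ks' : Pt d → Fin s := fun j => if rep π j = rep π i then k else ks j with hks'
  set ls' : Pt d → ℕ := fun j => if rep π j = rep π i then m % S.per k else ls j with hls'
  have hsat' : Sat π A' ks' ls' := by
    refine ⟨fun j => ?_, fun j => ?_, fun j => ?_⟩
    · rw [hmem, hmem, rep_rep, hsat.mem]
    · simp only [hks', rep_rep, hsat.k]
    · simp only [hls', rep_rep, hsat.l]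
  have hlt : (Bs π A).card < (Bs π A').card := by
    refine card_lt_of_new hsat hsub hi ?_
    rw [hmem, rep_rep]
    exact Or.inr rfl
  refine hmax A' ks' ls' hsub hlt ⟨⟨hadm.xU, hadm.lam0, hadm.kap0, hadm.crit, ?_, ?_⟩, hok,
    hsat', ?_⟩
  · intro j hj
    simp only [hks', hls']
    by_cases h : rep π j = rep π i
    · rw [if_pos h, if_pos h]
      exact Nat.mod_lt _ (S.hper k)
    · rw [if_neg h, if_neg h]
      exact hadm.lsp j (((hmem j).1 hj).resolve_right h)
  · intro j hj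
    simp only [hks', hls']
    by_cases h : rep π j = rep π i
    · rw [if_pos h, if_pos h]
      refine ⟨hadm.xU, hadm.lam0 k, m / S.per k + 1, ?_⟩
      change S.InC k (yx y) ((S.F (yx y))^[S.per k * (m / S.per k + 1)]
        ((S.F (yx y))^[m % S.per k] (pc y j, 1)))
      rw [← Function.iterate_add_apply]
      have h1 : S.per k * (m / S.per k + 1) + m % S.per k = S.per k + m := by
        have := Nat.div_add_mod m (S.per k)
        calc S.per k * (m / S.per k + 1) + m % S.per k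
            = S.per k + (S.per k * (m / S.per k) + m % S.per k) := by ring
          _ = _ := by rw [this]
      rw [h1]
      exact inC_class hLAM hadm.xU hok h hInC
    · rw [if_neg h, if_neg h]
      exact hadm.att j (((hmem j).1 hj).resolve_right h)
  · obtain ⟨col', hcol'⟩ := hLA (Ix d n s) (Fin (2 * d - 2) ⊕ Nr π) (Fin R)
      (fun j c => fderiv ℂ (Es S π j) y (Pi.single c 1))
      (fun i c => fderiv ℂ (S.Gr KK e (Bs π A) ks ls (sel i)) y (Pi.single c 1)) col (by
        convert hdet using 2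
        ext a c
        rcases a with a | a <;> rfl)
    refine ⟨fun a => a.elim0, Sum.elim col' (fun a => a.elim0), ?_⟩
    have e1 : MxP S π KK e (Bs π A') ks' ls' (fun a : Fin 0 => a.elim0)
        (Sum.elim col' (fun a => a.elim0)) y =
        (Matrix.of fun j c : Fin (2 * d - 2) ⊕ Nr π =>
          fderiv ℂ (Es S π j) y (Pi.single (col' c) 1)).submatrix
          (Equiv.sumEmpty (Fin (2 * d - 2) ⊕ Nr π) (Fin 0))
          (Equiv.sumEmpty (Fin (2 * d - 2) ⊕ Nr π) (Fin 0)) := by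
      ext a c
      rcases a with a | a
      · rcases c with c | c
        · rfl
        · exact c.elim0
      · exact a.elim0
    rw [e1, Matrix.det_submatrix_equiv_self]
    exact hcol'

end Pool.Agent.H207.CS
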