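import Mathlib
import Pool.Agent.H207.CS.Defs
import Pool.Graph.R_seed8.W757.RD.TTRF

/-! Project CS: good configurations in a stratum do not depend on the extension (adapted from
`Pool.Agent.W757.RD.TRF`). -/

set_option autoImplicit false

open Topology Filter Metric Set MeasureTheory
open Pool.Agent.H790R3.RB (CV hF cr ND wr rt Ix yx yc hF_iter_smul)
open Pool.Agent.W757.RD
open Pool.Agent.W757.RD.TRF

namespace Pool.Agent.H207.CS

theorem trf (hLAM : StLAM) (hADO : StADO) {d s : ℕ}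
    {S₁ S₂ : Pool.Agent.W757.RD.Sys d (2 * d + s) s} (π : Pat (2 * d - 2)) (h₁ : Ext S₁)
    (h₂ : Ext S₂) (hp : S₁.per = S₂.per) {q₁ q₂ : Fin (2 * d + s) → ℂ} (m1 : q₁ ∈ S₁.U)
    (m2 : q₂ ∈ S₂.U) (hx : xp q₁ = xp q₂) (hb : ∀ k, S₁.b k q₁ = S₂.b k q₂)
    {KK₁ KK₂ : Fin s → (Fin (2 * d + s) → ℂ) × (ℂ × ℂ) → ℂ}
    {A : Finset (Pt d)} {ks : Pt d → Fin s} {ls : Pt d → ℕ} {R : ℕ}
    {y₁ y₂ : Ix d (2 * d + s) s → ℂ} (hK₁ : S₁.Koe KK₁) (hK₂ : S₂.Koe KK₂) (hy₁ : yx y₁ = q₁)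
    (hy₂ : yx y₂ = q₂) (hyc : yc y₁ = yc y₂) (hyk : ys y₁ = ys y₂)
    (hG : GoodP S₁ π KK₁ (ee S₁) A ks ls R y₁) : GoodP S₂ π KK₂ (ee S₂) A ks ls R y₂ := by
  have hcmp : Cmp S₁ S₂ q₁ q₂ := cmp_ext h₁ h₂ m1 m2 hx hb
  have hnear := cmp_near h₁ h₂ hp m1 m2 hx hb
  -- translation of the unknowns
  have hyx : ∀ (y h : Ix d (2 * d + s) s → ℂ), yx (y + h) = yx y + yx h := fun y h => rfl
  have hyc' : ∀ (y h : Ix d (2 * d + s) s → ℂ) i, yc (y + h) i = yc y i + yc h i := fun y h i => rfl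
  have hyxc : Tendsto (fun h : Ix d (2 * d + s) s → ℂ => yx h) (𝓝 0) (𝓝 0) := by
    have : Continuous (fun h : Ix d (2 * d + s) s → ℂ => yx h) := by
      unfold yx
      fun_prop
    exact this.tendsto 0
  have hnear' : ∀ᶠ h in 𝓝 (0 : Ix d (2 * d + s) s → ℂ), Cmp S₁ S₂ (yx (y₁ + h)) (yx (y₂ + h)) := by
    filter_upwards [hyxc.eventually hnear] with h hh
    rw [hyx, hyx, hy₁, hy₂]
    exact hh
  have hyce : ∀ h i, yc (y₁ + h) i = yc (y₂ + h) i := by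
    intro h i
    rw [hyc', hyc', hyc]
  have hpce : ∀ h i, pc (y₁ + h) i = pc (y₂ + h) i := by
    intro h i
    cases i with
    | inl i => exact hyce h i
    | inr j => rfl
  have hyke : ∀ h k, ys (y₁ + h) k = ys (y₂ + h) k := by
    intro h k
    have h1 := congrFun hyk k
    simp only [ys, Pi.add_apply] at h1 ⊢
    rw [h1]
  obtain ⟨hAdm, hok, hsat, sel, col, hdet⟩ := hG
  have hEr : ∀ u₁ u₂, Cmp S₁ S₂ (yx u₁) (yx u₂) → (∀ i, yc u₁ i = yc u₂ i) → ∀ j,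
      S₁.Er j u₁ = S₂.Er j u₂ := by
    intro u₁ u₂ hc hyy j
    unfold Pool.Agent.W757.RD.Sys.Er
    rw [hc.co]
    simp only [hyy]
  have hExx : ∀ u₁ u₂, Cmp S₁ S₂ (yx u₁) (yx u₂) → (∀ i, yc u₁ i = yc u₂ i) → ∀ j,
      Ex S₁ π j u₁ = Ex S₂ π j u₂ := by
    intro u₁ u₂ hc hyy j
    unfold Ex
    rw [hc.F_eq]
    simp only [hyy]
  have hcmpy : Cmp S₁ S₂ (yx y₁) (yx y₂) := by rw [hy₁, hy₂]; exact hcmp
  -- the attracted critical points stay attracted
  obtain ⟨O, hOo, hOe, -⟩ := hADO d (2 * d + s) s 0 S₁ KK₁ (fun i => i.elim0) A ks ls hK₁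
    (fun i => i.elim0)
  have hy₁O : y₁ ∈ O := by
    rw [hOe]
    exact ⟨hAdm.xU, hAdm.lam0, hAdm.att⟩
  have hatt : ∀ᶠ h in 𝓝 (0 : Ix d (2 * d + s) s → ℂ), ∀ i ∈ A,
      (yx (y₁ + h), (S₁.F (yx (y₁ + h)))^[ls i] (pc (y₁ + h) i, 1)) ∈ S₁.Dom (ks i) := by
    have t1 : Tendsto (fun h : Ix d (2 * d + s) s → ℂ => y₁ + h) (𝓝 0) (𝓝 y₁) := by
      have : Continuous (fun h : Ix d (2 * d + s) s → ℂ => y₁ + h) := by fun_prop
      have h := this.tendsto 0
      rwa [add_zero] at h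
    filter_upwards [t1.eventually (hOo.mem_nhds hy₁O)] with h hh
    rw [hOe] at hh
    exact hh.2.2
  refine ⟨⟨?_, ?_, ?_, ?_, ?_, ?_⟩, ?_, hsat, sel, col, ?_⟩
  · rw [hy₂]; exact m2
  · intro k
    rw [← hcmpy.lam_eq hp]
    exact hAdm.lam0 k
  · intro k
    rw [← hyk]; exact hAdm.kap0 k
  · intro j
    rw [← hEr y₁ y₂ hcmpy (fun i => by rw [hyc]) j]
    exact hAdm.crit j
  · intro i hi
    rw [← hp]; exact hAdm.lsp i hi
  · intro i hi
    have h1 := hcmpy.Dom_sub hLAM hp (hAdm.att i hi)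
    have h2 : pc y₁ i = pc y₂ i := by
      have := hpce 0 i
      rwa [add_zero, add_zero] at this
    rw [hcmpy.F_eq, h2] at h1
    exact h1
  · intro j
    rw [← hExx y₁ y₂ hcmpy (fun i => by rw [hyc]) j]
    exact hok j
  · have hM : MxP S₁ π KK₁ (ee S₁) (Bs π A) ks ls sel col y₁ =
        MxP S₂ π KK₂ (ee S₂) (Bs π A) ks ls sel col y₂ := by
      have f1 : ∀ j, fderiv ℂ (Es S₁ π j) y₁ = fderiv ℂ (Es S₂ π j) y₂ := by
        intro j
        refine fderiv_eq _ _ y₁ y₂ 0 ?_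
        filter_upwards [hnear'] with h hh
        rw [add_zero]
        rcases j with j | j
        · exact hEr _ _ hh (hyce h) j
        · exact hExx _ _ hh (hyce h) j
      have f2 : ∀ a, fderiv ℂ (S₁.Gr KK₁ (ee S₁) (Bs π A) ks ls a) y₁ =
          fderiv ℂ (S₂.Gr KK₂ (ee S₂) (Bs π A) ks ls a) y₂ := by
        intro a
        rcases a with k | k | i
        · refine fderiv_eq _ _ y₁ y₂ (bp q₁ k - bp q₂ k) ?_
          filter_upwards [hnear'] with h hh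
          have h1 : bp (yx (y₁ + h)) k = bp q₁ k + bp (yx h) k := by
            rw [hyx, bp_add, hy₁]
          have h2 : bp (yx (y₂ + h)) k = bp q₂ k + bp (yx h) k := by
            rw [hyx, bp_add, hy₂]
          simp only [Pool.Agent.W757.RD.Sys.Gr, ee]
          rw [h1, h2, hh.b k]
          ring
        · refine fderiv_eq _ _ y₁ y₂ 0 ?_
          filter_upwards [hnear'] with h hh
          simp only [Pool.Agent.W757.RD.Sys.Gr, add_zero]
          exact hh.lam_eq hp k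
        · refine fderiv_eq _ _ y₁ y₂ 0 ?_
          filter_upwards [hnear', hatt] with h hh hha
          simp only [Pool.Agent.W757.RD.Sys.Gr, add_zero]
          rw [hh.KK_eq hLAM hK₁ hK₂ hp (hha i.1 (Bs_sub π A i.2)), hh.F_eq, hpce, hyke]
      ext a c
      simp only [MxP, Matrix.of_apply]
      rcases a with j | i
      · simp only [f1]
      · simp only [f2]
    rw [← hM]
    exact hdet

end Pool.Agent.H207.CS
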