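import Mathlib
import Pool.Agent.H207.CS.Minp
import Pool.Agent.H207.CS.Trf
import Pool.Graph.R_seed8.W757.RD.TSEL

/-! Project CS: the distance to the hyperbolic maps inside a stratum of the universal family
(adapted from `Pool.Agent.W757.RD.SEL`). -/

set_option autoImplicit false
set_option linter.style.haveILetI false

open Topology Filter Metric Set MeasureTheory
open Pool.Agent.H790R3.RB (CV hF cr ND wr rt Ix yx yc sp HypTop Attd Sink)
open Pool.Agent.W757.RD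
open Pool.Agent.W757.RD.SEL (mk_of)
open scoped OnePoint

namespace Pool.Agent.H207.CS

/-- labelled critical points with the coincidences of a pattern -/
structure Lab {d : ℕ} (π : Pat (2 * d - 2)) (u : Fin (2 * d) → ℂ) (c : Fin (2 * d - 2) → ℂ) :
    Prop where
  crit : ∀ ζ : ℂ, wr (fam u) (ζ, 1) = wr (fam u) (1, 0) * ∏ i, (ζ - c i)
  p1 : ∀ i, c i = c (π.p1 i)
  p2 : ∀ i, cr (hF (fam u) (c i, 1)) (hF (fam u) (c (π.p2 i), 1)) = 0

/-- labelled critical points with exactly the coincidences of a pattern -/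
structure Exa {d : ℕ} (π : Pat (2 * d - 2)) (u : Fin (2 * d) → ℂ) (c : Fin (2 * d - 2) → ℂ) :
    Prop extends Lab π u c where
  q1 : ∀ i j, c i = c j → π.p1 i = π.p1 j
  q2 : ∀ i j, cr (hF (fam u) (c i, 1)) (hF (fam u) (c j, 1)) = 0 → π.p2 i = π.p2 j

/-- Good configurations in a stratum near a map for which infinity is not attracting and the base
points are attracted. -/
def PSTART : Prop :=
  ∀ (β : ℝ) (d : ℕ) (u₁ : Fin (2 * d) → ℂ) (π : Pat (2 * d - 2)) (c₁ : Fin (2 * d - 2) → ℂ),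
    1 / 2 < β → β < 1 → 2 ≤ d → u₁ ∈ U₀ d →
    (∀ p : ℕ, ¬ Sink (sp (fam u₁)) p ∞) →
    (∀ j : Fin 2, Attd (sp (fam u₁)) ((bz j : ℂ) : OnePoint ℂ)) → Exa π u₁ c₁ →
    ∀ ε : ℝ, 0 < ε → ∃ (s : ℕ) (S : Sys d (2 * d + s) s)
      (KK : Fin s → (Fin (2 * d + s) → ℂ) × (ℂ × ℂ) → ℂ) (ks : Pt d → Fin s) (ls : Pt d → ℕ)
      (y : Ix d (2 * d + s) s → ℂ),
      Ext S ∧ S.Koe KK ∧ ‖xp (yx y) - u₁‖ < ε ∧
      mu β (S.KS (yx y)) ≤ mu β {ζ : ℂ | ¬ Attd (sp (fam u₁)) (ζ : OnePoint ℂ)} +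
        ENNReal.ofReal ε ∧
      GoodP S π KK (ee S) {Sum.inr 0, Sum.inr 1} ks ls 0 y

/-- The distance to the hyperbolic maps inside a stratum of the universal family. -/
def PSEL : Prop :=
  ∀ (β : ℝ) (d : ℕ) (u₀ : Fin (2 * d) → ℂ), 1 / 2 < β → β < 1 → 2 ≤ d → u₀ ∈ U₀ d →
    Gz (fam u₀) → ∃ C₂ ε₂ σ₂ : ℝ, 0 < C₂ ∧ 0 < ε₂ ∧ 0 < σ₂ ∧
    ∀ u₁ : Fin (2 * d) → ℂ, ‖u₁ - u₀‖ < σ₂ → (∀ p : ℕ, ¬ Sink (sp (fam u₁)) p ∞) →
      (∀ j : Fin 2, Attd (sp (fam u₁)) ((bz j : ℂ) : OnePoint ℂ)) →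
      ∀ (π : Pat (2 * d - 2)) (c₁ : Fin (2 * d - 2) → ℂ), Exa π u₁ c₁ →
      ∀ a : ℝ, 0 ≤ a → a < ε₂ →
      mu β {ζ : ℂ | ¬ Attd (sp (fam u₁)) (ζ : OnePoint ℂ)} ≤ ENNReal.ofReal a →
      ∀ η : ℝ, 0 < η → ∃ (u : Fin (2 * d) → ℂ) (c : Fin (2 * d - 2) → ℂ),
        ‖u - u₁‖ ≤ C₂ * Real.sqrt a + η ∧ u ∈ U₀ d ∧ HypTop (sp (fam u)) ∧ Lab π u c

theorem sel_inj {d n s l : ℕ} {S : Sys d n s} {π : Pat (2 * d - 2)}
    {KK : Fin s → (Fin n → ℂ) × (ℂ × ℂ) → ℂ}
    {e : Fin l → (Fin n → ℂ) → ℂ} {B : Finset (Pt d)}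
    {ks : Pt d → Fin s} {ls : Pt d → ℕ} {R : ℕ}
    {y : Ix d n s → ℂ} (sel : Fin R → Sys.Rw l d s B)
    (col : (Fin (2 * d - 2) ⊕ Nr π) ⊕ Fin R → Ix d n s)
    (h : (MxP S π KK e B ks ls sel col y).det ≠ 0) :
    Function.Injective sel := by
  intro i i' hii
  by_contra hne
  apply h
  have hne' : (Sum.inr i : (Fin (2 * d - 2) ⊕ Nr π) ⊕ Fin R) ≠ Sum.inr i' :=
    fun h => hne (Sum.inr_injective h)
  refine Matrix.det_zero_of_row_eq hne' ?_
  funext c
  simp only [MxP, Matrix.of_apply]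
  rw [hii]

theorem R_le {d n s l : ℕ} {S : Sys d n s} {π : Pat (2 * d - 2)}
    {KK : Fin s → (Fin n → ℂ) × (ℂ × ℂ) → ℂ}
    {e : Fin l → (Fin n → ℂ) → ℂ} {A : Finset (Pt d)}
    {ks : Pt d → Fin s} {ls : Pt d → ℕ} {R : ℕ}
    {y : Ix d n s → ℂ} (h : GoodP S π KK e A ks ls R y) :
    R ≤ l + (s + (Bs π A).card) := by
  obtain ⟨-, -, -, sel, col, h⟩ := h
  have h1 := Fintype.card_le_of_injective sel (sel_inj sel col h)
  simp only [Fintype.card_fin, Fintype.card_sum, Fintype.card_coe] at h1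
  omega

theorem s_le (hNUM : StNUM) (hER : StER) {d n s l : ℕ} {S : Sys d n s} {π : Pat (2 * d - 2)}
    {KK : Fin s → (Fin n → ℂ) × (ℂ × ℂ) → ℂ}
    {e : Fin l → (Fin n → ℂ) → ℂ} {A : Finset (Pt d)}
    {ks : Pt d → Fin s} {ls : Pt d → ℕ} {R : ℕ}
    {y : Ix d n s → ℂ} (h : GoodP S π KK e A ks ls R y) : s ≤ 2 * d - 2 :=
  hNUM d n s S (yx y) h.1.xU h.1.lam0 ⟨yc y, hER d n s S y h.1.crit⟩

theorem card_univ_Bs {d : ℕ} (hd : 2 ≤ d) (π : Pat (2 * d - 2)) :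
    Fintype.card (Nr π) + (Bs π Finset.univ).card = 2 * d := by
  classical
  have h1 : Fintype.card (Nr π) = ((Finset.univ : Finset (Pt d)).filter
      fun i => ¬ rep π i = i).card := by
    rw [← Fintype.card_subtype]
    refine Fintype.card_congr ⟨fun i => ⟨Sum.inl i.1, ?_⟩, fun i => ?_, ?_, ?_⟩
    · intro h
      exact i.2 (Sum.inl_injective h)
    · exact match i with
        | ⟨Sum.inl i, h⟩ => ⟨i, fun h2 => h (by simp only [rep, h2])⟩
        | ⟨Sum.inr j, h⟩ => (h rfl).elim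
    · intro i
      rfl
    · rintro ⟨i | j, h⟩
      · rfl
      · exact (h rfl).elim
  have h2 : (Bs π Finset.univ).card = ((Finset.univ : Finset (Pt d)).filter
      fun i => rep π i = i).card := by
    unfold Bs
    congr
  rw [h1, h2, add_comm]
  have h3 := Finset.card_filter_add_card_filter_not (s := (Finset.univ : Finset (Pt d)))
    (fun i => rep π i = i)
  rw [h3, Finset.card_univ]
  simp only [Fintype.card_sum, Fintype.card_fin]
  omega

theorem card_Bs_le {d : ℕ} (hd : 2 ≤ d) (π : Pat (2 * d - 2)) (A : Finset (Pt d)) :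
    Fintype.card (Nr π) + (Bs π A).card ≤ 2 * d := by
  refine le_trans (Nat.add_le_add_left ?_ _) (card_univ_Bs hd π).le
  apply Finset.card_le_card
  intro i hi
  rw [mem_Bs] at hi ⊢
  exact ⟨Finset.mem_univ _, hi.2⟩

theorem univ_of_card {d s : ℕ} (hd : 2 ≤ d) {π : Pat (2 * d - 2)} {A : Finset (Pt d)}
    {ks : Pt d → Fin s} {ls : Pt d → ℕ} (hS : Sat π A ks ls)
    (h : Fintype.card (Nr π) + (Bs π A).card = 2 * d) : A = Finset.univ := by
  have h1 : Bs π A = Bs π Finset.univ := by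
    apply Finset.eq_of_subset_of_card_le
    · intro i hi
      rw [mem_Bs] at hi ⊢
      exact ⟨Finset.mem_univ _, hi.2⟩
    · have := card_univ_Bs hd π
      omega
  apply Finset.eq_univ_of_forall
  intro i
  rw [← hS.mem]
  have h2 : rep π i ∈ Bs π Finset.univ := mem_Bs.2 ⟨Finset.mem_univ _, rep_rep π i⟩
  rw [← h1] at h2
  exact (mem_Bs.1 h2).1

/-- configurations with potential at least `j` -/
def Cf (d : ℕ) (β : ℝ) (u₁ : Fin (2 * d) → ℂ) (π : Pat (2 * d - 2)) (j : ℕ) (x b : ℝ) : Prop :=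
  ∃ (s : ℕ) (S : Sys d (2 * d + s) s) (KK : Fin s → (Fin (2 * d + s) → ℂ) × (ℂ × ℂ) → ℂ)
    (A : Finset (Pt d)) (ks : Pt d → Fin s)
    (ls : Pt d → ℕ) (R : ℕ) (y : Ix d (2 * d + s) s → ℂ), Ext S ∧ S.Koe KK ∧
    ‖xp (yx y) - u₁‖ ≤ x ∧ mu β (S.KS (yx y)) ≤ ENNReal.ofReal b ∧
    Sum.inr 0 ∈ A ∧ Sum.inr 1 ∈ A ∧
    GoodP S π KK (ee S) A ks ls R y ∧ (Fintype.card (Nr π) + (Bs π A).card = 2 * d ∨
      j ≤ (Bs π A).card * (6 * d) + R)

theorem psel (hSTART : PSTART) (hMARK : StMARK) (hTRF : StTRF) (hADO : StADO) (hMINP : PMINP)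
    (hNUM : StNUM)
    (hALLC : StALLC) (hTOP : StTOP) (hER : StER) (hLAM : StLAM) (hKOE : StKOE) : PSEL := by
  classical
  intro β d u₀ hβ hβ1 hd hu₀ hGz
  obtain ⟨C₁, ε₁, σ₁, hC₁, hε₁, hσ₁, hBU, hmin⟩ := hMINP β d u₀ hβ hβ1 hd hu₀ hGz
  -- one step
  have hstep : ∀ (u₁ : Fin (2 * d) → ℂ) (π : Pat (2 * d - 2)) (j : ℕ) (x b : ℝ), 0 ≤ b → b < ε₁ →
      x + ‖u₁ - u₀‖ < σ₁ / 2 → Cf d β u₁ π j x b → ∀ η : ℝ, 0 < η →
      Cf d β u₁ π (j + 1) (x + (C₁ * Real.sqrt b + η)) (b + η) := by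
    rintro u₁ π j x b hb hbε hx ⟨s, S, KK, A, ks, ls, R, y, h1, h2, h3, h4, hA0, hA1, h5, h6⟩ η hη
    have hsq : 0 ≤ C₁ * Real.sqrt b := mul_nonneg hC₁.le (Real.sqrt_nonneg _)
    by_cases hcard : Fintype.card (Nr π) + (Bs π A).card = 2 * d
    · refine ⟨s, S, KK, A, ks, ls, R, y, h1, h2, by linarith, ?_, hA0, hA1, h5, Or.inl hcard⟩
      exact h4.trans (ENNReal.ofReal_le_ofReal (by linarith))
    have hlt : Fintype.card (Nr π) + (Bs π A).card < 2 * d :=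
      lt_of_le_of_ne (card_Bs_le hd π A) hcard
    have hj : j ≤ (Bs π A).card * (6 * d) + R := h6.resolve_left hcard
    have hq : yx y ∈ S.U := h5.1.xU
    have hMk := mk_of hLAM h1 hq
    have hdist : ‖xp (yx y) - u₀‖ < σ₁ / 2 := by
      have : xp (yx y) - u₀ = (xp (yx y) - u₁) + (u₁ - u₀) := by abel
      rw [this]
      exact lt_of_le_of_lt (norm_add_le _ _) (by linarith)
    obtain ⟨S', q₀, g1, g2, g3, g4, g5, g6, g7⟩ := hMARK d (closedBall u₀ σ₁) hd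
      (isCompact_closedBall _ _) hBU (xp (yx y)) (by
        rw [mem_closedBall, dist_eq_norm]
        linarith) s S.per _ hMk
    obtain ⟨KK', hKK'⟩ := hKOE d (2 * d + s) s S'
    let y' : Ix d (2 * d + s) s → ℂ := Sum.elim q₀ (Sum.elim (yc y) (fun k => ys y k))
    have hyx : yx y' = q₀ := rfl
    have hyc : yc y = yc y' := rfl
    have hyk : ys y = ys y' := rfl
    obtain ⟨t1, t2, t3⟩ := hTRF d s S S' h1 g1 g2.symm (yx y) q₀ hq g3 g4.symm
      (fun k => (g6 k).symm)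
    have hG' : GoodP S' π KK' (ee S') A ks ls R y' :=
      trf hLAM hADO π h1 g1 g2.symm hq g3 g4.symm (fun k => (g6 k).symm) h2 hKK' rfl rfl hyc hyk h5
    obtain ⟨A', ks', ls', z, z1, z2, z3, z3', z4⟩ := hmin s S' π KK' A ks ls R y' g1 hKK'
      (fun k => by rw [hyx, g6, g5]) (by
        rw [hyx]
        exact g7) (by
        rw [hyx, g4]
        exact hdist) b hb hbε (by
        rw [hyx, ← t1]
        exact h4) hG' hA0 hA1 hlt η hη
    have hz : ‖xp (yx z) - u₁‖ ≤ x + (C₁ * Real.sqrt b + η) := by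
      rw [hyx, g4] at z1
      have : xp (yx z) - u₁ = (xp (yx y) - u₁) + (xp (yx z) - xp (yx y)) := by abel
      rw [this]
      exact (norm_add_le _ _).trans (by linarith)
    have hRle := R_le h5
    have hsle := s_le hNUM hER h5
    rcases z4 with ⟨z5, z6⟩ | ⟨z5, z6⟩
    · refine ⟨s, S', KK', A', ks', ls', 0, z, g1, hKK', hz, z2, z3, z3', z6, Or.inr ?_⟩
      have h7 : ((Bs π A).card + 1) * (6 * d) ≤ (Bs π A').card * (6 * d) :=
        Nat.mul_le_mul_right _ z5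
      have h8 : ((Bs π A).card + 1) * (6 * d) = (Bs π A).card * (6 * d) + 6 * d := by ring
      omega
    · refine ⟨s, S', KK', A', ks', ls', R + 1, z, g1, hKK', hz, z2, z3, z3', z6, Or.inr ?_⟩
      rw [z5]
      omega
  -- constants
  set T : ℕ := 2 * d * (6 * d) + 6 * d with hT
  have hT0 : (0 : ℝ) ≤ (T : ℝ) := Nat.cast_nonneg _
  set M : ℝ := T * C₁ with hM
  have hM0 : 0 ≤ M := mul_nonneg hT0 hC₁.le
  set ρ : ℝ := σ₁ / (8 * (M + 1)) with hρ
  have hρ0 : 0 < ρ := by positivity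
  have hMρ : M * ρ < σ₁ / 8 := by
    have h1 : (M + 1) * ρ = σ₁ / 8 := by
      rw [hρ]; field_simp
    linarith
  refine ⟨M + 1, min (ε₁ / 2) (ρ ^ 2), σ₁ / 8, by linarith, lt_min (by linarith) (by positivity),
    by linarith, ?_⟩
  intro u₁ hu₁ hsink hatt π c₁ hc₁ a ha0 ha hmu η hη
  have haε : a < ε₁ / 2 := lt_of_lt_of_le ha (min_le_left _ _)
  have haρ : Real.sqrt a < ρ := by
    rw [Real.sqrt_lt' hρ0]
    exact lt_of_lt_of_le ha (min_le_right _ _)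
  have hu₁U : u₁ ∈ U₀ d := hBU (by
    rw [mem_closedBall, dist_eq_norm]
    linarith)
  -- choice of the small number
  obtain ⟨η', hη'0, hη'1, hη'2⟩ : ∃ η' : ℝ, 0 < η' ∧ (T + 1) * η' + M * Real.sqrt ((T + 1) * η') <
      min η (σ₁ / 8) ∧ (T + 1) * η' < ε₁ / 2 := by
    have hc : Continuous fun t : ℝ => (T + 1) * t + M * Real.sqrt ((T + 1) * t) := by fun_prop
    have h1 : ∀ᶠ t : ℝ in 𝓝 0, (T + 1) * t + M * Real.sqrt ((T + 1) * t) < min η (σ₁ / 8) := by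
      refine (hc.tendsto 0).eventually_lt_const ?_
      simp only [mul_zero, Real.sqrt_zero, add_zero]
      exact lt_min hη (by linarith)
    have hc2 : Continuous fun t : ℝ => ((T : ℝ) + 1) * t := by fun_prop
    have h2 : ∀ᶠ t : ℝ in 𝓝 0, ((T : ℝ) + 1) * t < ε₁ / 2 := by
      refine (hc2.tendsto 0).eventually_lt_const ?_
      simp only [mul_zero]
      linarith
    obtain ⟨t, ⟨ht1, ht2⟩, ht3⟩ := (((h1.and h2).filter_mono nhdsWithin_le_nhds).and
      (self_mem_nhdsWithin : Ioi (0 : ℝ) ∈ 𝓝[>] (0 : ℝ))).exists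
    exact ⟨t, ht3, ht1, ht2⟩
  set b : ℝ := a + (T + 1) * η' with hb
  have hsqb : Real.sqrt b ≤ Real.sqrt a + Real.sqrt ((T + 1) * η') := by
    have hc0 : (0 : ℝ) ≤ (T + 1) * η' := by positivity
    rw [Real.sqrt_le_iff]
    refine ⟨by positivity, ?_⟩
    have e1 := Real.sq_sqrt ha0
    have e2 := Real.sq_sqrt hc0
    have e3 : 0 ≤ Real.sqrt a * Real.sqrt ((T + 1) * η') := by positivity
    rw [hb]
    nlinarith
  have hMb : M * Real.sqrt b ≤ M * Real.sqrt a + M * Real.sqrt ((T + 1) * η') := by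
    rw [← mul_add]
    exact mul_le_mul_of_nonneg_left hsqb hM0
  have hMa : M * Real.sqrt a ≤ M * ρ := mul_le_mul_of_nonneg_left haρ.le hM0
  have hη'3 := lt_of_lt_of_le hη'1 (min_le_left _ _)
  have hη'4 := lt_of_lt_of_le hη'1 (min_le_right _ _)
  -- the induction
  have hind : ∀ j : ℕ, j ≤ T → Cf d β u₁ π j ((j + 1) * η' + j * (C₁ * Real.sqrt b))
      (a + (j + 1) * η') := by
    intro j
    induction j with
    | zero =>
      intro _
      obtain ⟨s, S, KK, ks, ls, y, h1, h2, h3, h4, h5⟩ :=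
        hSTART β d u₁ π c₁ hβ hβ1 hd hu₁U hsink hatt hc₁ η' hη'0
      refine ⟨s, S, KK, {Sum.inr 0, Sum.inr 1}, ks, ls, 0, y, h1, h2, by simpa using h3.le, ?_,
        by simp, by simp, h5, Or.inr (Nat.zero_le _)⟩
      refine h4.trans ?_
      refine (add_le_add_left hmu _).trans ?_
      rw [← ENNReal.ofReal_add ha0 hη'0.le]
      apply ENNReal.ofReal_le_ofReal
      simp
    | succ j ih =>
      intro hj
      have hjT : (j : ℝ) + 1 ≤ T := by exact_mod_cast hj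
      have hj0 : (0 : ℝ) ≤ j := Nat.cast_nonneg _
      have hCf := ih (by omega)
      have hbj : a + (j + 1) * η' ≤ b := by
        rw [hb]
        have : ((j : ℝ) + 1) * η' ≤ (T + 1) * η' :=
          mul_le_mul_of_nonneg_right (by linarith) hη'0.le
        linarith
      have hsb : 0 ≤ C₁ * Real.sqrt b := mul_nonneg hC₁.le (Real.sqrt_nonneg _)
      have h7 := hstep u₁ π j _ _ (by positivity) (by linarith) (by
        have e1 : ((j : ℝ) + 1) * η' ≤ (T + 1) * η' :=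
          mul_le_mul_of_nonneg_right (by linarith) hη'0.le
        have e2 : (j : ℝ) * (C₁ * Real.sqrt b) ≤ T * (C₁ * Real.sqrt b) :=
          mul_le_mul_of_nonneg_right (by linarith) hsb
        have e3 : (T : ℝ) * (C₁ * Real.sqrt b) = M * Real.sqrt b := by rw [hM]; ring
        linarith) hCf η' hη'0
      obtain ⟨s, S, KK, A, ks, ls, R, y, h1, h2, h3, h4, h5⟩ := h7
      refine ⟨s, S, KK, A, ks, ls, R, y, h1, h2, h3.trans ?_, h4.trans ?_, h5⟩
      · have e1 : C₁ * Real.sqrt (a + (j + 1) * η') ≤ C₁ * Real.sqrt b :=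
          mul_le_mul_of_nonneg_left (Real.sqrt_le_sqrt hbj) hC₁.le
        push_cast
        linarith
      · apply ENNReal.ofReal_le_ofReal
        push_cast
        linarith
  obtain ⟨s, S, KK, A, ks, ls, R, y, h1, h2, h3, h4, hA0, hA1, h5, h6⟩ := hind T le_rfl
  have hcard : Fintype.card (Nr π) + (Bs π A).card = 2 * d := by
    by_contra hcard
    have h7 := h6.resolve_left hcard
    have hRle := R_le h5
    have hsle := s_le hNUM hER h5
    have hlt : (Bs π A).card + 1 ≤ 2 * d := by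
      have := card_Bs_le hd π A
      omega
    have h8 : ((Bs π A).card + 1) * (6 * d) ≤ (2 * d) * (6 * d) := Nat.mul_le_mul_right _ hlt
    have h9 : ((Bs π A).card + 1) * (6 * d) = (Bs π A).card * (6 * d) + 6 * d := by ring
    omega
  have hA : A = Finset.univ := univ_of_card hd h5.2.2.1 hcard
  subst hA
  have hq : yx y ∈ S.U := h5.1.xU
  refine ⟨xp (yx y), yc y, ?_, h1.U _ hq, ?_, ?_⟩
  · refine h3.trans ?_
    have e3 : (T : ℝ) * (C₁ * Real.sqrt b) = M * Real.sqrt b := by rw [hM]; ring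
    have := Real.sqrt_nonneg a
    linarith
  · rw [← h1.co _ hq]
    exact hTOP d (2 * d + s) s S (yx y) hq (hALLC d (2 * d + s) s S ks ls y h5.1)
  · refine ⟨?_, fun i => ok_p1 h5.2.1 i, fun i => ?_⟩
    · rw [← h1.co _ hq]
      exact hER d (2 * d + s) s S y h5.1.crit
    · have h7 := ok_p2 h5.2.1 i
      unfold Sys.F at h7
      rw [h1.co _ hq] at h7
      exact h7

end Pool.Agent.H207.CS
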