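import Mathlib
import Pool.Agent.H207.CS.Sel
import Pool.Graph.R_seed8.H790R3.RB.TCJ
import Pool.Graph.R_seed8.W364.NM.Lin
import Pool.Graph.R_seed8.W364.RENM

/-! Project CS: critical points on the sphere and changes of coordinates. -/

set_option autoImplicit false

open Topology Filter Metric Set Polynomial
open Pool.Agent.H790R3.RB (CV hF cr ND wr sp pr hc pol HypTop Attd Sink cr_eq_zero_iff cr_smul_left
  cr_smul_right cr_self cr_comm cr_trans hF_smul)
open Pool.Agent.H790R3.RB.PQ (pol_coeff hF_one)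
open Pool.Agent.W757.RD
open Pool.Agent.W364.NM (ap ad dt ap_smul ap_ad ad_ap ap_eq_zero ap_ne cr_ap wr_conj sp_pr exists_pr
  pr_csmul vne)
open scoped OnePoint

namespace Pool.Agent.H207.CS

theorem pr_hc (z : OnePoint ℂ) : pr (hc z) = z := by
  induction z using OnePoint.rec with
  | infty => simp [pr, hc]
  | coe z => simp [pr, hc]

theorem hc_ne (z : OnePoint ℂ) : hc z ≠ 0 := by
  induction z using OnePoint.rec with
  | infty => simp [hc]
  | coe z =>
    intro h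
    have := congrArg Prod.snd h
    simp [hc] at this

theorem pr_eq_iff {p q : ℂ × ℂ} (hp : p ≠ 0) (hq : q ≠ 0) : pr p = pr q ↔ cr p q = 0 := by
  have h : ND (fun r : Fin 2 × Fin 2 => if (r.1 : ℕ) + (r.2 : ℕ) = 1 then (1 : ℂ) else 0 : CV 1) := by
    intro p hp
    have h1 := congrArg Prod.fst hp
    have h2 := congrArg Prod.snd hp
    simp [hF] at h1 h2
    exact Prod.ext h1 h2
  exact (Pool.Agent.H790R3.RB.SP 1 _ le_rfl h).2.2.1 p q hp hq

/-- proportional maps -/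
theorem unq {d : ℕ} (hd : 1 ≤ d) {x y : CV d} (hx : ND x) (hy : ND y)
    (h : ∀ p, cr (hF x p) (hF y p) = 0) : ∃ c : ℂ, c ≠ 0 ∧ ∀ p, hF y p = c • hF x p := by
  obtain ⟨h1, h2⟩ := Pool.Agent.H790R3.RB.PQ.part1 hd x hx
  obtain ⟨h3, h4⟩ := Pool.Agent.H790R3.RB.PQ.part1 hd y hy
  have h5 : pol x 0 * pol y 1 = pol x 1 * pol y 0 := by
    apply Polynomial.funext
    intro z
    have := h (z, 1)
    rw [hF_one, hF_one] at this
    unfold cr at this
    simp only at this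
    rw [eval_mul, eval_mul]
    linear_combination this
  have hP0 : pol x 0 ≠ 0 := by
    intro h0
    rw [h0] at h1 h2
    have hu : IsUnit (pol x 1) := isCoprime_zero_left.1 h1
    have := natDegree_eq_zero_of_isUnit hu
    rw [natDegree_zero, this] at h2
    simp at h2
    omega
  obtain ⟨a, ha⟩ : pol x 0 ∣ pol y 0 := by
    have : pol x 0 ∣ pol x 1 * pol y 0 := ⟨pol y 1, h5.symm⟩
    exact h1.dvd_of_dvd_mul_left this
  have hb : pol y 1 = pol x 1 * a := by
    apply mul_left_cancel₀ hP0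
    rw [h5, ha]
    ring
  have hu : IsUnit a := by
    rw [ha, hb] at h3
    exact (IsCoprime.of_mul_left_right h3).of_mul_right_right.isUnit_of_dvd' dvd_rfl dvd_rfl
  obtain ⟨c, hc, hca⟩ := Polynomial.isUnit_iff.1 hu
  refine ⟨c, hc.ne_zero, ?_⟩
  have hy' : y = c • x := by
    have e : ∀ i, pol y i = C c * pol x i := by
      intro i
      fin_cases i
      · change pol y 0 = C c * pol x 0
        rw [ha, ← hca, mul_comm]
      · change pol y 1 = C c * pol x 1
        rw [hb, ← hca, mul_comm]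
    funext r
    obtain ⟨i, j⟩ := r
    have e1 := pol_coeff y i j
    have e2 := pol_coeff x i j
    rw [e i, coeff_C_mul, e2] at e1
    exact e1.symm
  intro p
  rw [hy', Pool.Agent.W364.NM.hF_csmul]

/-- conjugate maps of the sphere are conjugate by linear maps -/
theorem conj_rel {d : ℕ} (hd : 2 ≤ d) {x y : CV d} (hx : ND x) (hy : ND y)
    {m : (ℂ × ℂ) × (ℂ × ℂ)} (hm : dt m ≠ 0) (H : OnePoint ℂ → OnePoint ℂ)
    (hH : ∀ p : ℂ × ℂ, p ≠ 0 → H (pr p) = pr (ap m p)) (h : ∀ z, H (sp x z) = sp y (H z)) :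
    ∃ c : ℂ, c ≠ 0 ∧ ∀ p, hF y (ap m p) = c • ap m (hF x p) := by
  have hd1 : 1 ≤ d := by omega
  obtain ⟨cj, -, -, -, -, hcj0⟩ := Pool.Agent.H790R3.RB.CJ d
  have hcj : ∀ m x p, hF (cj m x) p = ap m (hF x (ap (ad m) p)) := by
    intro m x p
    rw [hcj0]
    have e : ((m.2.2 * p.1 - m.1.2 * p.2, m.1.1 * p.2 - m.2.1 * p.1) : ℂ × ℂ) = ap (ad m) p := by
      apply Prod.ext
      · simp only [ap, ad]; ring
      · simp only [ap, ad]; ring
    rw [e]
    rfl
  have hdtad : dt (ad m) ≠ 0 := by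
    have : dt (ad m) = dt m := by simp only [dt, ad]; ring
    rw [this]
    exact hm
  set y' := cj (ad m) y with hy'
  have hy'F : ∀ p, hF y' p = ap (ad m) (hF y (ap m p)) := by
    intro p
    rw [hy', hcj, Pool.Agent.W364.NM.ad_ad]
  have hND : ND y' := by
    intro p hp
    rw [hy'F] at hp
    exact ap_eq_zero hm (hy _ (ap_eq_zero hdtad hp))
  obtain ⟨c, hc, h1⟩ := unq hd1 hx hND (by
    intro p
    by_cases hp : p = 0
    · have : hF x 0 = 0 := by
        have := hF_smul x 0 0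
        rw [zero_smul, zero_pow (by omega), zero_smul] at this
        exact this
      rw [hp, this]
      unfold cr
      simp
    · have e1 : hF x p ≠ 0 := fun h => hp (hx p h)
      have e2 : hF y (ap m p) ≠ 0 := fun h => (ap_ne hm hp) (hy _ h)
      have e3 : pr (ap m (hF x p)) = pr (hF y (ap m p)) := by
        rw [← hH _ e1, ← sp_pr hd1 hx hp, h, hH _ hp, sp_pr hd1 hy (ap_ne hm hp)]
      have e4 := (pr_eq_iff (ap_ne hm e1) e2).1 e3
      have e5 := cr_ap (ad m) (ap m (hF x p)) (hF y (ap m p))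
      rw [e4, mul_zero, ap_ad, cr_smul_left, ← hy'F] at e5
      exact (mul_eq_zero.1 e5).resolve_left hm)
  refine ⟨c * (dt m)⁻¹, mul_ne_zero hc (inv_ne_zero hm), ?_⟩
  intro p
  have e1 := congrArg (ap m) (h1 p)
  rw [hy'F, ad_ap, ap_smul] at e1
  have e2 : hF y (ap m p) = (dt m)⁻¹ • (dt m • hF y (ap m p)) := by
    rw [smul_smul, inv_mul_cancel₀ hm, one_smul]
  rw [e2, e1, smul_smul, mul_comm]

/-- `c` lists the critical points with their multiplicities. -/
def HC {d : ℕ} (x : CV d) (c : Fin (2 * d - 2) → OnePoint ℂ) : Prop :=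
  ∃ K : ℂ, K ≠ 0 ∧ ∀ p, wr x p = K * ∏ i, cr p (hc (c i))

/-- critical points of conjugate maps -/
theorem hc_map {d : ℕ} (hd : 2 ≤ d) {x y : CV d} (hx : ND x) (hy : ND y)
    {m : (ℂ × ℂ) × (ℂ × ℂ)} (hm : dt m ≠ 0) (H : OnePoint ℂ → OnePoint ℂ)
    (hH : ∀ p : ℂ × ℂ, p ≠ 0 → H (pr p) = pr (ap m p)) (h : ∀ z, H (sp x z) = sp y (H z))
    {c : Fin (2 * d - 2) → OnePoint ℂ} (hc' : HC x c) : HC y (fun i => H (c i)) := by
  obtain ⟨c₀, hc₀, hrel⟩ := conj_rel hd hx hy hm H hH h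
  obtain ⟨K, hK, hw⟩ := hc'
  have hv : ∀ i, ∃ a : ℂ, a ≠ 0 ∧ ap m (hc (c i)) = a • hc (H (c i)) := by
    intro i
    have h1 : ap m (hc (c i)) ≠ 0 := ap_ne hm (hc_ne _)
    have h2 : pr (ap m (hc (c i))) = pr (hc (H (c i))) := by
      rw [← hH _ (hc_ne _), pr_hc, pr_hc]
    obtain ⟨a, ha, h3⟩ := (cr_eq_zero_iff h1 (hc_ne _)).1 ((pr_eq_iff h1 (hc_ne _)).1 h2)
    exact ⟨a, ha, h3⟩
  choose a ha hva using hv
  have key : ∀ p, wr y (ap m p) = c₀ ^ 2 * K * ((dt m)⁻¹ ^ (2 * d - 2) * ∏ i, a i) *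
      ∏ i, cr (ap m p) (hc (H (c i))) := by
    intro p
    rw [wr_conj hd hm hrel, hw]
    have e1 : ∀ i, cr p (hc (c i)) = (dt m)⁻¹ * (a i * cr (ap m p) (hc (H (c i)))) := by
      intro i
      rw [← cr_smul_right, ← hva, cr_ap, inv_mul_cancel_left₀ hm]
    rw [Finset.prod_congr rfl (fun i _ => e1 i), Finset.prod_mul_distrib, Finset.prod_mul_distrib,
      Finset.prod_const, Finset.card_univ, Fintype.card_fin]
    ring
  refine ⟨c₀ ^ 2 * K * ((dt m)⁻¹ ^ (2 * d - 2) * ∏ i, a i), ?_, ?_⟩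
  · refine mul_ne_zero (mul_ne_zero (pow_ne_zero _ hc₀) hK)
      (mul_ne_zero (pow_ne_zero _ (inv_ne_zero hm)) ?_)
    exact Finset.prod_ne_zero_iff.2 fun i _ => ha i
  · intro p
    have h1 := key (ap (ad m) ((dt m)⁻¹ • p))
    rw [ad_ap, smul_smul, mul_inv_cancel₀ hm, one_smul] at h1
    exact h1

/-- affine critical points of members of the universal family -/
theorem hc_fam {d : ℕ} {u : Fin (2 * d) → ℂ} (hu : wr (fam u) (1, 0) ≠ 0)
    {c : Fin (2 * d - 2) → OnePoint ℂ} (h : HC (fam u) c) :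
    ∃ γ : Fin (2 * d - 2) → ℂ, (∀ i, c i = (γ i : OnePoint ℂ)) ∧
      ∀ ζ : ℂ, wr (fam u) (ζ, 1) = wr (fam u) (1, 0) * ∏ i, (ζ - γ i) := by
  obtain ⟨K, hK, hw⟩ := h
  have h1 : ∀ i, c i ≠ ∞ := by
    intro i hi
    apply hu
    rw [hw]
    apply mul_eq_zero_of_right
    refine Finset.prod_eq_zero (Finset.mem_univ i) ?_
    rw [hi]
    exact cr_self _
  have h2 : ∀ i, ∃ z : ℂ, c i = (z : OnePoint ℂ) := by
    intro i
    obtain ⟨z, hz⟩ := OnePoint.ne_infty_iff_exists.1 (h1 i)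
    exact ⟨z, hz.symm⟩
  choose γ hγ using h2
  have h3 : wr (fam u) (1, 0) = K := by
    rw [hw, Finset.prod_eq_one, mul_one]
    intro i _
    rw [hγ]
    simp [cr, hc]
  refine ⟨γ, hγ, ?_⟩
  intro ζ
  rw [h3, hw]
  congr 1
  refine Finset.prod_congr rfl fun i _ => ?_
  rw [hγ]
  simp [cr, hc]

theorem fam_hc {d : ℕ} (hd : 2 ≤ d) {u : Fin (2 * d) → ℂ} (hu : wr (fam u) (1, 0) ≠ 0)
    {γ : Fin (2 * d - 2) → ℂ}
    (h : ∀ ζ : ℂ, wr (fam u) (ζ, 1) = wr (fam u) (1, 0) * ∏ i, (ζ - γ i)) :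
    HC (fam u) (fun i => (γ i : OnePoint ℂ)) := by
  refine ⟨wr (fam u) (1, 0), hu, ?_⟩
  intro p
  by_cases hp : p.2 = 0
  · have e : p = p.1 • ((1, 0) : ℂ × ℂ) := by ext <;> simp [hp]
    rw [e, (Pool.Agent.H790R3.RB.WR d (fam u) hd).1, mul_comm]
    congr 1
    rw [Finset.prod_congr rfl (g := fun _ => p.1), Finset.prod_const, Finset.card_univ,
      Fintype.card_fin]
    intro i _
    rw [cr_smul_left]
    simp [cr, hc]
  · have e : p = p.2 • ((p.1 / p.2, 1) : ℂ × ℂ) := by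
      ext
      · simp [mul_div_cancel₀ _ hp]
      · simp
    rw [e, (Pool.Agent.H790R3.RB.WR d (fam u) hd).1, h]
    have e2 : ∀ i, cr (p.2 • ((p.1 / p.2, 1) : ℂ × ℂ)) (hc (γ i : OnePoint ℂ)) =
        p.2 * (p.1 / p.2 - γ i) := by
      intro i
      rw [cr_smul_left]
      simp [cr, hc]
    rw [Finset.prod_congr rfl (fun i _ => e2 i), Finset.prod_mul_distrib, Finset.prod_const,
      Finset.card_univ, Fintype.card_fin]
    ring

/-- patterns of given coincidences -/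
theorem pat_of {n : ℕ} {α β : Type} (a : Fin n → α) (b : Fin n → β)
    (h : ∀ i j, a i = a j → b i = b j) :
    ∃ π : Pat n, (∀ i j, a i = a j ↔ π.p1 i = π.p1 j) ∧ ∀ i j, b i = b j ↔ π.p2 i = π.p2 j := by
  classical
  have gen : ∀ {γ : Type} (a : Fin n → γ), ∃ p : Fin n → Fin n, (∀ i, a (p i) = a i) ∧
      ∀ i j, a j = a i → p i ≤ j := by
    intro γ a
    have h1 : ∀ i, ∃ k, a k = a i ∧ ∀ j, a j = a i → k ≤ j := by
      intro i
      have hne : (Finset.univ.filter (fun j => a j = a i)).Nonempty := ⟨i, by simp⟩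
      refine ⟨(Finset.univ.filter (fun j => a j = a i)).min' hne, ?_, ?_⟩
      · have := Finset.min'_mem _ hne
        rw [Finset.mem_filter] at this
        exact this.2
      · intro j hj
        exact Finset.min'_le _ _ (by simp [hj])
    choose p hp1 hp2 using h1
    exact ⟨p, hp1, hp2⟩
  obtain ⟨p, hp1, hp2⟩ := gen a
  obtain ⟨r, hr1, hr2⟩ := gen b
  have hp3 : ∀ i j, a i = a j → p i = p j := by
    intro i j hij
    apply le_antisymm
    · exact hp2 i _ (by rw [hp1, hij])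
    · exact hp2 j _ (by rw [hp1, hij])
  have hr3 : ∀ i j, b i = b j → r i = r j := by
    intro i j hij
    apply le_antisymm
    · exact hr2 i _ (by rw [hr1, hij])
    · exact hr2 j _ (by rw [hr1, hij])
  refine ⟨⟨p, r, ?_, ?_, ?_, ?_⟩, ?_, ?_⟩
  · intro i
    exact hp3 _ _ (hp1 i)
  · intro i
    exact hr3 _ _ (hr1 i)
  · intro i
    exact hr3 _ _ (h _ _ (hp1 i))
  · intro i
    apply le_antisymm
    · exact hp2 _ _ rfl
    · refine hr2 i _ ?_
      rw [h _ _ (hp1 (r i)), hr1]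
  · intro i j
    refine ⟨hp3 i j, fun h1 => ?_⟩
    have h2 : p i = p j := h1
    rw [← hp1 i, h2, hp1]
  · intro i j
    refine ⟨hr3 i j, fun h1 => ?_⟩
    have h2 : r i = r j := h1
    rw [← hr1 i, h2, hr1]

end Pool.Agent.H207.CS
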