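import Mathlib
import Pool.Agent.H207.CS.Conj

/-! Project CS: convergence of the critical points. -/

set_option autoImplicit false

open Topology Filter Metric Set Polynomial
open Pool.Agent.H790R3.RB (CV hF cr ND wr sp pr hc pol HypTop cr_smul_left cr_smul_right cr_self
  hF_smul hF_contDiff wr_contDiff)
open Pool.Agent.W364.NM (sp_pr pr_csmul vne)
open scoped OnePoint

namespace Pool.Agent.H207.CS

/-- local lifts to homogeneous coordinates -/
noncomputable def lf (z₀ z : OnePoint ℂ) : ℂ × ℂ :=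
  match z₀ with
  | none => match z with
    | none => (1, 0)
    | some z => (1, z⁻¹)
  | some _ => hc z

theorem hc_coe (z : ℂ) : hc (z : OnePoint ℂ) = (z, 1) := rfl

theorem hc_inf : hc (∞ : OnePoint ℂ) = (1, 0) := rfl

theorem lf_tendsto (z₀ : OnePoint ℂ) : Tendsto (lf z₀) (𝓝 z₀) (𝓝 (hc z₀)) := by
  induction z₀ using OnePoint.rec with
  | infty =>
    have h : ContinuousAt (lf ∞) ∞ := by
      rw [OnePoint.continuousAt_infty', coclosedCompact_eq_cocompact, ← cobounded_eq_cocompact]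
      have e1 : (lf ∞ ∘ ((↑) : ℂ → OnePoint ℂ)) = fun z : ℂ => ((1 : ℂ), z⁻¹) := by
        funext z
        rfl
      have e2 : lf ∞ (∞ : OnePoint ℂ) = ((1 : ℂ), (0 : ℂ)) := rfl
      rw [e1, e2]
      exact tendsto_const_nhds.prodMk_nhds tendsto_inv₀_cobounded
    exact h
  | coe z =>
    have h : ContinuousAt (lf (z : OnePoint ℂ)) (z : OnePoint ℂ) := by
      rw [OnePoint.continuousAt_coe]
      have e1 : (lf (z : OnePoint ℂ) ∘ ((↑) : ℂ → OnePoint ℂ)) = fun z : ℂ => (z, (1 : ℂ)) := by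
        funext z
        rfl
      rw [e1]
      exact (continuous_id.prodMk continuous_const).continuousAt
    exact h

theorem lf_smul (z₀ : OnePoint ℂ) :
    ∀ᶠ z in 𝓝 z₀, ∃ a : ℂ, a ≠ 0 ∧ lf z₀ z = a • hc z := by
  induction z₀ using OnePoint.rec with
  | infty =>
    have h : ∀ᶠ z : OnePoint ℂ in 𝓝 ∞, z ≠ ((0 : ℂ) : OnePoint ℂ) :=
      isOpen_ne.mem_nhds (OnePoint.infty_ne_coe _)
    filter_upwards [h] with z hz
    induction z using OnePoint.rec with
    | infty => exact ⟨1, one_ne_zero, by rw [one_smul]; rfl⟩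
    | coe z =>
      have hz0 : z ≠ 0 := by
        intro h
        rw [h] at hz
        exact hz rfl
      refine ⟨z⁻¹, inv_ne_zero hz0, ?_⟩
      rw [hc_coe]
      change ((1 : ℂ), z⁻¹) = z⁻¹ • ((z, 1) : ℂ × ℂ)
      ext
      · simp [inv_mul_cancel₀ hz0]
      · simp
  | coe z₁ =>
    exact Eventually.of_forall fun z => ⟨1, one_ne_zero, by rw [one_smul]; rfl⟩

/-- a vector which is not proportional to finitely many given ones -/
theorem exists_vec {n : ℕ} (c : Fin n → OnePoint ℂ) : ∃ p : ℂ × ℂ, ∏ i, cr p (hc (c i)) ≠ 0 := by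
  classical
  obtain ⟨ζ, hζ⟩ := Infinite.exists_notMem_finset
    (Finset.univ.image fun i : Fin n => (hc (c i)).1)
  refine ⟨(ζ, 1), Finset.prod_ne_zero_iff.2 fun i _ => ?_⟩
  have h1 : ζ ≠ (hc (c i)).1 := by
    intro h
    exact hζ (Finset.mem_image.2 ⟨i, Finset.mem_univ _, h.symm⟩)
  generalize c i = z at h1
  induction z using OnePoint.rec with
  | infty => simp [hc_inf, cr]
  | coe z =>
    rw [hc_coe] at h1 ⊢
    simp only [cr]
    intro h2
    apply h1
    linear_combination h2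

/-- factors -/
noncomputable def qf (z : OnePoint ℂ) : ℂ[X] :=
  match z with
  | none => -1
  | some z => X - C z

theorem qf_ne (z : OnePoint ℂ) : qf z ≠ 0 := by
  induction z using OnePoint.rec with
  | infty => exact neg_ne_zero.2 one_ne_zero
  | coe z => exact X_sub_C_ne_zero z

theorem qf_eval (z : OnePoint ℂ) (ζ : ℂ) : (qf z).eval ζ = cr (ζ, 1) (hc z) := by
  induction z using OnePoint.rec with
  | infty =>
    rw [hc_inf]
    change eval ζ (-1) = _
    simp [cr]
  | coe z =>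
    rw [hc_coe]
    change eval ζ (X - C z) = _
    simp [cr]

open Classical in
theorem qf_roots (z : OnePoint ℂ) (w : ℂ) :
    Multiset.count w (qf z).roots = if z = (w : OnePoint ℂ) then 1 else 0 := by
  induction z using OnePoint.rec with
  | infty =>
    rw [if_neg (OnePoint.infty_ne_coe _)]
    change Multiset.count w (roots (-1)) = 0
    simp
  | coe z =>
    change Multiset.count w (roots (X - C z)) = _
    rw [roots_X_sub_C, Multiset.count_singleton]
    by_cases h : w = z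
    · rw [if_pos h, if_pos (by rw [h])]
    · rw [if_neg h, if_neg]
      intro h2
      exact h (OnePoint.coe_injective h2).symm

open Classical in
/-- the number of occurrences of a finite point -/
theorem count_qf {n : ℕ} (c : Fin n → OnePoint ℂ) (w : ℂ) :
    Multiset.count w (∏ i, qf (c i)).roots =
      (Finset.univ.filter fun i => c i = (w : OnePoint ℂ)).card := by
  rw [roots_prod _ _ (Finset.prod_ne_zero_iff.2 fun i _ => qf_ne _), Multiset.count_bind]
  have h1 : (Multiset.map (fun b => Multiset.count w (qf (c b)).roots)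
      (Finset.univ : Finset (Fin n)).val).sum =
      ∑ i : Fin n, Multiset.count w (qf (c i)).roots := rfl
  rw [h1, Finset.card_filter]
  exact Finset.sum_congr rfl fun i _ => qf_roots _ _

/-- unique factorisation -/
theorem perm_of {n : ℕ} (a b : Fin n → OnePoint ℂ) {K L : ℂ} (hK : K ≠ 0) (hL : L ≠ 0)
    (h : ∀ p, K * ∏ i, cr p (hc (a i)) = L * ∏ i, cr p (hc (b i))) :
    ∃ σ : Equiv.Perm (Fin n), ∀ i, a i = b (σ i) := by
  classical
  have h1 : C K * ∏ i, qf (a i) = C L * ∏ i, qf (b i) := by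
    apply Polynomial.funext
    intro ζ
    rw [eval_mul, eval_mul, eval_C, eval_C, eval_prod, eval_prod]
    simp only [qf_eval]
    exact h (ζ, 1)
  have h2 : (∏ i, qf (a i)).roots = (∏ i, qf (b i)).roots := by
    rw [← roots_C_mul _ hK, h1, roots_C_mul _ hL]
  have hfin : ∀ w : ℂ, (Finset.univ.filter fun i => a i = (w : OnePoint ℂ)).card =
      (Finset.univ.filter fun i => b i = (w : OnePoint ℂ)).card := by
    intro w
    rw [← count_qf, ← count_qf, h2]
  have hall : ∀ z : OnePoint ℂ, (Finset.univ.filter fun i => a i = z).card =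
      (Finset.univ.filter fun i => b i = z).card := by
    intro z
    by_cases hz : z = ∞
    · -- count the others
      subst hz
      set Z : Finset (OnePoint ℂ) := ((Finset.univ.image a) ∪ (Finset.univ.image b)) ∪ {∞} with hZ
      have key : ∀ c : Fin n → OnePoint ℂ, (∀ i, c i ∈ Z) →
          (Finset.univ.filter fun i => c i = (∞ : OnePoint ℂ)).card +
            ∑ z ∈ Z.erase ∞, (Finset.univ.filter fun i => c i = z).card = n := by
        intro c hc
        have h3 : ∑ z ∈ Z, (Finset.univ.filter fun i => c i = z).card = n := by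
          rw [← Finset.card_eq_sum_card_fiberwise (fun i _ => hc i)]
          simp
        rw [← Finset.add_sum_erase Z _ (show (∞ : OnePoint ℂ) ∈ Z by rw [hZ]; simp)] at h3
        exact h3
      have ka := key a (fun i => by
        rw [hZ, Finset.mem_union, Finset.mem_union]
        exact Or.inl (Or.inl (Finset.mem_image_of_mem _ (Finset.mem_univ _))))
      have kb := key b (fun i => by
        rw [hZ, Finset.mem_union, Finset.mem_union]
        exact Or.inl (Or.inr (Finset.mem_image_of_mem _ (Finset.mem_univ _))))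
      have h4 : ∑ z ∈ Z.erase ∞, (Finset.univ.filter fun i => a i = z).card =
          ∑ z ∈ Z.erase ∞, (Finset.univ.filter fun i => b i = z).card := by
        refine Finset.sum_congr rfl fun z hz => ?_
        obtain ⟨w, hw⟩ := OnePoint.ne_infty_iff_exists.1 (Finset.ne_of_mem_erase hz)
        rw [← hw]
        exact hfin w
      omega
    · obtain ⟨w, hw⟩ := OnePoint.ne_infty_iff_exists.1 hz
      rw [← hw]
      exact hfin w
  have hcard : ∀ z : OnePoint ℂ, Fintype.card {i // a i = z} = Fintype.card {i // b i = z} := by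
    intro z
    rw [Fintype.card_subtype, Fintype.card_subtype]
    exact hall z
  let e : ∀ z : OnePoint ℂ, {i // a i = z} ≃ {i // b i = z} := fun z =>
    Fintype.equivOfCardEq (hcard z)
  let σ : Equiv.Perm (Fin n) :=
    (Equiv.sigmaFiberEquiv a).symm.trans ((Equiv.sigmaCongrRight e).trans (Equiv.sigmaFiberEquiv b))
  refine ⟨σ, fun i => ?_⟩
  exact ((e (a i)) ⟨i, rfl⟩).2.symm

variable {d : ℕ}

theorem hF_tendsto {x : CV d} {ι : Type} {l : Filter ι} {Xs : ι → CV d}
    {vs : ι → ℂ × ℂ} {v : ℂ × ℂ} (hX : Tendsto Xs l (𝓝 x))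
    (h1 : Tendsto vs l (𝓝 v)) : Tendsto (fun i => hF (Xs i) (vs i)) l (𝓝 (hF x v)) := by
  have hc' : Continuous (fun q : CV d × (ℂ × ℂ) => hF q.1 q.2) := (hF_contDiff d 1).continuous
  have h2 := hX.prodMk_nhds h1
  have h3 := hc'.tendsto (x, v)
  have h4 := h3.comp h2
  exact h4

/-- joint continuity of the sphere maps -/
theorem sp_tendsto {x : CV d} (hx : ND x) {ι : Type} {l : Filter ι} {Xs : ι → CV d}
    {zs : ι → OnePoint ℂ} {z : OnePoint ℂ} (hX : Tendsto Xs l (𝓝 x))
    (hz : Tendsto zs l (𝓝 z)) :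
    Tendsto (fun i => sp (Xs i) (zs i)) l (𝓝 (sp x z)) := by
  have h1 : Tendsto (fun i => lf z (zs i)) l (𝓝 (hc z)) := (lf_tendsto z).comp hz
  have h2 := hF_tendsto hX h1
  have h3 : ContinuousAt pr (hF x (hc z)) :=
    Pool.Agent.H790R3.RB.SP.continuousAt_pr (fun h => hc_ne z (hx _ h))
  have h4 := h3.tendsto.comp h2
  have h5 : ∀ᶠ i in l, pr (hF (Xs i) (lf z (zs i))) = sp (Xs i) (zs i) := by
    filter_upwards [hz.eventually (lf_smul z)] with i hi
    obtain ⟨a, ha, hi⟩ := hi
    rw [hi, hF_smul, pr_csmul (pow_ne_zero _ ha)]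
    unfold sp
    rfl
  have h6 : sp x z = pr (hF x (hc z)) := by
    unfold sp
    rfl
  rw [h6]
  exact h4.congr' h5

theorem prod_tendsto {ι : Type} {l : Filter ι} {n : ℕ}
    {cs : ι → Fin n → OnePoint ℂ} {c' : Fin n → OnePoint ℂ}
    (hcs : ∀ j, Tendsto (fun i => cs i j) l (𝓝 (c' j))) (p : ℂ × ℂ) :
    Tendsto (fun i => ∏ j, cr p (lf (c' j) (cs i j))) l (𝓝 (∏ j, cr p (hc (c' j)))) := by
  refine tendsto_finsetProd _ fun j _ => ?_
  have h3 : Tendsto (fun i => lf (c' j) (cs i j)) l (𝓝 (hc (c' j))) :=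
    (lf_tendsto (c' j)).comp (hcs j)
  have h4 : Continuous (fun v : ℂ × ℂ => cr p v) := by
    unfold cr
    fun_prop
  exact (h4.tendsto _).comp h3

theorem prod_lift {ι : Type} {l : Filter ι} {n : ℕ}
    {cs : ι → Fin n → OnePoint ℂ} {c' : Fin n → OnePoint ℂ}
    (hcs : ∀ j, Tendsto (fun i => cs i j) l (𝓝 (c' j))) :
    ∀ᶠ i in l, ∃ A : ℂ, ∀ p, ∏ j, cr p (hc (cs i j)) = A * ∏ j, cr p (lf (c' j) (cs i j)) := by
  have h6 : ∀ᶠ i in l, ∀ j, ∃ a : ℂ, a ≠ 0 ∧ lf (c' j) (cs i j) = a • hc (cs i j) :=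
    eventually_all.2 fun j => (hcs j).eventually (lf_smul (c' j))
  filter_upwards [h6] with i hi
  choose a ha hi using hi
  refine ⟨∏ j, (a j)⁻¹, fun p => ?_⟩
  rw [← Finset.prod_mul_distrib]
  refine Finset.prod_congr rfl fun j _ => ?_
  rw [hi, cr_smul_right, inv_mul_cancel_left₀ (ha j)]

/-- Limits of critical points are critical points, with multiplicities. -/
theorem hc_limit {x : CV d} {c : Fin (2 * d - 2) → OnePoint ℂ} (hcx : HC x c)
    {ι : Type} {l : Filter ι} [l.NeBot] {Xs : ι → CV d}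
    {cs : ι → Fin (2 * d - 2) → OnePoint ℂ} {c' : Fin (2 * d - 2) → OnePoint ℂ}
    (hX : Tendsto Xs l (𝓝 x)) (hH : ∀ᶠ i in l, HC (Xs i) (cs i))
    (hcs : ∀ j, Tendsto (fun i => cs i j) l (𝓝 (c' j))) : HC x c' := by
  obtain ⟨K, hK, hw⟩ := hcx
  have hwc : Continuous (fun q : CV d × (ℂ × ℂ) => wr q.1 q.2) := (wr_contDiff d 1).continuous
  have h1 : ∀ p, Tendsto (fun i => wr (Xs i) p) l (𝓝 (wr x p)) := by
    intro p
    have h := (hwc.tendsto (x, p)).comp (hX.prodMk_nhds (tendsto_const_nhds (x := p)))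
    exact h
  have h2 := prod_tendsto hcs
  obtain ⟨p₀, hp₀⟩ := exists_vec c'
  -- the factors
  have h5 : ∀ᶠ i in l, ∃ K' : ℂ, ∀ p, wr (Xs i) p = K' * ∏ j, cr p (lf (c' j) (cs i j)) := by
    filter_upwards [prod_lift hcs, hH] with i ⟨A, hA⟩ ⟨K₁, hK₁, hw₁⟩
    exact ⟨K₁ * A, fun p => by rw [hw₁, hA, mul_assoc]⟩
  have h7 : ∀ p, wr x p = (wr x p₀ / ∏ j, cr p₀ (hc (c' j))) * ∏ j, cr p (hc (c' j)) := by
    intro p
    have h8 : Tendsto (fun i => wr (Xs i) p₀ / ∏ j, cr p₀ (lf (c' j) (cs i j))) l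
        (𝓝 (wr x p₀ / ∏ j, cr p₀ (hc (c' j)))) := (h1 p₀).div (h2 p₀) hp₀
    have h9 := h8.mul (h2 p)
    refine tendsto_nhds_unique (h1 p) (h9.congr' ?_)
    filter_upwards [h5, (h2 p₀).eventually_ne hp₀] with i ⟨K₂, hK₂⟩ hi
    rw [hK₂ p, hK₂ p₀, mul_div_assoc, div_self hi, mul_one]
  refine ⟨_, ?_, h7⟩
  intro h0
  obtain ⟨p₁, hp₁⟩ := exists_vec c
  have h10 := h7 p₁
  rw [h0, zero_mul, hw] at h10
  exact (mul_ne_zero hK hp₁) h10

/-- reindexing -/
theorem hc_perm {x : CV d} {c : Fin (2 * d - 2) → OnePoint ℂ} (h : HC x c)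
    (σ : Equiv.Perm (Fin (2 * d - 2))) : HC x (fun i => c (σ i)) := by
  obtain ⟨K, hK, hw⟩ := h
  refine ⟨K, hK, fun p => ?_⟩
  rw [hw, ← Equiv.prod_comp σ (fun i => cr p (hc (c i)))]

/-- a permutation which preserves a relation reflects it -/
theorem perm_rel {n : ℕ} (σ : Equiv.Perm (Fin n)) (R : Fin n → Fin n → Prop)
    (h : ∀ i j, R i j → R (σ i) (σ j)) : ∀ i j, R (σ i) (σ j) → R i j := by
  classical
  set S : Finset (Fin n × Fin n) := Finset.univ.filter fun q => R q.1 q.2 with hS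
  have h1 : S.image (fun q => (σ q.1, σ q.2)) ⊆ S := by
    intro q hq
    obtain ⟨r, hr, rfl⟩ := Finset.mem_image.1 hq
    rw [hS, Finset.mem_filter] at hr ⊢
    exact ⟨Finset.mem_univ _, h _ _ hr.2⟩
  have h2 : Function.Injective (fun q : Fin n × Fin n => (σ q.1, σ q.2)) := by
    intro q r hqr
    have e1 := congrArg Prod.fst hqr
    have e2 := congrArg Prod.snd hqr
    exact Prod.ext (σ.injective e1) (σ.injective e2)
  have h3 : S.image (fun q => (σ q.1, σ q.2)) = S :=
    Finset.eq_of_subset_of_card_le h1 (by rw [Finset.card_image_of_injective _ h2])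
  intro i j hij
  have h4 : (σ i, σ j) ∈ S := by
    rw [hS, Finset.mem_filter]
    exact ⟨Finset.mem_univ _, hij⟩
  rw [← h3] at h4
  obtain ⟨r, hr, he⟩ := Finset.mem_image.1 h4
  have h5 : r = (i, j) := h2 he
  rw [h5, hS, Finset.mem_filter] at hr
  exact hr.2

end Pool.Agent.H207.CS
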