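import Mathlib
import Pool.Agent.H207.CS.Sel
import Pool.Agent.H207.CS.Alg
import Pool.Graph.R_seed8.W440.RE.Ermin
import Pool.Graph.R_seed8.W440.RE.Genm
import Pool.Graph.R_seed8.W973.REUG

/-! Project CS: derivatives of the structural equations, part 1. -/

set_option autoImplicit false

open Topology Filter Metric Set Polynomial
open Pool.Agent.H790R3.RB (CV hF cr ND wr rt Ix yx yc pol cr_eq_zero_iff cr_smul_right cr_smul_left
  cr_self cr_comm wr_contDiff)
open Pool.Agent.H790R3.RB.PQ (pol_coeff pol_coeff_gt hF_one)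
open Pool.Agent.W757.RD
open Pool.Agent.W757.QR (nu de wn)
open Pool.Agent.W440.RE.GENM (wr_wn)

namespace Pool.Agent.H207.CS

/-- the linear part of the universal family -/
noncomputable def df {d : ℕ} (v : Fin (2 * d) → ℂ) : CV d := fam v - fam 0

theorem fam_line {d : ℕ} (u v : Fin (2 * d) → ℂ) (t : ℂ) :
    fam (u + t • v) = fam u + t • df v := by
  funext p
  simp only [df, fam, Pi.add_apply, Pi.smul_apply, Pi.sub_apply, Pi.zero_apply, smul_eq_mul]
  split_ifs with h1 h2
  · ring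
  · ring
  · ring

theorem pol_line {d : ℕ} (x ξ : CV d) (t : ℂ) (i : Fin 2) :
    pol (x + t • ξ) i = pol x i + C t * pol ξ i := by
  unfold pol
  rw [Finset.mul_sum, ← Finset.sum_add_distrib]
  refine Finset.sum_congr rfl fun j _ => ?_
  rw [Pi.add_apply, Pi.smul_apply, smul_eq_mul, map_add, C_mul_monomial]

theorem df_last {d : ℕ} (v : Fin (2 * d) → ℂ) (i : Fin 2) : df v (i, Fin.last d) = 0 := by
  simp [df, fam]

theorem df_deg {d : ℕ} (v : Fin (2 * d) → ℂ) (i : Fin 2) :
    (pol (df v) i).degree < (d : WithBot ℕ) := by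
  rw [degree_lt_iff_coeff_zero]
  intro j hj
  rcases Nat.lt_or_ge d j with h | h
  · exact pol_coeff_gt _ _ _ h
  · have hjd : j = d := le_antisymm h hj
    have h2 := pol_coeff (df v) i (Fin.last d)
    rw [Fin.val_last, df_last] at h2
    rw [hjd]
    exact h2

theorem df_surj {d : ℕ} {A B : ℂ[X]} (hA : A.degree < (d : WithBot ℕ))
    (hB : B.degree < (d : WithBot ℕ)) :
    ∃ v : Fin (2 * d) → ℂ, pol (df v) 0 = A ∧ pol (df v) 1 = B := by
  refine ⟨fun k => if (k : ℕ) < d then A.coeff k else B.coeff ((k : ℕ) - d), ?_, ?_⟩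
  · ext j
    rcases Nat.lt_or_ge j d with h | h
    · have h2 := pol_coeff (df (fun k : Fin (2 * d) => if (k : ℕ) < d then A.coeff k else
        B.coeff ((k : ℕ) - d))) 0 ⟨j, by omega⟩
      simp only at h2
      rw [h2]
      simp [df, fam, h]
    · rw [degree_lt_iff_coeff_zero] at hA
      rw [hA j h]
      exact (degree_lt_iff_coeff_zero _ _).1 (df_deg _ 0) j h
  · ext j
    rcases Nat.lt_or_ge j d with h | h
    · have h2 := pol_coeff (df (fun k : Fin (2 * d) => if (k : ℕ) < d then A.coeff k else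
        B.coeff ((k : ℕ) - d))) 1 ⟨j, by omega⟩
      simp only at h2
      rw [h2]
      simp [df, fam, h]
    · rw [degree_lt_iff_coeff_zero] at hB
      rw [hB j h]
      exact (degree_lt_iff_coeff_zero _ _).1 (df_deg _ 1) j h

theorem wn_line (P Q A B : ℂ[X]) (t : ℂ) :
    wn (P + C t * A) (Q + C t * B) = wn P Q + C t * dW P Q A B + C t ^ 2 * wn A B := by
  unfold wn dW
  simp only [derivative_add, derivative_C_mul]
  ring

theorem wr_inf {d : ℕ} (hd : 2 ≤ d) (x : CV d) :
    wr x (1, 0) = d * (wn (nu x) (de x)).coeff (2 * d - 2) := by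
  obtain ⟨-, ⟨W, -, hWe, hWc⟩, -⟩ := Pool.Agent.H790R3.RB.WR d x hd
  have h1 : W = C (d : ℂ) * wn (nu x) (de x) := by
    apply Polynomial.funext
    intro ζ
    rw [hWe, wr_wn, eval_mul, eval_C]
  rw [← hWc, h1, coeff_C_mul]

/-- a direction which moves the parameter -/
noncomputable def dirU {d s : ℕ} (v : Fin (2 * d) → ℂ) : Ix d (2 * d + s) s → ℂ :=
  Sum.elim (Fin.append v 0) 0

section

variable {d s : ℕ} {S : Sys d (2 * d + s) s} {y : Ix d (2 * d + s) s → ℂ}

theorem xp_dirU (v : Fin (2 * d) → ℂ) (t : ℂ) :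
    xp (yx (y + t • dirU v)) = xp (yx y) + t • v := by
  funext i
  simp [xp, yx, dirU]

theorem yc_dirU (v : Fin (2 * d) → ℂ) (t : ℂ) (i : Fin (2 * d - 2)) :
    yc (y + t • dirU v) i = yc y i := by
  simp [yc, dirU]

theorem line_tendsto (V : Ix d (2 * d + s) s → ℂ) :
    Tendsto (fun t : ℂ => yx (y + t • V)) (𝓝 0) (𝓝 (yx y)) := by
  have h1 : Continuous (fun t : ℂ => yx (y + t • V)) := by
    unfold yx
    fun_prop
  have h2 := h1.tendsto 0
  simpa using h2

theorem co_line (hE : Ext S) (hy : yx y ∈ S.U) (v : Fin (2 * d) → ℂ) :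
    ∀ᶠ t : ℂ in 𝓝 0, S.co (yx (y + t • dirU v)) = fam (xp (yx y)) + t • df v := by
  filter_upwards [(line_tendsto (y := y) (dirU v)).eventually (S.hU.mem_nhds hy)] with t ht
  rw [hE.co _ ht, xp_dirU, fam_line]

theorem er_u (hd : 2 ≤ d) (hE : Ext S) (hy : yx y ∈ S.U) (v : Fin (2 * d) → ℂ)
    (j : Fin (2 * d - 2)) :
    HasDerivAt (fun t : ℂ => S.Er j (y + t • dirU v))
      (d * ((dW (nu (fam (xp (yx y)))) (de (fam (xp (yx y)))) (pol (df v) 0)
        (pol (df v) 1)).eval ((j : ℕ) : ℂ) -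
        (dW (nu (fam (xp (yx y)))) (de (fam (xp (yx y)))) (pol (df v) 0)
        (pol (df v) 1)).coeff (2 * d - 2) * ∏ i, (((j : ℕ) : ℂ) - yc y i))) 0 := by
  set x := fam (xp (yx y)) with hx
  set D1 := dW (nu x) (de x) (pol (df v) 0) (pol (df v) 1) with hD1
  have h1 : (fun t : ℂ => S.Er j (y + t • dirU v)) =ᶠ[𝓝 0] fun t =>
      (d : ℂ) * (((wn (nu x) (de x)).eval ((j : ℕ) : ℂ) + t * D1.eval ((j : ℕ) : ℂ) +
        t ^ 2 * (wn (pol (df v) 0) (pol (df v) 1)).eval ((j : ℕ) : ℂ)) -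
        ((wn (nu x) (de x)).coeff (2 * d - 2) + t * D1.coeff (2 * d - 2) +
        t ^ 2 * (wn (pol (df v) 0) (pol (df v) 1)).coeff (2 * d - 2)) *
          ∏ i, (((j : ℕ) : ℂ) - yc y i)) := by
    filter_upwards [co_line hE hy v] with t ht
    unfold Sys.Er
    rw [ht, wr_wn, wr_inf hd]
    have h2 : wn (nu (fam (xp (yx y)) + t • df v)) (de (fam (xp (yx y)) + t • df v)) =
        wn (nu x) (de x) + C t * D1 + C t ^ 2 * wn (pol (df v) 0) (pol (df v) 1) := by
      unfold nu de
      rw [pol_line, pol_line, wn_line]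
      rfl
    rw [h2]
    simp only [eval_add, eval_mul, eval_C, coeff_add, coeff_C_mul, ← C_pow]
    simp only [yc_dirU]
    ring
  refine HasDerivAt.congr_of_eventuallyEq ?_ h1
  have e1 : ∀ a b c : ℂ, HasDerivAt (fun t : ℂ => a + t * b + t ^ 2 * c) b 0 := by
    intro a b c
    have h3 := (((hasDerivAt_id (0 : ℂ)).mul_const b).const_add a).add
      (((hasDerivAt_id (0 : ℂ)).pow 2).mul_const c)
    refine h3.congr_deriv ?_
    simp
  exact (((e1 _ _ _).sub ((e1 _ _ _).mul_const _)).const_mul _)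

/-- the variation of the condition of equal critical values -/
theorem cr_u (hE : Ext S) (hy : yx y ∈ S.U) (v : Fin (2 * d) → ℂ) (i i' : Fin (2 * d - 2)) :
    HasDerivAt (fun t : ℂ => cr (S.F (yx (y + t • dirU v)) (yc (y + t • dirU v) i, 1))
      (S.F (yx (y + t • dirU v)) (yc (y + t • dirU v) i', 1)))
      ((pol (df v) 0).eval (yc y i) * (de (fam (xp (yx y)))).eval (yc y i') +
        (nu (fam (xp (yx y)))).eval (yc y i) * (pol (df v) 1).eval (yc y i') -
        (pol (df v) 1).eval (yc y i) * (nu (fam (xp (yx y)))).eval (yc y i') -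
        (de (fam (xp (yx y)))).eval (yc y i) * (pol (df v) 0).eval (yc y i')) 0 := by
  set x := fam (xp (yx y)) with hx
  have h1 : (fun t : ℂ => cr (S.F (yx (y + t • dirU v)) (yc (y + t • dirU v) i, 1))
      (S.F (yx (y + t • dirU v)) (yc (y + t • dirU v) i', 1))) =ᶠ[𝓝 0] fun t =>
      ((nu x).eval (yc y i) + t * (pol (df v) 0).eval (yc y i)) *
        ((de x).eval (yc y i') + t * (pol (df v) 1).eval (yc y i')) -
      ((de x).eval (yc y i) + t * (pol (df v) 1).eval (yc y i)) *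
        ((nu x).eval (yc y i') + t * (pol (df v) 0).eval (yc y i')) := by
    filter_upwards [co_line hE hy v] with t ht
    unfold Sys.F
    rw [ht, yc_dirU, yc_dirU, hF_one, hF_one, pol_line, pol_line]
    unfold cr nu de
    simp only [eval_add, eval_mul, eval_C]
    rfl
  refine HasDerivAt.congr_of_eventuallyEq ?_ h1
  have e1 : ∀ a b : ℂ, HasDerivAt (fun t : ℂ => a + t * b) b 0 := by
    intro a b
    have h3 := (((hasDerivAt_id (0 : ℂ)).mul_const b).const_add a)
    simpa using h3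
  have h2 := ((e1 ((nu x).eval (yc y i)) ((pol (df v) 0).eval (yc y i))).mul
    (e1 ((de x).eval (yc y i')) ((pol (df v) 1).eval (yc y i')))).sub
    ((e1 ((de x).eval (yc y i)) ((pol (df v) 1).eval (yc y i))).mul
    (e1 ((nu x).eval (yc y i')) ((pol (df v) 0).eval (yc y i'))))
  refine h2.congr_deriv ?_
  ring

end

end Pool.Agent.H207.CS
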