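import Mathlib
import Pool.Agent.H207.CS.Emin1

/-! Project CS: derivatives of the structural equations, part 2. -/

set_option autoImplicit false

open Topology Filter Metric Set Polynomial
open Pool.Agent.H790R3.RB (CV hF cr ND wr rt Ix yx yc pol cr_eq_zero_iff cr_smul_right cr_smul_left
  cr_self cr_comm wr_contDiff)
open Pool.Agent.H790R3.RB.PQ (pol_coeff pol_coeff_gt hF_one)
open Pool.Agent.W757.RD
open Pool.Agent.W757.QR (nu de wn)
open Pool.Agent.W440.RE.GENM (wr_wn)

namespace Pool.Agent.H207.CS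

section

variable {d n s : ℕ} {S : Sys d n s} {y : Ix d n s → ℂ}

theorem yx_single (t : ℂ) (i : Fin (2 * d - 2)) :
    yx (y + t • (Pi.single (Sum.inr (Sum.inl i)) 1 : Ix d n s → ℂ)) = yx y := by
  funext k
  simp [yx]

theorem yc_single (t : ℂ) (i i' : Fin (2 * d - 2)) :
    yc (y + t • (Pi.single (Sum.inr (Sum.inl i)) 1 : Ix d n s → ℂ)) i' =
      yc y i' + t * (if i' = i then 1 else 0) := by
  by_cases h : i' = i
  · subst h
    simp [yc]
  · simp [yc, h]

theorem er_c (i j : Fin (2 * d - 2)) :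
    HasDerivAt (fun t : ℂ => S.Er j (y + t • (Pi.single (Sum.inr (Sum.inl i)) 1 : Ix d n s → ℂ)))
      (wr (S.co (yx y)) (1, 0) * ∏ i' ∈ Finset.univ.erase i, (((j : ℕ) : ℂ) - yc y i')) 0 := by
  have hform : (fun t : ℂ => S.Er j (y + t • (Pi.single (Sum.inr (Sum.inl i)) 1 :
      Ix d n s → ℂ))) = fun t : ℂ =>
      wr (S.co (yx y)) (((j : ℕ) : ℂ), 1) -
        wr (S.co (yx y)) (1, 0) * (((((j : ℕ) : ℂ) - yc y i) - t) *
          ∏ i' ∈ Finset.univ.erase i, (((j : ℕ) : ℂ) - yc y i')) := by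
    funext t
    unfold Sys.Er
    rw [yx_single]
    congr 2
    rw [← Finset.mul_prod_erase Finset.univ _ (Finset.mem_univ i)]
    congr 1
    · rw [yc_single]
      simp
      ring
    · refine Finset.prod_congr rfl fun i' hi' => ?_
      rw [yc_single, if_neg (Finset.ne_of_mem_erase hi'), mul_zero, add_zero]
  rw [hform]
  have h1 : HasDerivAt (fun t : ℂ => (((j : ℕ) : ℂ) - yc y i) - t) (-1) 0 := by
    simpa using (hasDerivAt_id (0 : ℂ)).const_sub (((j : ℕ) : ℂ) - yc y i)
  have h2 := ((h1.mul_const (∏ i' ∈ Finset.univ.erase i, (((j : ℕ) : ℂ) - yc y i'))).const_mul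
    (wr (S.co (yx y)) (1, 0))).const_sub (wr (S.co (yx y)) (((j : ℕ) : ℂ), 1))
  exact h2.congr_deriv (by ring)

theorem wr_zero_pol {x : CV d} (hd : 2 ≤ d) {c : ℂ} (h : wr x (c, 1) = 0) :
    (derivative (pol x 0)).eval c * (pol x 1).eval c -
      (pol x 0).eval c * (derivative (pol x 1)).eval c = 0 := by
  rw [wr_wn] at h
  have hd0 : (d : ℂ) ≠ 0 := by
    have : d ≠ 0 := by omega
    exact_mod_cast this
  have h1 := (mul_eq_zero.1 h).resolve_left hd0
  unfold wn nu de at h1
  rw [eval_sub, eval_mul, eval_mul] at h1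
  exact h1

theorem cr_c (hy : yx y ∈ S.U) (i k k' : Fin (2 * d - 2))
    (hk : wr (S.co (yx y)) (yc y k, 1) = 0) (hk' : wr (S.co (yx y)) (yc y k', 1) = 0)
    (h : cr (S.F (yx y) (yc y k, 1)) (S.F (yx y) (yc y k', 1)) = 0) :
    HasDerivAt (fun t : ℂ =>
      cr (S.F (yx (y + t • (Pi.single (Sum.inr (Sum.inl i)) 1 : Ix d n s → ℂ)))
        (yc (y + t • (Pi.single (Sum.inr (Sum.inl i)) 1 : Ix d n s → ℂ)) k, 1))
      (S.F (yx (y + t • (Pi.single (Sum.inr (Sum.inl i)) 1 : Ix d n s → ℂ)))
        (yc (y + t • (Pi.single (Sum.inr (Sum.inl i)) 1 : Ix d n s → ℂ)) k', 1))) 0 0 := by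
  have hd := S.hd
  set x := S.co (yx y) with hx
  set e : ℂ := if k = i then 1 else 0 with he
  set e' : ℂ := if k' = i then 1 else 0 with he'
  have h1 : (fun t : ℂ =>
      cr (S.F (yx (y + t • (Pi.single (Sum.inr (Sum.inl i)) 1 : Ix d n s → ℂ)))
        (yc (y + t • (Pi.single (Sum.inr (Sum.inl i)) 1 : Ix d n s → ℂ)) k, 1))
      (S.F (yx (y + t • (Pi.single (Sum.inr (Sum.inl i)) 1 : Ix d n s → ℂ)))
        (yc (y + t • (Pi.single (Sum.inr (Sum.inl i)) 1 : Ix d n s → ℂ)) k', 1))) = fun t =>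
      (pol x 0).eval (yc y k + t * e) * (pol x 1).eval (yc y k' + t * e') -
      (pol x 1).eval (yc y k + t * e) * (pol x 0).eval (yc y k' + t * e') := by
    funext t
    rw [yx_single, yc_single, yc_single]
    unfold Sys.F
    rw [hF_one, hF_one]
    rfl
  rw [h1]
  have hl : ∀ a b : ℂ, HasDerivAt (fun t : ℂ => a + t * b) b 0 := by
    intro a b
    have h3 := (((hasDerivAt_id (0 : ℂ)).mul_const b).const_add a)
    simpa using h3
  have hp : ∀ (p : ℂ[X]) (a b : ℂ),
      HasDerivAt (fun t : ℂ => p.eval (a + t * b)) ((derivative p).eval a * b) 0 := by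
    intro p a b
    have h4 : HasDerivAt (fun z : ℂ => p.eval z) ((derivative p).eval a) (a + 0 * b) := by
      have := p.hasDerivAt a
      simpa using this
    exact h4.comp (0 : ℂ) (hl a b)
  have h2 := ((hp (pol x 0) (yc y k) e).mul (hp (pol x 1) (yc y k') e')).sub
    ((hp (pol x 1) (yc y k) e).mul (hp (pol x 0) (yc y k') e'))
  refine h2.congr_deriv ?_
  simp only [zero_mul, add_zero]
  have w1 := wr_zero_pol hd hk
  have w2 := wr_zero_pol hd hk'
  obtain ⟨a, ha, h3⟩ := (cr_eq_zero_iff (F_ne hy (vec_ne _)) (F_ne hy (vec_ne _))).1 h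
  unfold Sys.F at h3
  rw [hF_one, hF_one] at h3
  have h5 := congrArg Prod.fst h3
  have h6 := congrArg Prod.snd h3
  simp only [Prod.smul_fst, Prod.smul_snd, smul_eq_mul] at h5 h6
  rw [← hx] at h5 h6
  have g1 : (derivative (pol x 0)).eval (yc y k) * (pol x 1).eval (yc y k') =
      (derivative (pol x 1)).eval (yc y k) * (pol x 0).eval (yc y k') := by
    apply mul_left_cancel₀ ha
    linear_combination w1 + (derivative (pol x 1)).eval (yc y k) * h5 -
      (derivative (pol x 0)).eval (yc y k) * h6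
  have g2 : (pol x 0).eval (yc y k) * (derivative (pol x 1)).eval (yc y k') =
      (pol x 1).eval (yc y k) * (derivative (pol x 0)).eval (yc y k') := by
    linear_combination (-a) * w2 + (derivative (pol x 1)).eval (yc y k') * h5 -
      (derivative (pol x 0)).eval (yc y k') * h6
  linear_combination e * g1 + e' * g2

theorem es_diffAt (hy : yx y ∈ S.U) (π : Pat (2 * d - 2)) (a : Fin (2 * d - 2) ⊕ Nr π) :
    DifferentiableAt ℂ (Es S π a) y := by
  have ho : {y : Ix d n s → ℂ | yx y ∈ S.U} ∈ 𝓝 y :=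
    (S.hU.preimage (yx_diff' (d := d) (n := n) (s := s)).continuous).mem_nhds hy
  rcases a with j | i
  · exact (Pool.Agent.W462.READO.Er_diff S j).differentiableAt ho
  · exact (ex_diff S π i).differentiableAt ho

theorem es_dir (hy : yx y ∈ S.U) (π : Pat (2 * d - 2)) (a : Fin (2 * d - 2) ⊕ Nr π)
    (V : Ix d n s → ℂ) {v : ℂ} (h : HasDerivAt (fun t : ℂ => Es S π a (y + t • V)) v 0) :
    fderiv ℂ (Es S π a) y V = v := by
  have hline : HasDerivAt (fun t : ℂ => y + t • V) V 0 := by
    have h1 : HasDerivAt (fun t : ℂ => t • V) ((1 : ℂ) • V) 0 :=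
      (hasDerivAt_id (0 : ℂ)).smul_const V
    rw [one_smul] at h1
    exact h1.const_add y
  have hcomp : HasDerivAt (fun t : ℂ => Es S π a (y + t • V)) (fderiv ℂ (Es S π a) y V) 0 := by
    have h1 : HasFDerivAt (Es S π a) (fderiv ℂ (Es S π a) y) (y + (0 : ℂ) • V) := by
      rw [zero_smul, add_zero]
      exact (es_diffAt hy π a).hasFDerivAt
    exact h1.comp_hasDerivAt (0 : ℂ) hline
  exact hcomp.unique h

end

/-- choice of columns -/
theorem exists_minor {I J : Type} [Fintype J] [DecidableEq J] [Fintype I] (f : J → I → ℂ)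
    (hf : LinearIndependent ℂ f) : ∃ col : J → I, (Matrix.of fun j c : J => f j (col c)).det ≠ 0 := by
  let A : Matrix J I ℂ := Matrix.of fun j c => f j c
  have hrank : A.rank = Fintype.card J := LinearIndependent.rank_matrix (M := A) hf
  have hspan : Submodule.span ℂ (Set.range A.col) = ⊤ := by
    apply Submodule.eq_top_of_finrank_eq
    rw [← Matrix.rank_eq_finrank_span_cols, hrank, Module.finrank_fintype_fun_eq_card]
  obtain ⟨κ, a, ha, hsp, hli⟩ := exists_linearIndependent' ℂ A.col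
  rw [hspan] at hsp
  let b := Module.Basis.mk hli hsp.ge
  have hfin : Finite κ := Finite.of_injective a ha
  have hft : Fintype κ := Fintype.ofFinite κ
  have hcard : Fintype.card J = Fintype.card κ := by
    have h1 := Module.finrank_eq_card_basis b
    rw [Module.finrank_fintype_fun_eq_card] at h1
    exact h1
  let e : J ≃ κ := Fintype.equivOfCardEq hcard
  refine ⟨fun j => a (e j), ?_⟩
  have hcols : LinearIndependent ℂ
      (Matrix.of fun j c : J => f j (a (e c))).col := hli.comp e e.injective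
  have hunit := Matrix.linearIndependent_cols_iff_isUnit.mp hcols
  exact ((Matrix.isUnit_iff_isUnit_det _).mp hunit).ne_zero

end Pool.Agent.H207.CS
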