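import Mathlib
import Pool.Agent.H207.CS.Emin2

/-! Project CS: the structural equations of a stratum are transverse at the configurations with
exactly the prescribed coincidences. -/

set_option autoImplicit false

open Topology Filter Metric Set Polynomial
open Pool.Agent.H790R3.RB (CV hF cr ND wr rt Ix yx yc pol cr_eq_zero_iff cr_smul_right cr_smul_left
  cr_self cr_comm wr_contDiff)
open Pool.Agent.H790R3.RB.PQ (pol_coeff pol_coeff_gt hF_one)
open Pool.Agent.W757.RD
open Pool.Agent.W757.QR (nu de wn)
open Pool.Agent.W440.RE.GENM (wr_wn)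

namespace Pool.Agent.H207.CS

theorem fam_nrm {d : ℕ} (u : Fin (2 * d) → ℂ) : Nrm (fam u) := by
  constructor <;> simp [fam]

theorem de_deg {d : ℕ} (u : Fin (2 * d) → ℂ) : (de (fam u)).degree < (d : WithBot ℕ) := by
  rw [degree_lt_iff_coeff_zero]
  intro j hj
  rcases Nat.lt_or_ge d j with h | h
  · exact pol_coeff_gt _ _ _ h
  · have hjd : j = d := le_antisymm h hj
    have h2 := pol_coeff (fam u) 1 (Fin.last d)
    rw [Fin.val_last, (fam_nrm u).2] at h2
    rw [hjd]
    exact h2

theorem natDegree_le_pred {d : ℕ} {A : ℂ[X]} (hA : A.degree < (d : WithBot ℕ)) :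
    A.natDegree ≤ d - 1 := by
  by_cases h : A = 0
  · rw [h, natDegree_zero]
    exact Nat.zero_le _
  · rw [degree_eq_natDegree h] at hA
    have : A.natDegree < d := by exact_mod_cast hA
    omega

theorem dW_natDegree {d : ℕ} (hd : 2 ≤ d) {P Q A B : ℂ[X]} (hP : P.natDegree ≤ d)
    (hQ : Q.degree < (d : WithBot ℕ)) (hA : A.degree < (d : WithBot ℕ))
    (hB : B.degree < (d : WithBot ℕ)) : (dW P Q A B).natDegree ≤ 2 * d - 2 := by
  have hQ' := natDegree_le_pred hQ
  have hA' := natDegree_le_pred hA
  have hB' := natDegree_le_pred hB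
  have e : ∀ p : ℂ[X], (derivative p).natDegree ≤ p.natDegree - 1 := natDegree_derivative_le
  unfold dW
  have e1 := e A
  have e2 := e P
  have e3 := e Q
  have e4 := e B
  refine (natDegree_sub_le _ _).trans (max_le ?_ ?_)
  · refine (natDegree_sub_le _ _).trans (max_le ?_ ?_)
    · refine (natDegree_add_le _ _).trans (max_le ?_ ?_)
      · refine natDegree_mul_le.trans ?_
        omega
      · refine natDegree_mul_le.trans ?_
        omega
    · refine natDegree_mul_le.trans ?_
      omega
  · refine natDegree_mul_le.trans ?_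
    by_cases h0 : B.natDegree = 0
    · have : derivative B = 0 := derivative_of_natDegree_zero h0
      rw [this, natDegree_zero]
      omega
    · omega

theorem emin {d s : ℕ} {S : Sys d (2 * d + s) s} (hE : Ext S) (π : Pat (2 * d - 2))
    {y : Ix d (2 * d + s) s → ℂ} (hy : yx y ∈ S.U) (hx : Exa π (xp (yx y)) (yc y)) :
    ∃ col : Fin (2 * d - 2) ⊕ Nr π → Ix d (2 * d + s) s,
      (Matrix.of fun j c => fderiv ℂ (Es S π j) y (Pi.single (col c) 1)).det ≠ 0 := by
  classical
  have hd := S.hd
  apply exists_minor (fun j c => fderiv ℂ (Es S π j) y (Pi.single c 1))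
  rw [Fintype.linearIndependent_iff]
  intro g hg
  -- the relation for all directions
  have hrel : ∀ V : Ix d (2 * d + s) s → ℂ, ∑ a, g a * fderiv ℂ (Es S π a) y V = 0 := by
    intro V
    have h1 : ∀ a, fderiv ℂ (Es S π a) y V =
        ∑ c, V c * fderiv ℂ (Es S π a) y (Pi.single c 1) := by
      intro a
      conv_lhs => rw [← Finset.univ_sum_single V]
      rw [map_sum]
      refine Finset.sum_congr rfl fun c _ => ?_
      have h2 : (Pi.single c (V c) : Ix d (2 * d + s) s → ℂ) = V c • Pi.single c 1 := by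
        rw [← Pi.single_smul, smul_eq_mul, mul_one]
      rw [h2, map_smul, smul_eq_mul]
    simp_rw [h1, Finset.mul_sum]
    rw [Finset.sum_comm]
    refine Finset.sum_eq_zero fun c _ => ?_
    have h2 := congrFun hg c
    simp only [Finset.sum_apply, Pi.smul_apply, smul_eq_mul, Pi.zero_apply] at h2
    calc ∑ a, g a * (V c * fderiv ℂ (Es S π a) y (Pi.single c 1))
        = V c * ∑ a, g a * fderiv ℂ (Es S π a) y (Pi.single c 1) := by
          rw [Finset.mul_sum]
          exact Finset.sum_congr rfl fun a _ => by ring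
      _ = 0 := by rw [h2, mul_zero]
  -- the map
  set u := xp (yx y) with hu
  set x := fam u with hxx
  set c := yc y with hc
  have hco : S.co (yx y) = x := hE.co _ hy
  have hND : ND x := by rw [← hco]; exact S.nd _ hy
  set P := nu x with hPdef
  set Q := de x with hQdef
  have hcop : IsCoprime P Q := (Pool.Agent.H790R3.RB.PQ.part1 (by omega : 1 ≤ d) x hND).1
  obtain ⟨hPm, hPd⟩ := Pool.Agent.W973.UG.nu_monic (fam_nrm u)
  have hQd : Q.degree < (d : WithBot ℕ) := de_deg u
  set W₀ := wr x (1, 0) with hW₀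
  have hW₀0 : W₀ ≠ 0 := by
    rw [hW₀, ← hco]
    exact S.hwr _ hy
  have hd0 : (d : ℂ) ≠ 0 := by
    have : d ≠ 0 := by omega
    exact_mod_cast this
  set Wp : ℂ[X] := ∏ i, (X - C (c i)) with hWp
  have hWm : Wp.Monic := monic_prod_of_monic _ _ fun i _ => monic_X_sub_C _
  have hWd : Wp.natDegree = 2 * d - 2 := by
    rw [hWp, natDegree_prod_of_monic _ _ fun i _ => monic_X_sub_C _]
    simp
  have hW : derivative P * Q - P * derivative Q = C (W₀ / d) * Wp := by
    apply Polynomial.funext
    intro ζ
    have h1 := hx.crit ζ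
    rw [wr_wn] at h1
    have h3 : (C (W₀ / d) * Wp).eval ζ = W₀ / d * ∏ i, (ζ - c i) := by
      rw [eval_mul, eval_C, hWp, eval_prod]
      simp only [eval_sub, eval_X, eval_C]
    have h2 : (d : ℂ) * (derivative P * Q - P * derivative Q).eval ζ =
        d * (C (W₀ / d) * Wp).eval ζ := by
      have e1 : (d : ℂ) * (W₀ / d * ∏ i, (ζ - c i)) = W₀ * ∏ i, (ζ - c i) := by
        field_simp
      rw [h3, e1]
      exact h1
    exact mul_left_cancel₀ hd0 h2
  have hcw : ∀ i, wr (S.co (yx y)) (yc y i, 1) = 0 := by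
    intro i
    rw [hco]
    have h1 := hx.crit (c i)
    rw [h1]
    apply mul_eq_zero_of_right
    exact Finset.prod_eq_zero (Finset.mem_univ i) (sub_self _)
  have hcr : ∀ i, cr (S.F (yx y) (yc y i, 1)) (S.F (yx y) (yc y (π.p2 i), 1)) = 0 := by
    intro i
    unfold Sys.F
    rw [hco]
    exact hx.p2 i
  -- the functional
  set L0 : ℂ[X] →ₗ[ℂ] ℂ := ∑ j : Fin (2 * d - 2), g (Sum.inl j) • leval (((j : ℕ) : ℂ)) with hL0
  have hL0e : ∀ f, L0 f = ∑ j : Fin (2 * d - 2), g (Sum.inl j) * f.eval (((j : ℕ) : ℂ)) := by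
    intro f
    rw [hL0, LinearMap.sum_apply]
    rfl
  set pi : Fin (2 * d - 2) → ℂ[X] := fun i => ∏ i' ∈ Finset.univ.erase i, (X - C (c i')) with hpi
  have hpiW : ∀ i, (X - C (c i)) * pi i = Wp := fun i =>
    Finset.mul_prod_erase Finset.univ (fun i' => X - C (c i')) (Finset.mem_univ i)
  set ρ : Nr π → Fin (2 * d - 2) → ℂ := fun k i =>
    if π.p1 k ≠ k then (if (k : Fin (2 * d - 2)) = i then 1 else 0) -
      (if π.p1 k = i then 1 else 0) else 0 with hρ
  -- directions which move one critical point
  have hR : ∀ i, W₀ * L0 (pi i) + ∑ k : Nr π, g (Sum.inr k) * ρ k i = 0 := by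
    intro i
    have h1 := hrel (Pi.single (Sum.inr (Sum.inl i)) 1)
    rw [Fintype.sum_sum_type] at h1
    have h2 : ∀ j, fderiv ℂ (Es S π (Sum.inl j)) y (Pi.single (Sum.inr (Sum.inl i)) 1) =
        W₀ * (pi i).eval (((j : ℕ) : ℂ)) := by
      intro j
      apply es_dir hy
      have h3 := er_c (S := S) (y := y) i j
      rw [hco] at h3
      refine h3.congr_deriv ?_
      rw [hpi]
      simp only [eval_prod, eval_sub, eval_X, eval_C]
      rfl
    have h3 : ∀ k : Nr π, fderiv ℂ (Es S π (Sum.inr k)) y (Pi.single (Sum.inr (Sum.inl i)) 1) =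
        ρ k i := by
      intro k
      apply es_dir hy
      by_cases hk : π.p1 k ≠ k
      · have e1 : (fun t : ℂ => Es S π (Sum.inr k)
            (y + t • (Pi.single (Sum.inr (Sum.inl i)) 1 : Ix d (2 * d + s) s → ℂ))) = fun t =>
            (yc y k - yc y (π.p1 k)) + t * ρ k i := by
          funext t
          change Ex S π k _ = _
          unfold Ex
          rw [if_pos hk, yc_single, yc_single, hρ]
          simp only [if_pos hk]
          ring
        rw [e1]
        have h4 := ((hasDerivAt_id (0 : ℂ)).mul_const (ρ k i)).const_add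
          (yc y k - yc y (π.p1 k))
        refine h4.congr_deriv ?_
        simp
      · have e1 : (fun t : ℂ => Es S π (Sum.inr k)
            (y + t • (Pi.single (Sum.inr (Sum.inl i)) 1 : Ix d (2 * d + s) s → ℂ))) = fun t =>
            cr (S.F (yx (y + t • (Pi.single (Sum.inr (Sum.inl i)) 1 : Ix d (2 * d + s) s → ℂ)))
              (yc (y + t • (Pi.single (Sum.inr (Sum.inl i)) 1 : Ix d (2 * d + s) s → ℂ)) k, 1))
            (S.F (yx (y + t • (Pi.single (Sum.inr (Sum.inl i)) 1 : Ix d (2 * d + s) s → ℂ)))
              (yc (y + t • (Pi.single (Sum.inr (Sum.inl i)) 1 : Ix d (2 * d + s) s → ℂ))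
                (π.p2 k), 1)) := by
          funext t
          change Ex S π k _ = _
          unfold Ex
          rw [if_neg hk]
        rw [e1, hρ]
        simp only [if_neg hk]
        exact cr_c hy i k (π.p2 k) (hcw _) (hcw _) (hcr _)
    rw [hL0e, Finset.mul_sum]
    rw [← h1]
    congr 1
    · refine Finset.sum_congr rfl fun j _ => ?_
      rw [h2]
      ring
    · exact Finset.sum_congr rfl fun k _ => by rw [h3]
  have hpi_eq : ∀ i i', c i = c i' → pi i = pi i' := by
    intro i i' h
    apply mul_left_cancel₀ (X_sub_C_ne_zero (c i))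
    rw [hpiW i, h, hpiW i']
  have hLpi : ∀ i, L0 (pi i) = 0 := by
    intro i
    set K : Finset (Fin (2 * d - 2)) := Finset.univ.filter (fun i' => π.p1 i' = π.p1 i) with hK
    have h1 : ∑ i' ∈ K, (W₀ * L0 (pi i') + ∑ k : Nr π, g (Sum.inr k) * ρ k i') = 0 :=
      Finset.sum_eq_zero fun i' _ => hR i'
    rw [Finset.sum_add_distrib, Finset.sum_comm] at h1
    have h2 : ∑ k : Nr π, ∑ i' ∈ K, g (Sum.inr k) * ρ k i' = 0 := by
      refine Finset.sum_eq_zero fun k _ => ?_
      rw [← Finset.mul_sum]
      apply mul_eq_zero_of_right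
      by_cases hk : π.p1 k ≠ k
      · simp only [hρ, if_pos hk]
        rw [Finset.sum_sub_distrib, Finset.sum_ite_eq, Finset.sum_ite_eq]
        have e1 : ((k : Fin (2 * d - 2)) ∈ K) ↔ (π.p1 k ∈ K) := by
          rw [hK, Finset.mem_filter, Finset.mem_filter, π.h11]
          simp
        by_cases h3 : (k : Fin (2 * d - 2)) ∈ K
        · rw [if_pos h3, if_pos (e1.1 h3), sub_self]
        · rw [if_neg h3, if_neg (fun h4 => h3 (e1.2 h4)), sub_self]
      · simp only [hρ, if_neg hk, Finset.sum_const_zero]
    rw [h2, add_zero] at h1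
    have h3 : ∑ i' ∈ K, W₀ * L0 (pi i') = K.card * (W₀ * L0 (pi i)) := by
      rw [Finset.sum_congr rfl (g := fun _ => W₀ * L0 (pi i)), Finset.sum_const, nsmul_eq_mul]
      intro i' hi'
      rw [hK, Finset.mem_filter] at hi'
      rw [hpi_eq i' i]
      rw [hx.p1 i', hx.p1 i, hi'.2]
    rw [h3] at h1
    have hK0 : (K.card : ℂ) ≠ 0 := by
      have : K.card ≠ 0 := by
        rw [Finset.card_ne_zero]
        exact ⟨i, by rw [hK, Finset.mem_filter]; simp⟩
      exact_mod_cast this
    exact (mul_eq_zero.1 ((mul_eq_zero.1 h1).resolve_left hK0)).resolve_left hW₀0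
  -- directions which move the parameter
  have hμ : ∀ k : Nr π, ∃ a : ℂ, a ≠ 0 ∧ P.eval (c (π.p2 k)) = a * P.eval (c k) ∧
      Q.eval (c (π.p2 k)) = a * Q.eval (c k) := by
    intro k
    have h1 := hcr k
    obtain ⟨a, ha, h2⟩ := (cr_eq_zero_iff (F_ne hy (vec_ne _)) (F_ne hy (vec_ne _))).1 h1
    unfold Sys.F at h2
    rw [hco, hF_one, hF_one] at h2
    have h5 := congrArg Prod.fst h2
    have h6 := congrArg Prod.snd h2
    simp only [Prod.smul_fst, Prod.smul_snd, smul_eq_mul] at h5 h6
    refine ⟨a⁻¹, inv_ne_zero ha, ?_, ?_⟩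
    · change (pol x 0).eval _ = a⁻¹ * (pol x 0).eval _
      rw [h5, inv_mul_cancel_left₀ ha]
    · change (pol x 1).eval _ = a⁻¹ * (pol x 1).eval _
      rw [h6, inv_mul_cancel_left₀ ha]
  choose a ha haP haQ using hμ
  have hU : ∀ A B : ℂ[X], A.degree < (d : WithBot ℕ) → B.degree < (d : WithBot ℕ) →
      (d : ℂ) * L0 (dW P Q A B - C ((dW P Q A B).coeff (2 * d - 2)) * Wp) +
        ∑ k : Nr π, g (Sum.inr k) * (if π.p1 k ≠ k then 0 else
          a k * (A * Q - P * B).eval (c k) - (a k)⁻¹ * (A * Q - P * B).eval (c (π.p2 k))) = 0 := by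
    intro A B hA hB
    obtain ⟨v, hv0, hv1⟩ := df_surj hA hB
    have h1 := hrel (dirU v)
    rw [Fintype.sum_sum_type] at h1
    rw [hL0e, Finset.mul_sum]
    refine Eq.trans ?_ h1
    congr 1
    · refine Finset.sum_congr rfl fun j _ => ?_
      have h2 : fderiv ℂ (Es S π (Sum.inl j)) y (dirU v) =
          d * ((dW P Q A B).eval ((j : ℕ) : ℂ) -
            (dW P Q A B).coeff (2 * d - 2) * ∏ i, (((j : ℕ) : ℂ) - yc y i)) := by
        apply es_dir hy
        have h3 := er_u hd hE hy v j
        rw [hv0, hv1] at h3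
        exact h3
      rw [h2, eval_sub, eval_mul, eval_C, hWp, eval_prod]
      simp only [eval_sub, eval_X, eval_C]
      ring
    · refine Finset.sum_congr rfl fun k _ => ?_
      congr 1
      symm
      apply es_dir hy
      by_cases hk : π.p1 k ≠ k
      · rw [if_pos hk]
        have e1 : (fun t : ℂ => Es S π (Sum.inr k) (y + t • dirU v)) = fun t =>
            (yc y k - yc y (π.p1 k)) := by
          funext t
          change Ex S π k _ = _
          unfold Ex
          rw [if_pos hk, yc_dirU, yc_dirU]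
        rw [e1]
        exact hasDerivAt_const _ _
      · rw [if_neg hk]
        have e1 : (fun t : ℂ => Es S π (Sum.inr k) (y + t • dirU v)) = fun t =>
            cr (S.F (yx (y + t • dirU v)) (yc (y + t • dirU v) k, 1))
              (S.F (yx (y + t • dirU v)) (yc (y + t • dirU v) (π.p2 k), 1)) := by
          funext t
          change Ex S π k _ = _
          unfold Ex
          rw [if_neg hk]
        rw [e1]
        have h3 := cr_u hE hy v (k : Fin (2 * d - 2)) (π.p2 k)
        rw [hv0, hv1] at h3
        refine h3.congr_deriv ?_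
        change A.eval (c k) * Q.eval (c (π.p2 k)) + P.eval (c k) * B.eval (c (π.p2 k)) -
          B.eval (c k) * P.eval (c (π.p2 k)) - Q.eval (c k) * A.eval (c (π.p2 k)) = _
        simp only [eval_sub, eval_mul]
        rw [haP k, haQ k]
        have := ha k
        field_simp
        ring
  -- the functional vanishes
  set L : ℂ[X] →ₗ[ℂ] ℂ := L0.comp (modByMonicHom Wp) with hL
  have hLe : ∀ f, L f = L0 (f %ₘ Wp) := fun f => rfl
  have hWdeg : Wp.degree = ((2 * d - 2 : ℕ) : WithBot ℕ) := by
    rw [degree_eq_natDegree hWm.ne_zero, hWd]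
  have hLzero : ∀ f, L f = 0 := by
    refine alg hd hPm hPd hQd hcop c (by simp) (w := W₀ / d) hW L ?_ ?_ ?_
    · intro f
      rw [hLe, (modByMonic_eq_zero_iff_dvd hWm).2 (Dvd.intro_left _ rfl), map_zero]
    · intro i
      rw [hLe, (modByMonic_eq_self_iff hWm).2 ?_]
      · exact hLpi i
      · have h1 := hpiW i
        have h2 : pi i ≠ 0 := by
          intro h
          rw [h, mul_zero] at h1
          exact hWm.ne_zero h1.symm
        have h3 := congrArg natDegree h1
        rw [natDegree_mul (X_sub_C_ne_zero _) h2, natDegree_X_sub_C, hWd] at h3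
        change (pi i).degree < _
        rw [hWdeg, degree_eq_natDegree h2]
        have h4 : (pi i).natDegree < 2 * d - 2 := by omega
        exact_mod_cast h4
    · intro A B hA hB hN
      have h1 := hU A B hA hB
      have h2 : ∑ k : Nr π, g (Sum.inr k) * (if π.p1 k ≠ k then 0 else
          a k * (A * Q - P * B).eval (c k) - (a k)⁻¹ * (A * Q - P * B).eval (c (π.p2 k))) = 0 := by
        refine Finset.sum_eq_zero fun k _ => ?_
        rw [hN, hN, mul_zero, mul_zero, sub_zero, ite_self, mul_zero]
      rw [h2, add_zero] at h1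
      have h3 := (mul_eq_zero.1 h1).resolve_left hd0
      rw [hLe]
      have h4 : dW P Q A B %ₘ Wp =
          dW P Q A B - C ((dW P Q A B).coeff (2 * d - 2)) * Wp := by
        refine (div_modByMonic_unique (C ((dW P Q A B).coeff (2 * d - 2))) _ hWm
          ⟨by ring, ?_⟩).2
        rw [hWdeg, degree_lt_iff_coeff_zero]
        intro j hj
        rw [coeff_sub, coeff_C_mul]
        rcases Nat.lt_or_ge (2 * d - 2) j with h | h
        · have e1 : (dW P Q A B).coeff j = 0 := coeff_eq_zero_of_natDegree_lt
            (lt_of_le_of_lt (dW_natDegree hd hPd.le hQd hA hB) h)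
          have e2 : Wp.coeff j = 0 := coeff_eq_zero_of_natDegree_lt (by rw [hWd]; exact h)
          rw [e1, e2, mul_zero, sub_zero]
        · have hjd : j = 2 * d - 2 := le_antisymm h hj
          have h5 : Wp.coeff (2 * d - 2) = 1 := by rw [← hWd]; exact hWm.coeff_natDegree
          rw [hjd, h5, mul_one, sub_self]
      rw [h4]
      exact h3
  have hL0lt : ∀ f : ℂ[X], f.degree < Wp.degree → L0 f = 0 := by
    intro f hf
    have h1 := hLzero f
    rwa [hLe, (modByMonic_eq_self_iff hWm).2 hf] at h1
  have hgl : ∀ j, g (Sum.inl j) = 0 := by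
    intro j
    set f : ℂ[X] := ∏ j' ∈ Finset.univ.erase j, (X - C (((j' : Fin (2 * d - 2)) : ℕ) : ℂ)) with hf
    have h1 : f.degree < Wp.degree := by
      have h2 : f.Monic := monic_prod_of_monic _ _ fun i _ => monic_X_sub_C _
      have h3 : f.natDegree = 2 * d - 2 - 1 := by
        rw [hf, natDegree_prod_of_monic _ _ fun i _ => monic_X_sub_C _,
          Finset.sum_congr rfl (fun i _ => natDegree_X_sub_C _), Finset.sum_const, smul_eq_mul,
          mul_one, Finset.card_erase_of_mem (Finset.mem_univ _), Finset.card_univ,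
          Fintype.card_fin]
      rw [hWdeg, degree_eq_natDegree h2.ne_zero, h3]
      have h4 : 2 * d - 2 - 1 < 2 * d - 2 := by omega
      exact_mod_cast h4
    have h2 := hL0lt f h1
    rw [hL0e, Finset.sum_eq_single j] at h2
    · refine (mul_eq_zero.1 h2).resolve_right ?_
      rw [hf, eval_prod]
      refine Finset.prod_ne_zero_iff.2 ?_
      intro j' hj'
      simp only [eval_sub, eval_X, eval_C]
      rw [sub_ne_zero]
      intro h
      have h5 : (j : ℕ) = (j' : ℕ) := by exact_mod_cast h
      exact (Finset.ne_of_mem_erase hj') (Fin.ext h5.symm)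
    · intro j' _ hj'
      apply mul_eq_zero_of_right
      rw [hf, eval_prod]
      exact Finset.prod_eq_zero (Finset.mem_erase.2 ⟨hj', Finset.mem_univ _⟩) (by simp)
    · intro h
      exact absurd (Finset.mem_univ j) h
  have hL00 : ∀ f, L0 f = 0 := by
    intro f
    rw [hL0e]
    exact Finset.sum_eq_zero fun j _ => by rw [hgl, zero_mul]
  have hga : ∀ k : Nr π, π.p1 k ≠ k → g (Sum.inr k) = 0 := by
    intro k hk
    have h1 := hR k
    rw [hL00, mul_zero, zero_add, Finset.sum_eq_single k] at h1
    · simp only [hρ, if_pos hk, if_neg hk, if_true] at h1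
      simpa using h1
    · intro k' _ hk'
      by_cases hk2 : π.p1 k' ≠ k'
      · simp only [hρ, if_pos hk2]
        rw [if_neg (fun h => hk' (Subtype.ext h)), if_neg, sub_zero, mul_zero]
        intro h
        apply hk
        rw [← h, π.h11]
      · simp only [hρ, if_neg hk2, mul_zero]
    · intro h
      exact absurd (Finset.mem_univ k) h
  have hgb : ∀ k : Nr π, π.p1 k = k → g (Sum.inr k) = 0 := by
    intro k hk
    set Z : Finset ℂ := (Finset.univ.image c).erase (c k) with hZ
    set N : ℂ[X] := ∏ z ∈ Z, (X - C z) with hN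
    have hNk : N.eval (c k) ≠ 0 := by
      rw [hN, eval_prod, Finset.prod_ne_zero_iff]
      intro z hz
      simp only [eval_sub, eval_X, eval_C]
      rw [hZ, Finset.mem_erase] at hz
      exact sub_ne_zero.2 hz.1.symm
    have hNi : ∀ i, c i ≠ c k → N.eval (c i) = 0 := by
      intro i hi
      rw [hN, eval_prod]
      refine Finset.prod_eq_zero (i := c i) ?_ (by simp)
      rw [hZ, Finset.mem_erase]
      exact ⟨hi, Finset.mem_image_of_mem _ (Finset.mem_univ _)⟩
    have hNd : N.degree < ((2 * d : ℕ) : WithBot ℕ) := by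
      have h2 : N.Monic := monic_prod_of_monic _ _ fun i _ => monic_X_sub_C _
      have h3 : N.natDegree = Z.card := by
        rw [hN, natDegree_prod_of_monic _ _ fun i _ => monic_X_sub_C _]
        simp
      have h4 : Z.card ≤ 2 * d - 2 := by
        refine (Finset.card_erase_le).trans (Finset.card_image_le.trans ?_)
        simp
      rw [degree_eq_natDegree h2.ne_zero, h3]
      have h5 : Z.card < 2 * d := by omega
      exact_mod_cast h5
    obtain ⟨A, B, hA, hB, hAB⟩ := solve hPm hPd hQd hcop hNd
    have h1 := hU A B hA hB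
    rw [hL00, mul_zero, zero_add, hAB, Finset.sum_eq_single k] at h1
    · rw [if_neg (not_not.2 hk), hNi (π.p2 k), mul_zero, sub_zero] at h1
      · exact (mul_eq_zero.1 h1).resolve_right (mul_ne_zero (ha k) hNk)
      · intro h
        have h2 := hx.q1 _ _ h
        rw [π.h12, hk] at h2
        exact k.2 h2
    · intro k' _ hk'
      by_cases hk2 : π.p1 k' ≠ k'
      · rw [if_pos hk2, mul_zero]
      · rw [if_neg hk2, hNi k', hNi (π.p2 k'), mul_zero, mul_zero, sub_zero, mul_zero]
        · intro h
          have h2 := hx.q1 _ _ h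
          rw [π.h12, hk] at h2
          apply k.2
          rw [← h2, π.h22]
        · intro h
          have h2 := hx.q1 _ _ h
          rw [hk, not_not.1 hk2] at h2
          exact hk' (Subtype.ext h2)
    · intro h
      exact absurd (Finset.mem_univ k) h
  intro b
  rcases b with j | k
  · exact hgl j
  · by_cases hk : π.p1 k = k
    · exact hgb k hk
    · exact hga k hk

end Pool.Agent.H207.CS
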