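import Mathlib
import Pool.Agent.H207.CS.Emin
import Pool.Graph.R_seed8.W63.REGENX

/-! Project CS: genericity inside a stratum, by affine changes of the target. -/

set_option autoImplicit false

open Topology Filter Metric Set Polynomial
open Pool.Agent.H790R3.RB (CV hF cr ND wr rt Ix yx yc pol cr_eq_zero_iff cr_smul_right cr_smul_left
  cr_self cr_comm wr_contDiff hF_smul hF_iter_smul hF_iter_differentiable)
open Pool.Agent.H790R3.RB.PQ (pol_coeff pol_coeff_gt hF_one hF_inf)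
open Pool.Agent.W757.RD
open Pool.Agent.W757.QR (nu de wn)

namespace Pool.Agent.H207.CS

/-- affine change of the target -/
noncomputable def xx {d : ℕ} (x : CV d) (a t : ℂ) : CV d := fun p =>
  if p.1 = 0 then a * x (0, p.2) + t * x (1, p.2) else x (1, p.2)

theorem xx_one {d : ℕ} (x : CV d) : xx x 1 0 = x := by
  funext p
  obtain ⟨i, j⟩ := p
  fin_cases i <;> simp [xx]

theorem hF_xx {d : ℕ} (x : CV d) (a t : ℂ) (p : ℂ × ℂ) :
    hF (xx x a t) p = (a * (hF x p).1 + t * (hF x p).2, (hF x p).2) := by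
  unfold hF xx
  ext
  · simp only [if_true]
    rw [Finset.mul_sum, Finset.mul_sum, ← Finset.sum_add_distrib]
    exact Finset.sum_congr rfl fun j _ => by ring
  · simp

theorem wr_xx {d : ℕ} (x : CV d) (a t : ℂ) (p : ℂ × ℂ) : wr (xx x a t) p = a * wr x p := by
  rw [Pool.Agent.H790R3.RB.WR.wr_eq, Pool.Agent.H790R3.RB.WR.wr_eq]
  have h1 : Pool.Agent.H790R3.RB.WR.SU (fun j => xx x a t (0, j)) p =
      a * Pool.Agent.H790R3.RB.WR.SU (fun j => x (0, j)) p +
        t * Pool.Agent.H790R3.RB.WR.SU (fun j => x (1, j)) p := by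
    unfold Pool.Agent.H790R3.RB.WR.SU xx
    rw [Finset.mul_sum, Finset.mul_sum, ← Finset.sum_add_distrib]
    exact Finset.sum_congr rfl fun j _ => by simp only [if_true]; ring
  have h2 : Pool.Agent.H790R3.RB.WR.SV (fun j => xx x a t (0, j)) p =
      a * Pool.Agent.H790R3.RB.WR.SV (fun j => x (0, j)) p +
        t * Pool.Agent.H790R3.RB.WR.SV (fun j => x (1, j)) p := by
    unfold Pool.Agent.H790R3.RB.WR.SV xx
    rw [Finset.mul_sum, Finset.mul_sum, ← Finset.sum_add_distrib]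
    exact Finset.sum_congr rfl fun j _ => by simp only [if_true]; ring
  have h3 : (fun j => xx x a t (1, j)) = fun j => x (1, j) := by
    funext j
    simp [xx]
  rw [h1, h2, h3]
  ring

theorem cr_xx {d : ℕ} (x : CV d) (a t : ℂ) (p p' : ℂ × ℂ) :
    cr (hF (xx x a t) p) (hF (xx x a t) p') = a * cr (hF x p) (hF x p') := by
  rw [hF_xx, hF_xx]
  unfold cr
  ring

theorem hF_csmul {d : ℕ} (b : ℂ) (x : CV d) (p : ℂ × ℂ) : hF (b • x) p = b • hF x p :=
  Pool.Agent.W440.RE.GENM.hF_smul_left b x p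

/-- iterates of a multiple -/
theorem iter_csmul {d : ℕ} {b : ℂ} (hb : b ≠ 0) (x : CV d) (p : ℂ × ℂ) (q : ℕ) :
    ∃ s : ℂ, s ≠ 0 ∧ (hF (b • x))^[q] p = s • (hF x)^[q] p := by
  induction q with
  | zero => exact ⟨1, one_ne_zero, by simp⟩
  | succ q ih =>
    obtain ⟨s, hs, h⟩ := ih
    refine ⟨b * s ^ d, mul_ne_zero hb (pow_ne_zero _ hs), ?_⟩
    rw [Function.iterate_succ_apply', h, hF_csmul, hF_smul, smul_smul,
      Function.iterate_succ_apply']

theorem iter_xx_zero {d : ℕ} (x : CV d) {c t : ℂ} (hc : (hF x (c, 1)).2 ≠ 0)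
    (ht : (hF x (t, 1)).2 ≠ 0) (q : ℕ) :
    ∃ s : ℂ, s ≠ 0 ∧ (hF (xx x 0 t))^[q + 1] (c, 1) = s • ((t, 1) : ℂ × ℂ) := by
  have h1 : ∀ p, hF (xx x 0 t) p = (hF x p).2 • ((t, 1) : ℂ × ℂ) := by
    intro p
    rw [hF_xx]
    ext
    · simp [mul_comm]
    · simp
  induction q with
  | zero => exact ⟨_, hc, by rw [zero_add, Function.iterate_one, h1]⟩
  | succ q ih =>
    obtain ⟨s, hs, h⟩ := ih
    refine ⟨s ^ d * (hF x (t, 1)).2, mul_ne_zero (pow_ne_zero _ hs) ht, ?_⟩
    rw [Function.iterate_succ_apply', h, hF_smul, h1, smul_smul]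

theorem iter_xx_inf {d : ℕ} {x : CV d} (hx : Nrm x) {a : ℂ} (ha : a ≠ 0) (t : ℂ) {c : ℂ}
    (hc : (hF x (c, 1)).2 = 0) (hc' : (hF x (c, 1)).1 ≠ 0) (q : ℕ) :
    ∃ s : ℂ, s ≠ 0 ∧ (hF (xx x a t))^[q + 1] (c, 1) = (s, 0) := by
  have h0 : hF x (1, 0) = (1, 0) := by
    rw [hF_inf]
    have e0 := pol_coeff x 0 (Fin.last d)
    have e1 := pol_coeff x 1 (Fin.last d)
    rw [Fin.val_last] at e0 e1
    rw [e0, e1, hx.1, hx.2]
  induction q with
  | zero =>
    refine ⟨a * (hF x (c, 1)).1, mul_ne_zero ha hc', ?_⟩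
    rw [zero_add, Function.iterate_one, hF_xx, hc, mul_zero, add_zero]
  | succ q ih =>
    obtain ⟨s, hs, h⟩ := ih
    refine ⟨a * s ^ d, mul_ne_zero ha (pow_ne_zero _ hs), ?_⟩
    rw [Function.iterate_succ_apply', h]
    have h2 : ((s, 0) : ℂ × ℂ) = s • ((1, 0) : ℂ × ℂ) := by ext <;> simp
    rw [h2, hF_smul, hF_xx, h0]
    ext
    · simp [mul_comm]
    · simp

/-- Genericity inside a stratum. -/
theorem gen (hFM : StFM) {d : ℕ} (hd : 2 ≤ d) {u₁ : Fin (2 * d) → ℂ} (hu₁ : u₁ ∈ U₀ d)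
    {π : Pat (2 * d - 2)} {c : Fin (2 * d - 2) → ℂ} (hx : Exa π u₁ c) {q : ℕ} (hq : 1 ≤ q)
    {ε : ℝ} (hε : 0 < ε) :
    ∃ u : Fin (2 * d) → ℂ, ‖u - u₁‖ < ε ∧ u ∈ U₀ d ∧ Exa π u c ∧
      ∀ p : ℂ × ℂ, p ≠ 0 → wr (fam u) p = 0 → cr ((hF (fam u))^[q] p) p ≠ 0 := by
  classical
  obtain ⟨-, -, hiso, -, hsurj⟩ := hFM d hd
  obtain ⟨q', rfl⟩ : ∃ q', q = q' + 1 := ⟨q - 1, by omega⟩
  set x := fam u₁ with hxdef
  have hN : Nrm x := fam_nrm u₁
  have hND : ND x := hu₁.1
  have hW : wr x (1, 0) ≠ 0 := hu₁.2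
  -- the functions which must not vanish
  set D : Fin (2 * d - 2) → ℂ × ℂ → ℂ := fun i w =>
    if (hF x (c i, 1)).2 = 0 then 1 else cr ((hF (xx x w.1 w.2))^[q' + 1] (c i, 1)) (c i, 1)
    with hD
  have hxxd : Differentiable ℂ (fun w : ℂ × ℂ => xx x w.1 w.2) := by
    rw [differentiable_pi]
    intro p
    unfold xx
    split_ifs
    · exact (differentiable_fst.mul_const _).add (differentiable_snd.mul_const _)
    · exact differentiable_const _
  have hDd : ∀ i, Differentiable ℂ (D i) := by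
    intro i
    by_cases h : (hF x (c i, 1)).2 = 0
    · have e1 : D i = fun _ => 1 := by
        funext w
        simp only [hD, if_pos h]
      rw [e1]
      exact differentiable_const _
    · have e1 : D i = fun w => cr ((hF (xx x w.1 w.2))^[q' + 1] (c i, 1)) (c i, 1) := by
        funext w
        simp only [hD, if_neg h]
      rw [e1]
      have e2 : Differentiable ℂ (fun w : ℂ × ℂ => (hF (xx x w.1 w.2))^[q' + 1] (c i, 1)) :=
        (hF_iter_differentiable d (q' + 1)).comp (hxxd.prodMk (differentiable_const (c i, (1 : ℂ))))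
      unfold cr
      exact (e2.fst.mul_const _).sub (e2.snd.mul_const _)
  have hDn : ∀ i, ∃ w : ℂ × ℂ, D i w ≠ 0 := by
    intro i
    by_cases h : (hF x (c i, 1)).2 = 0
    · refine ⟨0, ?_⟩
      simp only [hD, if_pos h]
      exact one_ne_zero
    · have h1 : (pol x 1).eval (c i) ≠ 0 := by
        rw [hF_one] at h
        exact h
      obtain ⟨t, ht⟩ : ∃ t : ℂ, (pol x 1 * (X - C (c i))).eval t ≠ 0 := by
        by_contra hcon
        push Not at hcon
        have h2 : pol x 1 * (X - C (c i)) = 0 := Polynomial.funext (by simpa using hcon)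
        rcases mul_eq_zero.1 h2 with h3 | h3
        · rw [h3, eval_zero] at h1
          exact h1 rfl
        · exact X_sub_C_ne_zero _ h3
      rw [eval_mul, eval_sub, eval_X, eval_C] at ht
      have ht1 := left_ne_zero_of_mul ht
      have ht2 := right_ne_zero_of_mul ht
      refine ⟨(0, t), ?_⟩
      simp only [hD, if_neg h]
      obtain ⟨s, hs, h4⟩ := iter_xx_zero x (c := c i) (t := t) h (by rw [hF_one]; exact ht1) q'
      rw [h4, cr_smul_left]
      refine mul_ne_zero hs ?_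
      unfold cr
      simpa using ht2
  have hdense : Dense (⋂ i, {w | D i w ≠ 0}) := by
    refine dense_iInter_of_isOpen (fun i => ?_) (fun i => ?_)
    · exact isOpen_ne_fun (hDd i).continuous continuous_const
    · obtain ⟨w, hw⟩ := hDn i
      exact Pool.Agent.W63.REGENX.dense_ne (hDd i) hw
  -- the neighbourhood
  have hcont : ContinuousAt (fun w : ℂ × ℂ => w.1⁻¹ • xx x w.1 w.2) (1, 0) := by
    have e1 : ContinuousAt (fun w : ℂ × ℂ => w.1⁻¹) (1, 0) :=
      continuousAt_fst.inv₀ one_ne_zero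
    have e2 : ContinuousAt (fun w : ℂ × ℂ => xx x w.1 w.2) (1, 0) := hxxd.continuous.continuousAt
    exact e1.smul e2
  have hval : (fun w : ℂ × ℂ => w.1⁻¹ • xx x w.1 w.2) (1, 0) = x := by
    simp only [inv_one, one_smul]
    exact xx_one x
  have hev : ∀ᶠ w : ℂ × ℂ in 𝓝 (1, 0), ‖w.1⁻¹ • xx x w.1 w.2 - x‖ < ε ∧ w.1 ≠ 0 := by
    refine Filter.Eventually.and ?_ ?_
    · have h1 : Tendsto (fun w : ℂ × ℂ => ‖w.1⁻¹ • xx x w.1 w.2 - x‖) (𝓝 (1, 0)) (𝓝 0) := by
        have h2 := (hcont.tendsto.sub_const x).norm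
        have h3 : ‖(fun w : ℂ × ℂ => w.1⁻¹ • xx x w.1 w.2) (1, 0) - x‖ = 0 := by
          rw [hval, sub_self, norm_zero]
        rw [← h3]
        exact h2
      exact h1.eventually (gt_mem_nhds hε)
    · exact continuousAt_fst.eventually_ne one_ne_zero
  obtain ⟨⟨a, t⟩, hw2, hw1, ha⟩ := (hdense.inter_nhds_nonempty hev)
  simp only at hw1 ha
  rw [mem_iInter] at hw2
  set y : CV d := a⁻¹ • xx x a t with hy
  have hai : a⁻¹ ≠ 0 := inv_ne_zero ha
  have hyN : Nrm y := by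
    constructor
    · simp only [hy, Pi.smul_apply, smul_eq_mul, xx, if_true]
      rw [hN.1, hN.2, mul_zero, add_zero, mul_one, inv_mul_cancel₀ ha]
    · simp only [hy, Pi.smul_apply, smul_eq_mul, xx, one_ne_zero, if_false]
      rw [hN.2, mul_zero]
  obtain ⟨u, hu⟩ := hsurj y hyN
  have hwr : ∀ p, wr y p = a⁻¹ * wr x p := by
    intro p
    rw [hy, Pool.Agent.H790R3.RB.HYP.wr_csmul, wr_xx]
    field_simp
  have hcr : ∀ p p', cr (hF y p) (hF y p') = a⁻¹ * cr (hF x p) (hF x p') := by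
    intro p p'
    rw [hy, hF_csmul, hF_csmul, cr_smul_left, cr_smul_right, cr_xx]
    field_simp
  refine ⟨u, ?_, ⟨?_, ?_⟩, ⟨⟨?_, ?_, ?_⟩, ?_, ?_⟩, ?_⟩
  · rw [← hiso, hu]
    exact hw1
  · rw [hu]
    intro p hp
    apply hND
    rw [hy, hF_csmul, smul_eq_zero] at hp
    have h1 := hp.resolve_left hai
    rw [hF_xx] at h1
    have h2 : (hF x p).2 = 0 := congrArg Prod.snd h1
    have h3 : a * (hF x p).1 + t * (hF x p).2 = 0 := congrArg Prod.fst h1
    rw [h2, mul_zero, add_zero] at h3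
    exact Prod.ext ((mul_eq_zero.1 h3).resolve_left ha) h2
  · rw [hu, hwr]
    exact mul_ne_zero hai hW
  · intro ζ
    rw [hu, hwr, hwr, hx.crit ζ]
    ring
  · exact hx.p1
  · intro i
    rw [hu, hcr, hx.p2, mul_zero]
  · exact hx.q1
  · intro i j hij
    rw [hu, hcr] at hij
    exact hx.q2 i j ((mul_eq_zero.1 hij).resolve_left hai)
  · intro p hp hwp
    rw [hu] at hwp ⊢
    rw [hwr] at hwp
    have hwp' := (mul_eq_zero.1 hwp).resolve_left hai
    have hp2 : p.2 ≠ 0 := by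
      intro h2
      have hp1 : p.1 ≠ 0 := fun h1 => hp (Prod.ext h1 h2)
      have h3 : p = p.1 • ((1, 0) : ℂ × ℂ) := by ext <;> simp [h2]
      rw [h3, (Pool.Agent.H790R3.RB.WR d x hd).1] at hwp'
      rcases mul_eq_zero.1 hwp' with h4 | h4
      · exact pow_ne_zero _ hp1 h4
      · exact hW h4
    set ζ : ℂ := p.1 / p.2 with hζ
    have hpζ : p = p.2 • ((ζ, 1) : ℂ × ℂ) := by
      ext
      · simp [hζ, mul_div_cancel₀ _ hp2]
      · simp
    have hζw : wr x (ζ, 1) = 0 := by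
      rw [hpζ, (Pool.Agent.H790R3.RB.WR d x hd).1] at hwp'
      exact (mul_eq_zero.1 hwp').resolve_left (pow_ne_zero _ hp2)
    rw [hx.crit ζ] at hζw
    obtain ⟨i, -, hi⟩ := Finset.prod_eq_zero_iff.1 ((mul_eq_zero.1 hζw).resolve_left hW)
    have hζi : ζ = c i := sub_eq_zero.1 hi
    have hmain : cr ((hF (xx x a t))^[q' + 1] (c i, 1)) (c i, 1) ≠ 0 := by
      by_cases h : (hF x (c i, 1)).2 = 0
      · have h' : (hF x (c i, 1)).1 ≠ 0 := by
          intro h1
          have := hND (c i, 1) (Prod.ext h1 h)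
          have h2 := congrArg Prod.snd this
          simp at h2
        obtain ⟨s, hs, h4⟩ := iter_xx_inf hN ha t h h' q'
        rw [h4]
        unfold cr
        simpa using hs
      · have h5 := hw2 i
        simp only [hD, if_neg h] at h5
        exact h5
    obtain ⟨s, hs, h6⟩ := iter_csmul hai (xx x a t) (c i, 1) (q' + 1)
    rw [hpζ, hF_iter_smul, cr_smul_left, cr_smul_right, hζi, hy, h6, cr_smul_left]
    exact mul_ne_zero (pow_ne_zero _ hp2) (mul_ne_zero hp2 (mul_ne_zero hs hmain))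

end Pool.Agent.H207.CS
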