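import Mathlib
import Pool.Agent.H207.CS.Conj
import Pool.Graph.R_seed8.W757.RD.StN
import Pool.Graph.R_seed8.W462.RENORM

/-! Project CS: normalisation (adapted from `Pool.Agent.W462.RENORM.task`). -/

set_option autoImplicit false

open Topology Filter Metric Set MeasureTheory
open Pool.Agent.H790R3.RB (CV hF cr ND wr rt sp pr hc HypTop Attd Sink)
open Pool.Agent.W757.RD
open Pool.Agent.W462.RENORM (closed_na)
open Pool.Agent.W364.NM (ap ad dt mt mb_eq dt_mt vne)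
open scoped OnePoint

namespace Pool.Agent.H207.CS

/-- Normalisation. -/
def PNORM : Prop :=
  ∀ (β : ℝ) (d : ℕ) (x₀ : CV d) (q₀ : OnePoint ℂ), 1 / 2 < β → β < 1 → 2 ≤ d → ND x₀ →
    sp x₀ q₀ = q₀ → wr x₀ (hc q₀) ≠ 0 → ∃ u₀ : Fin (2 * d) → ℂ, u₀ ∈ U₀ d ∧ Gz (fam u₀) ∧
      ∀ ε : ℝ, 0 < ε → ∃ C B δ : ℝ, 0 < C ∧ 0 < B ∧ 0 < δ ∧ ∃ V ∈ 𝓝 q₀, ∀ x : CV d,
        ‖x - x₀‖ < δ → ∀ q ∈ V, sp x q = q → (∀ p : ℕ, ¬ Sink (sp x) p q) → ∀ a : ℝ, 0 < a →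
        a < δ → sar {z : ℂ | ¬ Attd (sp x) (z : OnePoint ℂ)} ≤ ENNReal.ofReal a →
        ∃ (u₁ : Fin (2 * d) → ℂ) (h : OnePoint ℂ ≃ₜ OnePoint ℂ) (m : (ℂ × ℂ) × (ℂ × ℂ)),
          ‖u₁ - u₀‖ < ε ∧ dt m ≠ 0 ∧ (∀ p : ℂ × ℂ, p ≠ 0 → h (pr p) = pr (ap m p)) ∧
          (∀ z, h (sp x z) = sp (fam u₁) (h z)) ∧
          (∀ p : ℕ, ¬ Sink (sp (fam u₁)) p ∞) ∧
          (∀ j : Fin 2, Attd (sp (fam u₁)) ((bz j : ℂ) : OnePoint ℂ)) ∧
          mu β {z : ℂ | ¬ Attd (sp (fam u₁)) (z : OnePoint ℂ)} ≤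
            ENNReal.ofReal (B * a ^ (2 * β - 1)) ∧
          ∀ u : Fin (2 * d) → ℂ, ‖u - u₁‖ < 1 → ND (fam u) →
            ∃ x' : CV d, ‖x' - x‖ ≤ C * ‖u - u₁‖ ∧ ND x' ∧ ∀ z, h (sp x' z) = sp (fam u) (h z)

theorem pnorm (hNM : StNM) (hNA : StNA) (hMU : StMU) : PNORM := by
  intro β d x₀ q₀ hβ hβ1 hd hx₀ hq₀ hw₀
  obtain ⟨b₁, b₂, u₀, hb, hb1, hb2, hu₀, hG, H⟩ := hNM d x₀ q₀ hd hx₀ hq₀ hw₀
  refine ⟨u₀, hu₀, hG, ?_⟩
  intro ε hε
  obtain ⟨C, δ₁, hC, hδ₁, V₁, hV₁, H1⟩ := H ε hε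
  obtain ⟨B, δ₂, hB, hδ₂, V₂, hV₂, H2⟩ := hNA β q₀ b₁ b₂ hβ hβ1 hb hb1 hb2 δ₁ hδ₁
  obtain ⟨δ₃, hδ₃, hball⟩ := Metric.eventually_nhds_iff.1 (Pool.Agent.H790R3.RB.FAM.ND_open hx₀)
  refine ⟨C, B, min δ₁ (min δ₂ δ₃), hC, hB, lt_min hδ₁ (lt_min hδ₂ hδ₃), V₁ ∩ V₂,
    inter_mem hV₁ hV₂, ?_⟩
  intro x hx q hq hfix hns a ha haδ hsar
  have hxd1 : ‖x - x₀‖ < δ₁ := lt_of_lt_of_le hx (min_le_left _ _)
  have hxd3 : ‖x - x₀‖ < δ₃ := lt_of_lt_of_le hx ((min_le_right _ _).trans (min_le_right _ _))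
  have had2 : a < δ₂ := lt_of_lt_of_le haδ ((min_le_right _ _).trans (min_le_left _ _))
  have hND : ND x := hball (by rw [dist_eq_norm]; exact hxd3)
  set E : Set ℂ := {z : ℂ | ¬ Attd (sp x) (z : OnePoint ℂ)} with hE
  have hEm : MeasurableSet E := closed_na hd hND
  obtain ⟨a₁, a₂, ha1, ha2, ha1E, ha2E, hmu⟩ := H2 q hq.2 E hEm a ha had2 hsar
  obtain ⟨u₁, h, Q, hQ0, hQq, hh, hhq, hh1, hh2, hu, hs, hx'⟩ :=
    H1 x hxd1 q hq.1 hfix a₁ a₂ ha1 ha2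
  have hs1 : ∀ z, sp (fam u₁) (h z) = h (sp x z) := fun z => (hs z).symm
  have hs2 : ∀ (y : CV d) (u : Fin (2 * d) → ℂ), (∀ z, h (sp y z) = sp (fam u) (h z)) →
      ∀ z, sp y (h.symm z) = h.symm (sp (fam u) z) := by
    intro y u hyu z
    apply h.injective
    rw [hyu, h.apply_symm_apply, h.apply_symm_apply]
  refine ⟨u₁, h, mt a₁ a₂ Q, hu, ?_, fun p hp => by rw [hh p hp, mb_eq], hs, ?_, ?_, ?_, ?_⟩
  · rw [dt_mt]
    have n1 : (a₁ : OnePoint ℂ) ≠ q := by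
      intro e
      rw [e, hhq] at hh1
      exact (OnePoint.infty_ne_coe _) hh1
    have n2 : (a₂ : OnePoint ℂ) ≠ q := by
      intro e
      rw [e, hhq] at hh2
      exact (OnePoint.infty_ne_coe _) hh2
    have n3 : a₂ ≠ a₁ := by
      intro e
      rw [e, hh1] at hh2
      have := OnePoint.coe_injective hh2
      exact zero_ne_one this
    have hv : ∀ a : ℂ, (a : OnePoint ℂ) ≠ q → cr (a, 1) Q ≠ 0 := by
      intro a ha hcr
      apply ha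
      have h1 := (pr_eq_iff (vne a) hQ0).2 hcr
      rw [hQq] at h1
      rw [← h1]
      simp [pr]
    exact mul_ne_zero (mul_ne_zero (hv a₂ n2) (sub_ne_zero.2 n3)) (hv a₁ n1)
  · intro p hp
    apply hns p
    have := Pool.Agent.H790R3.RB.ALL.sink h.symm (hs2 x u₁ hs) hp
    rwa [← hhq, h.symm_apply_apply] at this
  · have e1 : Attd (sp x) (a₁ : OnePoint ℂ) := by
      by_contra hcon
      exact ha1E hcon
    have e2 : Attd (sp x) (a₂ : OnePoint ℂ) := by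
      by_contra hcon
      exact ha2E hcon
    have f1 := Pool.Agent.H790R3.RB.ALL.attd h hs1 e1
    have f2 := Pool.Agent.H790R3.RB.ALL.attd h hs1 e2
    rw [hh1] at f1
    rw [hh2] at f2
    intro j
    fin_cases j
    · simpa [bz] using f1
    · simpa [bz] using f2
  · have hle := hmu h Q hQ0 hQq hh
    have hsub : {z : ℂ | ¬ Attd (sp (fam u₁)) (z : OnePoint ℂ)} ⊆
        {w : ℂ | ∃ z ∈ E, h (z : OnePoint ℂ) = (w : OnePoint ℂ)} ∪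
          {w : ℂ | h ∞ = (w : OnePoint ℂ)} := by
      intro w hw
      have hw1 : ¬ Attd (sp x) (h.symm (w : OnePoint ℂ)) := by
        intro hA
        apply hw
        have := Pool.Agent.H790R3.RB.ALL.attd h hs1 hA
        rwa [h.apply_symm_apply] at this
      rcases ne_or_eq (h.symm (w : OnePoint ℂ)) ∞ with hc | hc
      · obtain ⟨z, hz⟩ := OnePoint.ne_infty_iff_exists.1 hc
        left
        refine ⟨z, ?_, ?_⟩
        · show ¬ Attd (sp x) (z : OnePoint ℂ)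
          rw [hz]; exact hw1
        · rw [hz, h.apply_symm_apply]
      · right
        show h ∞ = (w : OnePoint ℂ)
        rw [← hc, h.apply_symm_apply]
    have hsing : mu β {w : ℂ | h ∞ = (w : OnePoint ℂ)} = 0 := by
      rw [← (hMU β hβ hβ1).2]
      refine Set.Subsingleton.measure_zero ?_ _
      intro w hw w' hw'
      exact OnePoint.coe_injective (hw.symm.trans hw')
    calc mu β {z : ℂ | ¬ Attd (sp (fam u₁)) (z : OnePoint ℂ)}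
        ≤ mu β ({w : ℂ | ∃ z ∈ E, h (z : OnePoint ℂ) = (w : OnePoint ℂ)} ∪
          {w : ℂ | h ∞ = (w : OnePoint ℂ)}) := measure_mono hsub
      _ ≤ mu β {w : ℂ | ∃ z ∈ E, h (z : OnePoint ℂ) = (w : OnePoint ℂ)} +
          mu β {w : ℂ | h ∞ = (w : OnePoint ℂ)} := measure_union_le _ _
      _ = mu β {w : ℂ | ∃ z ∈ E, h (z : OnePoint ℂ) = (w : OnePoint ℂ)} := by
          rw [hsing, add_zero]
      _ ≤ _ := hle
  · exact hx'

end Pool.Agent.H207.CS
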