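import Mathlib
import Pool.Agent.H207.CS.Norm
import Pool.Graph.R_seed8.W462.RESEQ
import Pool.Graph.R_seed8.W757.RD.Base

/-! Project CS: from the universal family to all rational maps (adapted from
`Pool.Agent.W462.RESEQ`). -/

set_option autoImplicit false

open Topology Filter Metric Set MeasureTheory
open Pool.Agent.H790R3.RB (CV hF cr ND wr rt sp pr hc HypTop Attd Sink hF_contDiff)
open Pool.Agent.W324.RQOPA (ph ph_open ph_cont sp_ph exists_chart)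
open Pool.Agent.H790R3.RB.FAM (cp cp_ne cp_cont zb)
open Pool.Agent.W757.RD
open Pool.Agent.W364.NM (ap ad dt ad_ap sp_pr vne pr_csmul ap_ne)
open scoped OnePoint

namespace Pool.Agent.H207.CS

/-- the critical points `c'` of `x'` have the coincidences of the critical points `c` of `x`, and so
have their values -/
structure Coin {d : ℕ} (x x' : CV d) (c c' : Fin (2 * d - 2) → OnePoint ℂ) : Prop where
  hc : HC x' c'
  h1 : ∀ i j, c i = c j → c' i = c' j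
  h2 : ∀ i j, sp x (c i) = sp x (c j) → sp x' (c' i) = sp x' (c' j)

/-- Local bound of the distance to the hyperbolic maps inside the strata. -/
def PSEQ : Prop :=
  ∀ (γ : ℝ) (d : ℕ) (x₀ : CV d), 0 < γ → γ < 1 / 2 → 2 ≤ d → ND x₀ →
    ∃ C δ : ℝ, 0 < C ∧ 0 < δ ∧ ∀ x : CV d, ‖x - x₀‖ < δ →
      ∀ c : Fin (2 * d - 2) → OnePoint ℂ, HC x c → ∀ a : ℝ, 0 < a → a < δ →
      sar {z : ℂ | ¬ Attd (sp x) (z : OnePoint ℂ)} ≤ ENNReal.ofReal a →
      ∃ (x' : CV d) (c' : Fin (2 * d - 2) → OnePoint ℂ), ‖x' - x‖ ≤ C * a ^ γ ∧ ND x' ∧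
        HypTop (sp x') ∧ Coin x x' c c'

/-- the local form of the statement near a fixed point -/
def Loc (γ : ℝ) (d : ℕ) (x₀ : CV d) (q₀ : OnePoint ℂ) : Prop :=
  ∃ C δ : ℝ, 0 < C ∧ 0 < δ ∧ ∃ V ∈ 𝓝 q₀, ∀ x : CV d, ‖x - x₀‖ < δ → ∀ q ∈ V, sp x q = q →
    (∀ p : ℕ, ¬ Sink (sp x) p q) → ∀ c : Fin (2 * d - 2) → OnePoint ℂ, HC x c →
    ∀ a : ℝ, 0 < a → a < δ →
    sar {z : ℂ | ¬ Attd (sp x) (z : OnePoint ℂ)} ≤ ENNReal.ofReal a →
    ∃ (x' : CV d) (c' : Fin (2 * d - 2) → OnePoint ℂ), ‖x' - x‖ ≤ C * a ^ γ ∧ ND x' ∧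
      HypTop (sp x') ∧ Coin x x' c c'

theorem loc_ne {γ : ℝ} {d : ℕ} (hd : 2 ≤ d) {x₀ : CV d} (hx₀ : ND x₀) {q₀ : OnePoint ℂ}
    (hne : sp x₀ q₀ ≠ q₀) : Loc γ d x₀ q₀ := by
  obtain ⟨k, β, hkβ⟩ := exists_chart q₀
  set w₀ := zb β k () with hw₀
  have h0 : hF x₀ (cp k w₀) ≠ 0 := fun h => cp_ne k w₀ (hx₀ _ h)
  have c1 : Continuous (fun y : CV d × ℂ => hF y.1 (cp k y.2)) :=
    (hF_contDiff d 1).continuous.comp (continuous_fst.prodMk
      ((cp_cont k).continuous.comp continuous_snd))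
  have c2 : ContinuousAt (fun y : CV d × ℂ => pr (hF y.1 (cp k y.2))) (x₀, w₀) :=
    ContinuousAt.comp (f := fun y : CV d × ℂ => hF y.1 (cp k y.2)) (g := pr) (x := (x₀, w₀))
      (Pool.Agent.H790R3.RB.SP.continuousAt_pr h0) c1.continuousAt
  have c3 : ContinuousAt (fun y : CV d × ℂ => ph k y.2) (x₀, w₀) :=
    ((ph_cont k).comp continuous_snd).continuousAt
  have hne' : pr (hF x₀ (cp k w₀)) ≠ ph k w₀ := by
    have h1 := sp_ph hx₀ (by omega : 1 ≤ d) k w₀ 1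
    simp only [Function.iterate_one] at h1
    rw [← h1, hkβ]
    exact hne
  have h2 : ∀ᶠ y : CV d × ℂ in 𝓝 (x₀, w₀), pr (hF y.1 (cp k y.2)) ≠ ph k y.2 :=
    (ContinuousAt.ne_iff_eventually_ne c2 c3).1 hne'
  obtain ⟨δ₁, hδ₁, hb1⟩ := Metric.eventually_nhds_iff_ball.1 h2
  obtain ⟨δ₃, hδ₃, hb3⟩ := Metric.eventually_nhds_iff.1 (Pool.Agent.H790R3.RB.FAM.ND_open hx₀)
  refine ⟨1, min δ₁ δ₃, one_pos, lt_min hδ₁ hδ₃, ph k '' ball w₀ δ₁, ?_, ?_⟩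
  · rw [← hkβ]
    exact (ph_open k).image_mem_nhds (ball_mem_nhds w₀ hδ₁)
  · intro x hx q hq hfix
    exfalso
    obtain ⟨w, hw, rfl⟩ := hq
    have hND : ND x := hb3 (by rw [dist_eq_norm]; exact lt_of_lt_of_le hx (min_le_right _ _))
    have h3 := hb1 (x, w) (by
      rw [← ball_prod_same]
      exact ⟨by rw [mem_ball, dist_eq_norm]; exact lt_of_lt_of_le hx (min_le_left _ _), hw⟩)
    have h4 := sp_ph hND (by omega : 1 ≤ d) k w 1
    simp only [Function.iterate_one] at h4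
    exact h3 (h4.symm.trans hfix)

theorem loc_crit (hNAC : StNAC) {γ : ℝ} {d : ℕ} (hd : 2 ≤ d) {x₀ : CV d} (hx₀ : ND x₀)
    {q₀ : OnePoint ℂ} (hfix : sp x₀ q₀ = q₀) (hw : wr x₀ (hc q₀) = 0) : Loc γ d x₀ q₀ := by
  obtain ⟨δ, hδ, V, hV, h⟩ := hNAC d x₀ q₀ hd hx₀ hfix hw
  exact ⟨1, δ, one_pos, hδ, V, hV, fun x hx q hq hf hns => absurd (h x hx q hq hf) (hns 1)⟩

theorem loc_main (hSEL : PSEL) (hNORM : PNORM) {γ : ℝ} (hγ : 0 < γ) (hγ2 : γ < 1 / 2) {d : ℕ}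
    (hd : 2 ≤ d) {x₀ : CV d} (hx₀ : ND x₀)
    {q₀ : OnePoint ℂ} (hfix : sp x₀ q₀ = q₀) (hw : wr x₀ (hc q₀) ≠ 0) : Loc γ d x₀ q₀ := by
  obtain ⟨u₀, hu₀, hG, H⟩ := hNORM (γ + 1 / 2) d x₀ q₀ (by linarith) (by linarith) hd hx₀ hfix hw
  obtain ⟨C₂, ε₂, σ₂, hC₂, hε₂, hσ₂, H2⟩ :=
    hSEL (γ + 1 / 2) d u₀ (by linarith) (by linarith) hd hu₀ hG
  obtain ⟨ρU, hρU, hbU⟩ := Metric.nhds_basis_closedBall.mem_iff.1
    ((p_FM d hd).1.mem_nhds hu₀)
  obtain ⟨δN, hδN, hbN⟩ := Metric.eventually_nhds_iff.1 (Pool.Agent.H790R3.RB.FAM.ND_open hx₀)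
  obtain ⟨C, B, δ₀, hC, hB, hδ₀, V, hV, H3⟩ := H (min σ₂ ρU) (lt_min hσ₂ hρU)
  set δ : ℝ := min δ₀ δN with hδdef
  have hδ : 0 < δ := lt_min hδ₀ hδN
  have hexp : 2 * (γ + 1 / 2) - 1 = γ + γ := by ring
  have hK : 0 < C₂ * Real.sqrt B + 1 := by positivity
  have e1 : ∀ᶠ a : ℝ in 𝓝 0, B * a ^ (γ + γ) < ε₂ := by
    have c : ContinuousAt (fun a : ℝ => B * a ^ (γ + γ)) 0 :=
      continuousAt_const.mul (Real.continuousAt_rpow_const 0 _ (Or.inr (by linarith)))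
    have := c.tendsto.eventually_lt_const (u := ε₂)
      (by rw [Real.zero_rpow (by linarith)]; simpa using hε₂)
    exact this
  have e2 : ∀ᶠ a : ℝ in 𝓝 0, (C₂ * Real.sqrt B + 1) * a ^ γ < 1 := by
    have c : ContinuousAt (fun a : ℝ => (C₂ * Real.sqrt B + 1) * a ^ γ) 0 :=
      continuousAt_const.mul (Real.continuousAt_rpow_const 0 _ (Or.inr hγ.le))
    have := c.tendsto.eventually_lt_const (u := (1 : ℝ))
      (by rw [Real.zero_rpow hγ.ne']; simp)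
    exact this
  obtain ⟨δ', hδ', hb⟩ := Metric.eventually_nhds_iff.1 (e1.and e2)
  refine ⟨C * (C₂ * Real.sqrt B + 1), min δ δ', by positivity, lt_min hδ hδ', V, hV, ?_⟩
  intro x hx q hq hf hns c hcx a ha haδ hsar
  obtain ⟨u₁, h, m, hu₁, hm, hh, hsemi, hns1, hatt, hmu, hback⟩ := H3 x
    (hx.trans_le ((min_le_left _ _).trans (min_le_left _ _))) q hq hf
    hns a ha (haδ.trans_le ((min_le_left _ _).trans (min_le_left _ _))) hsar
  obtain ⟨hs1, hs2⟩ := hb (y := a) (by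
    rw [Real.dist_eq, sub_zero, abs_of_pos ha]; exact lt_of_lt_of_le haδ (min_le_right _ _))
  rw [hexp] at hmu
  have hag : 0 < a ^ γ := Real.rpow_pos_of_pos ha _
  have hxND : ND x := hbN (by
    rw [dist_eq_norm]
    exact hx.trans_le ((min_le_left _ _).trans (min_le_right _ _)))
  have hu₁U : u₁ ∈ U₀ d := hbU (by
    rw [mem_closedBall, dist_eq_norm]
    exact (hu₁.trans_le (min_le_right _ _)).le)
  -- the pattern of the coincidences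
  obtain ⟨π, hπ1, hπ2⟩ := pat_of c (fun i => sp x (c i)) (fun i j hij => by rw [hij])
  have hHC : HC (fam u₁) (fun i => h (c i)) := hc_map hd hxND hu₁U.1 hm h hh hsemi hcx
  obtain ⟨g, hg, hgw⟩ := hc_fam hu₁U.2 hHC
  have hd1 : 1 ≤ d := by omega
  have hval : ∀ (u : Fin (2 * d) → ℂ), ND (fam u) → ∀ a b : ℂ,
      (cr (hF (fam u) (a, 1)) (hF (fam u) (b, 1)) = 0 ↔
        sp (fam u) (a : OnePoint ℂ) = sp (fam u) (b : OnePoint ℂ)) := by
    intro u hu a b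
    have e : ∀ a : ℂ, sp (fam u) (a : OnePoint ℂ) = pr (hF (fam u) (a, 1)) := fun a => rfl
    have n : ∀ a : ℂ, hF (fam u) (a, 1) ≠ 0 := fun a h0 => vne a (hu _ h0)
    rw [e, e]
    exact (pr_eq_iff (n a) (n b)).symm
  have hspc : ∀ i, sp (fam u₁) (g i : OnePoint ℂ) = h (sp x (c i)) := by
    intro i
    rw [← hg i, hsemi]
  have hExa : Exa π u₁ g := by
    refine ⟨⟨hgw, ?_, ?_⟩, ?_, ?_⟩
    · intro i
      have e1 : c i = c (π.p1 i) := (hπ1 _ _).2 (π.h11 i).symm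
      have e2 : (g i : OnePoint ℂ) = g (π.p1 i) := by rw [← hg, ← hg, ← e1]
      exact OnePoint.coe_injective e2
    · intro i
      rw [hval u₁ hu₁U.1, hspc, hspc]
      have e1 : sp x (c i) = sp x (c (π.p2 i)) := (hπ2 _ _).2 (π.h22 i).symm
      rw [e1]
    · intro i j hij
      rw [← hπ1]
      apply h.injective
      rw [hg i, hg j, hij]
    · intro i j hij
      rw [← hπ2]
      apply h.injective
      rw [hval u₁ hu₁U.1, hspc, hspc] at hij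
      exact hij
  obtain ⟨u, g', hu, huU, hhyp, hLab⟩ := H2 u₁ (hu₁.trans_le (min_le_left _ _)) hns1 hatt π g hExa
    (B * a ^ (γ + γ))
    (by have := Real.rpow_nonneg ha.le (γ + γ); positivity) hs1 hmu (a ^ γ) hag
  have hsqrt : Real.sqrt (B * a ^ (γ + γ)) = Real.sqrt B * a ^ γ := by
    rw [Real.sqrt_mul hB.le, Real.rpow_add ha, Real.sqrt_mul_self hag.le]
  have hle : ‖u - u₁‖ ≤ (C₂ * Real.sqrt B + 1) * a ^ γ := by
    rw [hsqrt] at hu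
    linarith
  obtain ⟨x', hx', hND', hsemi'⟩ := hback u (lt_of_le_of_lt hle hs2) huU.1
  have hinv : ∀ z, h.symm (sp (fam u) z) = sp x' (h.symm z) := by
    intro z
    apply h.injective
    rw [hsemi', h.apply_symm_apply, h.apply_symm_apply]
  have hdtad : dt (ad m) ≠ 0 := by
    have : dt (ad m) = dt m := by simp only [dt, ad]; ring
    rw [this]
    exact hm
  have hh' : ∀ p : ℂ × ℂ, p ≠ 0 → h.symm (pr p) = pr (ap (ad m) p) := by
    intro p hp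
    apply h.injective
    rw [h.apply_symm_apply, hh _ (ap_ne hdtad hp), ad_ap, pr_csmul hm]
  refine ⟨x', fun i => h.symm (g' i : OnePoint ℂ), ?_, hND',
    Pool.Agent.H790R3.RB.ALL.hyp h.symm (fun z => (hinv z).symm) hhyp, ?_, ?_, ?_⟩
  rotate_left
  · exact hc_map hd huU.1 hND' hdtad h.symm hh' hinv (fam_hc hd huU.2 hLab.crit)
  · intro i j hij
    have e1 : π.p1 i = π.p1 j := (hπ1 i j).1 hij
    change h.symm (g' i : OnePoint ℂ) = h.symm (g' j : OnePoint ℂ)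
    rw [hLab.p1 i, hLab.p1 j, e1]
  · intro i j hij
    have e1 : π.p2 i = π.p2 j := (hπ2 i j).1 hij
    have e2 : ∀ i, sp (fam u) (g' i : OnePoint ℂ) = sp (fam u) (g' (π.p2 i) : OnePoint ℂ) :=
      fun i => (hval u huU.1 _ _).1 (hLab.p2 i)
    change sp x' (h.symm (g' i : OnePoint ℂ)) = sp x' (h.symm (g' j : OnePoint ℂ))
    rw [← hinv, ← hinv, e2 i, e2 j, e1]
  calc ‖x' - x‖ ≤ C * ‖u - u₁‖ := hx'
    _ ≤ C * ((C₂ * Real.sqrt B + 1) * a ^ γ) := mul_le_mul_of_nonneg_left hle hC.le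
    _ = C * (C₂ * Real.sqrt B + 1) * a ^ γ := by ring

theorem pseq (hSEL : PSEL) (hNORM : PNORM) (hNAF : StNAF) (hNAC : StNAC) : PSEQ := by
  intro γ d x₀ hγ hγ2 hd hx₀
  have hloc : ∀ q₀ : OnePoint ℂ, Loc γ d x₀ q₀ := by
    intro q₀
    by_cases h1 : sp x₀ q₀ = q₀
    · by_cases h2 : wr x₀ (hc q₀) = 0
      · exact loc_crit hNAC hd hx₀ h1 h2
      · exact loc_main hSEL hNORM hγ hγ2 hd hx₀ h1 h2
    · exact loc_ne hd hx₀ h1
  choose C δ hC hδ V hV H using hloc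
  obtain ⟨t, -, ht⟩ := isCompact_univ.elim_nhds_subcover V (fun q _ => hV q)
  obtain ⟨δ₃, hδ₃, hb3⟩ := Metric.eventually_nhds_iff.1 (Pool.Agent.H790R3.RB.FAM.ND_open hx₀)
  obtain ⟨η, hη, hη1, hη2⟩ : ∃ η : ℝ, 0 < η ∧ η < δ₃ ∧ ∀ q ∈ t, η < δ q := by
    have e1 : ∀ᶠ η : ℝ in 𝓝[>] 0, 0 < η := eventually_mem_nhdsWithin
    have e2 : ∀ᶠ η : ℝ in 𝓝[>] 0, η < δ₃ :=
      eventually_nhdsWithin_of_eventually_nhds (eventually_lt_nhds hδ₃)
    have e3 : ∀ᶠ η : ℝ in 𝓝[>] 0, ∀ q ∈ t, η < δ q :=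
      (Finset.eventually_all t).2 fun q _ =>
        eventually_nhdsWithin_of_eventually_nhds (eventually_lt_nhds (hδ q))
    obtain ⟨η, h1, h2, h3⟩ := (e1.and (e2.and e3)).exists
    exact ⟨η, h1, h2, h3⟩
  have hS : 0 ≤ ∑ q ∈ t, C q := Finset.sum_nonneg fun q _ => (hC q).le
  refine ⟨∑ q ∈ t, C q + 1, η, by linarith, hη, ?_⟩
  intro x hx c hcx a ha haη hsar
  have hag : 0 < a ^ γ := Real.rpow_pos_of_pos ha _
  have hND : ND x := hb3 (by rw [dist_eq_norm]; exact hx.trans hη1)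
  obtain ⟨q, hq, hns⟩ := hNAF d x hd hND
  obtain ⟨q₀, hq₀, hqV⟩ := mem_iUnion₂.1 (ht (mem_univ q))
  obtain ⟨x', c', hx', hND', hh', hco⟩ := H q₀ x (hx.trans (hη2 q₀ hq₀)) q hqV hq hns c hcx a ha
    (haη.trans (hη2 q₀ hq₀)) hsar
  refine ⟨x', c', hx'.trans (mul_le_mul_of_nonneg_right ?_ hag.le), hND', hh', hco⟩
  have := Finset.single_le_sum (f := C) (fun q _ => (hC q).le) hq₀
  linarith

end Pool.Agent.H207.CS
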