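import Mathlib
import Pool.Agent.H207.CS.Gen
import Pool.Graph.R_seed8.W757.RD.TKOE

/-! Project CS: good configurations in a stratum (adapted from `Pool.Agent.W210.RE.task`). -/

set_option autoImplicit false

open Topology Filter Metric Set MeasureTheory
open Pool.Agent.H790R3.RB
open scoped OnePoint

namespace Pool.Agent.H207.CS

open Pool.Agent.W757.RD (Sys Pt bz pc ys mu)

open Pool.Agent.W757 in
/-- Good configurations in a stratum. -/
theorem pstart (hSMK : RD.StSMK) (hMARK : RD.StMARK) (hUSC : RD.StUSC) (hLNE : RD.StLNE)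
    (hKOE : RD.StKOE) (hFM : RD.StFM) : PSTART := by
  intro β d u₁ π c₁ hβ1 hβ2 hd hu₁ hsink hatt hExa ε hε
  obtain ⟨s, per, p, hMk, hKS⟩ := hSMK d u₁ hd hu₁ hsink
  obtain ⟨hU₀, -⟩ := hFM d hd
  obtain ⟨ρ, hρ, hBU⟩ := Metric.nhds_basis_closedBall.mem_iff.1 (hU₀.mem_nhds hu₁)
  obtain ⟨S, q₀, hExt, hper, hq₀U, hxp, hbp, hb, -⟩ := hMARK d (closedBall u₁ ρ) hd
    (isCompact_closedBall _ _) hBU u₁ (mem_closedBall_self hρ.le) s per p hMk
  have hKS' := hKS S q₀ hExt hper hq₀U hxp hb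
  obtain ⟨σ, N₀, hσ, hUSC'⟩ := hUSC β d (2 * d + s) s S q₀ hβ1 hβ2 hq₀U ε hε
  choose kj mj hkm using fun j : Fin 2 => hKS' (bz j) (hatt j)
  -- the base points enter the discs for all nearby parameters
  have hev : ∀ᶠ q in 𝓝 q₀, q ∈ S.U ∧ ∀ j : Fin 2, S.InC (kj j) q ((S.F q)^[mj j] (bz j, 1)) := by
    refine Filter.Eventually.and (S.hU.mem_nhds hq₀U) (eventually_all.2 fun j => ?_)
    have h1 := RD.KOE.ev_inC S (kj j) (mj j) (q := (q₀, (bz j, 1))) hq₀U (hkm j)
    have h2 : Tendsto (fun q : Fin (2 * d + s) → ℂ => (q, ((bz j, 1) : ℂ × ℂ))) (𝓝 q₀)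
        (𝓝 (q₀, (bz j, 1))) := (Continuous.prodMk continuous_id continuous_const).tendsto _
    exact h2.eventually h1
  obtain ⟨σ', hσ', hball⟩ := Metric.eventually_nhds_iff.1 hev
  have hq1 : 1 ≤ ∏ k : Fin s, S.per k := Finset.one_le_prod' fun k _ => S.hper k
  have hdvd : ∀ k, S.per k ∣ ∏ k : Fin s, S.per k :=
    fun k => Finset.dvd_prod_of_mem S.per (Finset.mem_univ k)
  have hε' : 0 < min ε (min σ σ') := lt_min hε (lt_min hσ hσ')
  obtain ⟨x₂, hx₂, hx₂U, hExa₂, hncr⟩ := gen hFM hd hu₁ hExa hq1 hε'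
  set q₂ : Fin (2 * d + s) → ℂ := Fin.append x₂ p with hq₂
  have hxp₂ : RD.xp q₂ = x₂ := by
    funext i
    simp [RD.xp, hq₂]
  have hd₂ : ‖q₂ - q₀‖ < min ε (min σ σ') := by
    rw [pi_norm_lt_iff hε']
    intro i
    rw [Pi.sub_apply]
    refine Fin.addCases (fun i => ?_) (fun k => ?_) i
    · have h1 : q₂ (Fin.castAdd s i) = x₂ i := by simp [hq₂]
      have h2 : q₀ (Fin.castAdd s i) = u₁ i := congrFun hxp i
      rw [h1, h2]
      exact lt_of_le_of_lt (norm_le_pi_norm (x₂ - u₁) i) hx₂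
    · have h1 : q₂ (Fin.natAdd (2 * d) k) = p k := by simp [hq₂]
      have h2 : q₀ (Fin.natAdd (2 * d) k) = p k := hbp k
      rw [h1, h2, sub_self, norm_zero]
      exact hε'
  obtain ⟨hq₂U, hIn⟩ := hball (y := q₂) (by
    rw [dist_eq_norm]
    exact hd₂.trans_le ((min_le_right _ _).trans (min_le_right _ _)))
  have hco : S.co q₂ = RD.fam x₂ := by rw [hExt.co q₂ hq₂U, hxp₂]
  have hlam : ∀ k, S.lam k q₂ ≠ 0 :=
    hLNE d (2 * d + s) s S _ q₂ hq₂U hdvd hq1 (by rw [hco]; exact hncr)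
  obtain ⟨KK, hKK⟩ := hKOE d (2 * d + s) s S
  let y : Ix d (2 * d + s) s → ℂ := Sum.elim q₂ (Sum.elim c₁ (fun _ => 1))
  have hyx : yx y = q₂ := rfl
  have hyc : yc y = c₁ := rfl
  have hys : ∀ k, ys y k ≠ 0 := fun k => one_ne_zero
  let ks : Pt d → Fin s := Sum.elim (fun _ => kj 0) kj
  let ls : Pt d → ℕ := Sum.elim (fun _ => 0) (fun j => mj j % S.per (kj j))
  refine ⟨s, S, KK, ks, ls, y, hExt, hKK, ?_, ?_, ?_⟩
  · rw [hyx, hxp₂]
    exact hx₂.trans_le (min_le_left _ _)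
  · rw [hyx]
    have h1 : S.KS q₂ ⊆ {ζ : ℂ | ∀ k, ∀ m ≤ N₀, ¬ S.InC k q₂ ((S.F q₂)^[m] (ζ, 1))} :=
      fun ζ hζ k m _ => hζ k m
    refine (measure_mono h1).trans ((hUSC' q₂ hq₂U ?_).trans ?_)
    · exact hd₂.trans_le ((min_le_right _ _).trans (min_le_left _ _))
    · refine add_le_add (measure_mono ?_) le_rfl
      intro ζ hζ hA
      obtain ⟨k, m, hkm'⟩ := hKS' ζ hA
      exact hζ k m hkm'
  · have hatt2 : ∀ j : Fin 2, ls (Sum.inr j) < S.per (ks (Sum.inr j)) ∧
        (yx y, (S.F (yx y))^[ls (Sum.inr j)] (pc y (Sum.inr j), 1)) ∈ S.Dom (ks (Sum.inr j)) := by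
      intro j
      refine ⟨Nat.mod_lt _ (S.hper _), hq₂U, hlam _, mj j / S.per (kj j), ?_⟩
      have h1 : (S.F q₂)^[S.per (kj j) * (mj j / S.per (kj j))]
          ((S.F q₂)^[mj j % S.per (kj j)] (bz j, 1)) = (S.F q₂)^[mj j] (bz j, 1) := by
        rw [← Function.iterate_add_apply, Nat.div_add_mod]
      have h2 := hIn j
      rw [← h1] at h2
      exact h2
    refine ⟨⟨hq₂U, hlam, hys, ?_, ?_, ?_⟩, ?_, ?_, ?_⟩
    · intro j
      unfold RD.Sys.Er
      rw [hyx, hyc, hco, hExa₂.crit, sub_self]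
    · intro i hi
      rcases Finset.mem_insert.1 hi with rfl | hi
      · exact (hatt2 0).1
      · rw [Finset.mem_singleton.1 hi]
        exact (hatt2 1).1
    · intro i hi
      rcases Finset.mem_insert.1 hi with rfl | hi
      · exact (hatt2 0).2
      · rw [Finset.mem_singleton.1 hi]
        exact (hatt2 1).2
    · intro i
      classical
      unfold Ex
      split_ifs with h
      · rw [hyc]
        exact sub_eq_zero.2 (hExa₂.p1 i)
      · unfold RD.Sys.F
        rw [hyx, hyc, hco]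
        exact hExa₂.p2 i
    · refine ⟨?_, ?_, ?_⟩
      · intro i
        rcases i with i | j
        · simp [rep]
        · simp [rep]
      · intro i
        rcases i with i | j <;> rfl
      · intro i
        rcases i with i | j <;> rfl
    · obtain ⟨col, hcol⟩ := emin hExt π (y := y) hq₂U (by
        rw [hyx, hxp₂, hyc]
        exact hExa₂)
      refine ⟨Fin.elim0, Sum.elim col Fin.elim0, ?_⟩
      have hM : MxP S π KK (RD.ee S) (Bs π {Sum.inr 0, Sum.inr 1}) ks ls (R := 0) Fin.elim0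
          (Sum.elim col Fin.elim0) y =
          (Matrix.of fun j c : Fin (2 * d - 2) ⊕ Nr π =>
            fderiv ℂ (Es S π j) y (Pi.single (col c) 1)).submatrix
            (Equiv.sumEmpty (Fin (2 * d - 2) ⊕ Nr π) (Fin 0))
            (Equiv.sumEmpty (Fin (2 * d - 2) ⊕ Nr π) (Fin 0)) := by
        ext a b
        rcases a with a | a
        · rcases b with b | b
          · rfl
          · exact b.elim0
        · exact a.elim0
      rw [hM, Matrix.det_submatrix_equiv_self]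
      exact hcol

end Pool.Agent.H207.CS
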