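import Mathlib
import Pool.Agent.H207.CS.Seq
import Pool.Agent.H207.CS.Start
import Pool.Graph.R_seed8.W757.RD.Main

/-! Project CS: assembly. -/

set_option autoImplicit false

namespace Pool.Agent.H207.CS

open Pool.Agent.W757.RD

theorem p_PSTART : PSTART := pstart p_SMK p_MARK p_USC p_LNE p_KOE p_FM

theorem p_PMINP : PMINP :=
  minp p_FM p_LAM p_LIN p_LSC p_DI p_USC p_ADO p_LF p_IN p_BAD p_CPT p_OPN
    p_EXC p_FKB p_POLE Pool.Agent.H790R3.RB.LA p_ST p_NC p_FWD p_MU Pool.Agent.H790R3.RB.DISC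
    Pool.Agent.H790R3.RB.MAXI Pool.Agent.H790R3.RB.CONT

theorem p_PSEL : PSEL :=
  psel p_PSTART p_MARK p_TRF p_ADO p_PMINP p_NUM p_ALLC p_TOP p_ER p_LAM p_KOE

theorem p_PNORM : PNORM := pnorm p_NM p_NA p_MU

theorem p_PSEQ : PSEQ := pseq p_PSEL p_PNORM p_NAF p_NAC

end Pool.Agent.H207.CS
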