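import Mathlib
import Pool.Agent.H207.CS.Main
import Pool.Agent.H207.CS.Close

/-! Project CS: a rational map with zero area of the set of points which are not attracted is a
limit of hyperbolic maps in its own stratum. -/

set_option autoImplicit false

open Topology Filter Metric Set MeasureTheory
open Pool.Agent.H790R3.RB (CV hF cr ND wr sp pr hc HypTop Attd Sink)
open Pool.Agent.W757.RD
open scoped OnePoint

namespace Pool.Agent.H207.CS

theorem sar_zero {E : Set ℂ} (h : volume E = 0) : sar E = 0 := by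
  unfold sar
  exact setLIntegral_measure_zero _ _ h

theorem lim_strata {d : ℕ} (hd : 2 ≤ d) {x : CV d} (hx : ND x)
    {c : Fin (2 * d - 2) → OnePoint ℂ} (hcx : HC x c)
    (h0 : volume {z : ℂ | ¬ Attd (sp x) (z : OnePoint ℂ)} = 0) {ε : ℝ} (hε : 0 < ε)
    (U : Fin (2 * d - 2) → Set (OnePoint ℂ)) (hU : ∀ i, U i ∈ 𝓝 (c i)) :
    ∃ (x' : CV d) (c' : Fin (2 * d - 2) → OnePoint ℂ), ‖x' - x‖ < ε ∧ ND x' ∧ HypTop (sp x') ∧
      HC x' c' ∧ (∀ i, c' i ∈ U i) ∧ (∀ i j, c' i = c' j ↔ c i = c j) ∧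
      ∀ i j, sp x' (c' i) = sp x' (c' j) ↔ sp x (c i) = sp x (c j) := by
  classical
  obtain ⟨C, δ, hC, hδ, H⟩ := p_PSEQ (1 / 4) d x (by norm_num) (by norm_num) hd hx
  have hstep : ∀ n : ℕ, ∃ (x' : CV d) (c' : Fin (2 * d - 2) → OnePoint ℂ),
      ‖x' - x‖ ≤ C * (δ / (n + 2)) ^ (1 / 4 : ℝ) ∧ ND x' ∧ HypTop (sp x') ∧ Coin x x' c c' := by
    intro n
    have h1 : (0 : ℝ) < n + 2 := by positivity
    have h2 : 0 < δ / (n + 2) := div_pos hδ h1
    have h3 : δ / (n + 2) < δ := by
      rw [div_lt_iff₀ h1]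
      have : (0 : ℝ) ≤ n := Nat.cast_nonneg n
      nlinarith
    exact H x (by rw [sub_self, norm_zero]; exact hδ) c hcx _ h2 h3 (by
      rw [sar_zero h0]
      exact zero_le)
  choose X cs hXn hXN hXH hXc using hstep
  set l : Ultrafilter ℕ := hyperfilter ℕ with hl
  have hlt : (l : Filter ℕ) ≤ atTop := Nat.hyperfilter_le_atTop
  have hX : Tendsto X l (𝓝 x) := by
    rw [tendsto_iff_norm_sub_tendsto_zero]
    have h1 : Tendsto (fun n : ℕ => C * (δ / (n + 2)) ^ (1 / 4 : ℝ)) atTop (𝓝 0) := by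
      have h2 : Tendsto (fun n : ℕ => δ / ((n : ℝ) + 2)) atTop (𝓝 0) := by
        refine Tendsto.div_atTop tendsto_const_nhds ?_
        exact tendsto_atTop_add_const_right _ _ tendsto_natCast_atTop_atTop
      have h3 : ContinuousAt (fun a : ℝ => C * a ^ (1 / 4 : ℝ)) 0 :=
        continuousAt_const.mul (Real.continuousAt_rpow_const 0 _ (Or.inr (by norm_num)))
      have h4 := h3.tendsto.comp h2
      have h5 : C * (0 : ℝ) ^ (1 / 4 : ℝ) = 0 := by
        rw [Real.zero_rpow (by norm_num), mul_zero]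
      rw [h5] at h4
      exact h4
    exact (squeeze_zero (fun n => norm_nonneg _) hXn h1).mono_left hlt
  have hlim : ∀ j, ∃ z : OnePoint ℂ, Tendsto (fun n => cs n j) l (𝓝 z) := by
    intro j
    refine ⟨(l.map fun n => cs n j).lim, ?_⟩
    exact (l.map fun n => cs n j).le_nhds_lim
  choose cl hcl using hlim
  have hHC : HC x cl := hc_limit hcx hX (Eventually.of_forall fun n => (hXc n).hc) hcl
  obtain ⟨K, hK, hw⟩ := id hcx
  obtain ⟨K', hK', hw'⟩ := hHC
  obtain ⟨σ, hσ⟩ := perm_of cl c hK' hK (fun p => by rw [← hw', ← hw])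
  have hr1 : ∀ i j, c (σ i) = c (σ j) → c i = c j := by
    refine perm_rel σ (fun i j => c i = c j) ?_
    intro i j hij
    rw [← hσ, ← hσ]
    refine tendsto_nhds_unique (hcl i) ((hcl j).congr fun n => ?_)
    exact ((hXc n).h1 i j hij).symm
  have hr2 : ∀ i j, sp x (c (σ i)) = sp x (c (σ j)) → sp x (c i) = sp x (c j) := by
    refine perm_rel σ (fun i j => sp x (c i) = sp x (c j)) ?_
    intro i j hij
    rw [← hσ, ← hσ]
    refine tendsto_nhds_unique (sp_tendsto hx hX (hcl i))
      ((sp_tendsto hx hX (hcl j)).congr fun n => ?_)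
    exact ((hXc n).h2 i j hij).symm
  have hcl' : ∀ i, Tendsto (fun n => cs n (σ.symm i)) l (𝓝 (c i)) := by
    intro i
    have := hcl (σ.symm i)
    rwa [hσ, Equiv.apply_symm_apply] at this
  have e1 : ∀ᶠ n in (l : Filter ℕ), ‖X n - x‖ < ε := by
    rw [tendsto_iff_norm_sub_tendsto_zero] at hX
    exact hX.eventually (gt_mem_nhds hε)
  have e2 : ∀ᶠ n in (l : Filter ℕ), ∀ i, cs n (σ.symm i) ∈ U i :=
    eventually_all.2 fun i => hcl' i (hU i)
  have e3 : ∀ᶠ n in (l : Filter ℕ), ∀ i j, c i ≠ c j → cs n (σ.symm i) ≠ cs n (σ.symm j) := by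
    refine eventually_all.2 fun i => eventually_all.2 fun j => ?_
    by_cases h : c i = c j
    · exact Eventually.of_forall fun n h2 => absurd h h2
    · filter_upwards [((hcl' i).prodMk_nhds (hcl' j)).eventually
        (isOpen_ne_fun continuous_fst continuous_snd |>.mem_nhds h)] with n hn _
      exact hn
  have e4 : ∀ᶠ n in (l : Filter ℕ), ∀ i j, sp x (c i) ≠ sp x (c j) →
      sp (X n) (cs n (σ.symm i)) ≠ sp (X n) (cs n (σ.symm j)) := by
    refine eventually_all.2 fun i => eventually_all.2 fun j => ?_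
    by_cases h : sp x (c i) = sp x (c j)
    · exact Eventually.of_forall fun n h2 => absurd h h2
    · filter_upwards [((sp_tendsto hx hX (hcl' i)).prodMk_nhds
        (sp_tendsto hx hX (hcl' j))).eventually
        (isOpen_ne_fun continuous_fst continuous_snd |>.mem_nhds h)] with n hn _
      exact hn
  obtain ⟨n, h1, h2, h3, h4⟩ := (e1.and (e2.and (e3.and e4))).exists
  refine ⟨X n, fun i => cs n (σ.symm i), h1, hXN n, hXH n, hc_perm (hXc n).hc σ.symm, h2, ?_, ?_⟩
  · intro i j
    constructor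
    · intro h
      by_contra hne
      exact h3 i j hne h
    · intro h
      apply (hXc n).h1
      apply hr1
      rw [Equiv.apply_symm_apply, Equiv.apply_symm_apply]
      exact h
  · intro i j
    constructor
    · intro h
      by_contra hne
      exact h4 i j hne h
    · intro h
      apply (hXc n).h2
      apply hr2
      rw [Equiv.apply_symm_apply, Equiv.apply_symm_apply]
      exact h

end Pool.Agent.H207.CS
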